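import Pool.Agent.V1143.Maass.Whit

/-! Dirichlet series attached to Bessel expansions with functional equation of sign -1. -/

namespace Pool.Agent.V1143.Maass

open MeasureTheory Filter Topology Set Asymptotics

noncomputable section

/-- data for a Bessel expansion -/
structure BD where
  ν : ℂ
  C : ℂ
  hC : C ≠ 0
  c : ℝ → ℂ
  hc : ∀ y : ℝ, 0 < y → c y = C * wB ν y
  K : ℝ
  hK0 : 0 ≤ K
  hK : ∀ y : ℝ, 0 < y → ‖c y‖ ≤ K * Real.exp (-y)
  δ : ℕ
  hδ : δ ≤ 1
  d : ℕ → ℂ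
  hd0 : d 0 = 0
  B : ℝ
  hB : ∀ n, ‖d n‖ ≤ B
  q : ℝ
  hq : 0 < q

namespace BD

variable (D : BD)

/-- the basic function -/
def φ (y : ℝ) : ℂ := (y : ℂ) ^ D.δ * D.c y

/-- the series -/
def S (y : ℝ) : ℂ := ∑' n : ℕ, D.d n * D.φ (n * y)

lemma hB0 : 0 ≤ D.B := (norm_nonneg _).trans (D.hB 0)

lemma norm_φ_le {y : ℝ} (hy : 0 < y) : ‖D.φ y‖ ≤ 2 * D.K * Real.exp (-(y / 2)) := by
  unfold φ
  rw [norm_mul, norm_pow, Complex.norm_real, Real.norm_of_nonneg hy.le]
  have h1 : y ^ D.δ ≤ 2 * Real.exp (y / 2) := by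
    have h2 := Real.add_one_le_exp (y / 2)
    rcases Nat.le_one_iff_eq_zero_or_eq_one.mp D.hδ with h | h
    · rw [h, pow_zero]; linarith
    · rw [h, pow_one]; linarith
  calc y ^ D.δ * ‖D.c y‖ ≤ (2 * Real.exp (y / 2)) * (D.K * Real.exp (-y)) :=
        mul_le_mul h1 (D.hK y hy) (norm_nonneg _) (by positivity)
    _ = 2 * D.K * (Real.exp (y / 2) * Real.exp (-y)) := by ring
    _ = _ := by rw [← Real.exp_add]; congr 2; ring

lemma cont_c : ContinuousOn D.c (Ioi 0) := by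
  intro y hy
  have h1 : ContinuousAt (fun y => D.C * wB D.ν y) y :=
    ((hasDerivAt_wB D.ν (mem_Ioi.mp hy)).continuousAt).const_mul _
  refine (h1.congr ?_).continuousWithinAt
  filter_upwards [Ioi_mem_nhds (mem_Ioi.mp hy)] with t ht
  exact (D.hc t (mem_Ioi.mp ht)).symm

lemma cont_φ : ContinuousOn D.φ (Ioi 0) := by
  unfold φ
  exact ContinuousOn.mul (by fun_prop) D.cont_c

lemma norm_term_le (n : ℕ) {y : ℝ} (hy : 0 < y) :
    ‖D.d n * D.φ (n * y)‖ ≤ 2 * D.K * D.B * Real.exp (-(y / 2)) ^ n := by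
  have hB0 := D.hB0
  have hK0 := D.hK0
  rcases Nat.eq_zero_or_pos n with h | h
  · rw [h, D.hd0, zero_mul, norm_zero]; positivity
  · rw [norm_mul]
    have hn : (0:ℝ) < n := by exact_mod_cast h
    have h1 := D.norm_φ_le (mul_pos hn hy)
    calc ‖D.d n‖ * ‖D.φ (n * y)‖ ≤ D.B * (2 * D.K * Real.exp (-(n * y / 2))) :=
          mul_le_mul (D.hB n) h1 (norm_nonneg _) hB0
      _ = _ := by
          rw [← Real.exp_nat_mul]
          have : (n:ℝ) * -(y / 2) = -(n * y / 2) := by ring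
          rw [this]; ring

lemma exp_lt_one {y : ℝ} (hy : 0 < y) : Real.exp (-(y / 2)) < 1 := by
  rw [Real.exp_lt_one_iff]; linarith

lemma summable_bd {y : ℝ} (hy : 0 < y) :
    Summable fun n : ℕ => 2 * D.K * D.B * Real.exp (-(y / 2)) ^ n :=
  (summable_geometric_of_lt_one (Real.exp_pos _).le (exp_lt_one hy)).mul_left _

lemma summable_term {y : ℝ} (hy : 0 < y) : Summable fun n : ℕ => D.d n * D.φ (n * y) :=
  Summable.of_norm_bounded (D.summable_bd hy) fun n => D.norm_term_le n hy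

lemma cont_S : ContinuousOn D.S (Ioi 0) := by
  intro y hy
  have hy0 : 0 < y := mem_Ioi.mp hy
  have h1 : ContinuousOn D.S (Ioi (y / 2)) := by
    unfold S
    refine continuousOn_tsum (u := fun n : ℕ => 2 * D.K * D.B * Real.exp (-((y / 2) / 2)) ^ n)
      ?_ (D.summable_bd (half_pos hy0)) ?_
    · intro n
      rcases Nat.eq_zero_or_pos n with h | h
      · rw [h, D.hd0]; simp only [zero_mul]; exact continuousOn_const
      · have hn : (0:ℝ) < n := by exact_mod_cast h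
        refine ContinuousOn.mul continuousOn_const ?_
        refine D.cont_φ.comp (by fun_prop) ?_
        intro t ht
        have : y / 2 < t := ht
        exact mul_pos hn (by linarith)
    · intro n t ht
      have ht' : y / 2 < t := ht
      have ht0 : 0 < t := by linarith
      refine (D.norm_term_le n ht0).trans ?_
      have hB0 := D.hB0
      have hK0 := D.hK0
      refine mul_le_mul_of_nonneg_left ?_ (by positivity)
      refine pow_le_pow_left₀ (Real.exp_pos _).le ?_ n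
      exact Real.exp_le_exp.mpr (by linarith)
  exact (h1.continuousAt (Ioi_mem_nhds (by linarith))).continuousWithinAt

lemma S_decay : ∃ A : ℝ, ∀ y : ℝ, 1 ≤ y → ‖D.S y‖ ≤ A * Real.exp (-(y / 2)) := by
  have hB0 := D.hB0
  have hK0 := D.hK0
  set r1 := Real.exp (-((1:ℝ) / 2)) with hr1
  have hr1' : r1 < 1 := exp_lt_one one_pos
  have hr1p : 0 < r1 := Real.exp_pos _
  refine ⟨2 * D.K * D.B * (1 - r1)⁻¹, fun y hy => ?_⟩
  have hy0 : 0 < y := by linarith
  unfold S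
  set r := Real.exp (-(y / 2)) with hr
  have hrp : 0 < r := Real.exp_pos _
  have hrr1 : r ≤ r1 := Real.exp_le_exp.mpr (by linarith)
  have hbound : ∀ n : ℕ, ‖D.d n * D.φ (n * y)‖ ≤ 2 * D.K * D.B * r * r1 ^ (n - 1) := by
    intro n
    rcases Nat.eq_zero_or_pos n with h | h
    · rw [h, D.hd0, zero_mul, norm_zero]; positivity
    · refine (D.norm_term_le n hy0).trans ?_
      rw [← hr]
      obtain ⟨k, rfl⟩ : ∃ k, n = k + 1 := ⟨n - 1, by omega⟩
      rw [Nat.add_sub_cancel, pow_succ]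
      have : r ^ k ≤ r1 ^ k := pow_le_pow_left₀ hrp.le hrr1 k
      calc 2 * D.K * D.B * (r ^ k * r) = (2 * D.K * D.B * r) * r ^ k := by ring
        _ ≤ (2 * D.K * D.B * r) * r1 ^ k := mul_le_mul_of_nonneg_left this (by positivity)
  have hs1 : Summable fun n : ℕ => D.d (n + 1) * D.φ ((n + 1 : ℕ) * y) :=
    (summable_nat_add_iff 1).mpr (D.summable_term hy0)
  rw [(D.summable_term hy0).tsum_eq_zero_add, D.hd0, zero_mul, zero_add]
  have hgeo := (summable_geometric_of_lt_one hr1p.le hr1').mul_left (2 * D.K * D.B * r)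
  refine (tsum_of_norm_bounded (f := fun n : ℕ => D.d (n + 1) * D.φ ((n + 1 : ℕ) * y))
    (hgeo.hasSum) (fun n => ?_)).trans ?_
  · have := hbound (n + 1)
    rwa [Nat.add_sub_cancel] at this
  · rw [tsum_mul_left, tsum_geometric_of_lt_one hr1p.le hr1']
    apply le_of_eq; ring

lemma mellinConv {z : ℂ} (hz : 0 < z.re) : MellinConvergent D.φ z := by
  refine mellinConvergent_of_isBigO_rpow_exp (a := 1 / 2) (b := 0) (by norm_num)
    (D.cont_φ.locallyIntegrableOn measurableSet_Ioi) ?_ ?_ hz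
  · refine IsBigO.of_bound (2 * D.K) ?_
    filter_upwards [eventually_gt_atTop 0] with y hy
    refine (D.norm_φ_le hy).trans (le_of_eq ?_)
    rw [Real.norm_of_nonneg (Real.exp_pos _).le]
    congr 2
    ring
  · refine IsBigO.of_bound (2 * D.K) ?_
    filter_upwards [self_mem_nhdsWithin] with y hy
    have hy0 : 0 < y := mem_Ioi.mp hy
    refine (D.norm_φ_le hy0).trans ?_
    rw [neg_zero, Real.rpow_zero, norm_one]
    have hK0 := D.hK0
    refine mul_le_mul_of_nonneg_left ?_ (by positivity)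
    rw [Real.exp_le_one_iff]; linarith

/-- the gamma factor -/
def G (s : ℂ) : ℂ :=
  (Real.pi : ℂ) ^ (-(s + D.δ)) / 2 * Complex.Gamma ((s + D.δ + D.ν) / 2) *
    Complex.Gamma ((s + D.δ - D.ν) / 2)

lemma mellin_φ {s : ℂ} (hs : |D.ν.re| < s.re) :
    mellin D.φ (s - 1 / 2) = D.C * D.G s := by
  have hs' : |D.ν.re| < (s + D.δ).re := by
    rw [Complex.add_re, Complex.natCast_re]
    have : (0:ℝ) ≤ D.δ := Nat.cast_nonneg _
    linarith
  have h := (mellin_wB hs').2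
  unfold G
  rw [← h, ← integral_const_mul]
  unfold mellin
  refine setIntegral_congr_fun measurableSet_Ioi fun y hy => ?_
  have hy0 : 0 < y := mem_Ioi.mp hy
  have hyc : (y : ℂ) ≠ 0 := by exact_mod_cast hy0.ne'
  unfold φ
  rw [D.hc y hy0, smul_eq_mul, ← Complex.cpow_natCast]
  have e : (y : ℂ) ^ (s + D.δ - 3 / 2) = (y : ℂ) ^ (s - 1 / 2 - 1) * (y : ℂ) ^ (D.δ : ℂ) := by
    rw [← Complex.cpow_add _ _ hyc]; congr 1; ring
  rw [e]
  ring

lemma mellin_S {z : ℂ} (hz : 1 < z.re) :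
    HasSum (fun n : ℕ => D.d n * ((n : ℂ) ^ (-z) * mellin D.φ z)) (mellin D.S z) := by
  have hz0 : 0 < z.re := by linarith
  have hconv := D.mellinConv hz0
  set N : ℝ := ∫ t in Ioi (0:ℝ), ‖(t : ℂ) ^ (z - 1) • D.φ t‖ with hN
  have hN0 : 0 ≤ N := integral_nonneg fun _ => norm_nonneg _
  have hint : ∀ n : ℕ, Integrable (fun t : ℝ => (t : ℂ) ^ (z - 1) • (D.d n * D.φ (n * t)))
      (volume.restrict (Ioi 0)) := by
    intro n
    rcases Nat.eq_zero_or_pos n with h | h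
    · rw [h, D.hd0]; simp
    · have hn : (0:ℝ) < n := by exact_mod_cast h
      have h1 := (MellinConvergent.comp_mul_left (f := D.φ) (s := z) hn).mpr hconv
      have h2 := h1.const_smul (D.d n)
      exact h2
  have hnorm : ∀ n : ℕ, ∫ t in Ioi (0:ℝ), ‖(t : ℂ) ^ (z - 1) • (D.d n * D.φ (n * t))‖
      = ‖D.d n‖ * ((n : ℝ) ^ (-z.re) * N) := by
    intro n
    rcases Nat.eq_zero_or_pos n with h | h
    · rw [h, D.hd0]; simp
    · have hn : (0:ℝ) < n := by exact_mod_cast h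
      have h1 := integral_comp_mul_left_Ioi (fun t : ℝ => ‖(t : ℂ) ^ (z - 1) • D.φ t‖) 0 hn
      rw [mul_zero, ← hN] at h1
      have h2 : ∫ t in Ioi (0:ℝ), ‖(t : ℂ) ^ (z - 1) • (D.d n * D.φ (n * t))‖
          = ∫ t in Ioi (0:ℝ), (‖D.d n‖ * (n : ℝ) ^ (1 - z.re)) *
            ‖((n * t : ℝ) : ℂ) ^ (z - 1) • D.φ (n * t)‖ := by
        refine setIntegral_congr_fun measurableSet_Ioi fun t ht => ?_
        have ht0 : 0 < t := mem_Ioi.mp ht
        rw [norm_smul, norm_smul, norm_mul, Complex.norm_cpow_eq_rpow_re_of_pos ht0,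
          Complex.norm_cpow_eq_rpow_re_of_pos (mul_pos hn ht0), Real.mul_rpow hn.le ht0.le]
        have e : (n : ℝ) ^ (1 - z.re) * (n : ℝ) ^ (z - 1).re = 1 := by
          rw [← Real.rpow_add hn, Complex.sub_re, Complex.one_re]
          have : (1 - z.re + (z.re - 1)) = 0 := by ring
          rw [this, Real.rpow_zero]
        linear_combination (-(‖D.d n‖ * t ^ (z - 1).re * ‖D.φ (n * t)‖)) * e
      rw [h2, integral_const_mul, h1, smul_eq_mul]
      have e : (n : ℝ) ^ (1 - z.re) * (n : ℝ)⁻¹ = (n : ℝ) ^ (-z.re) := by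
        rw [← Real.rpow_neg_one, ← Real.rpow_add hn]; congr 1; ring
      linear_combination (‖D.d n‖ * N) * e
  have hsum : Summable fun n : ℕ =>
      ∫ t in Ioi (0:ℝ), ‖(t : ℂ) ^ (z - 1) • (D.d n * D.φ (n * t))‖ := by
    simp_rw [hnorm]
    have h1 : Summable fun n : ℕ => (n : ℝ) ^ (-z.re) := Real.summable_nat_rpow.mpr (by linarith)
    refine Summable.of_nonneg_of_le (fun n => by positivity) (fun n => ?_) (h1.mul_left (D.B * N))
    have h2 := D.hB n
    have h3 : 0 ≤ (n : ℝ) ^ (-z.re) * N := by positivity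
    calc ‖D.d n‖ * ((n : ℝ) ^ (-z.re) * N) ≤ D.B * ((n : ℝ) ^ (-z.re) * N) :=
          mul_le_mul_of_nonneg_right h2 h3
      _ = _ := by ring
  have key := hasSum_integral_of_summable_integral_norm hint hsum
  have e1 : ∫ t in Ioi (0:ℝ), (∑' n : ℕ, (t : ℂ) ^ (z - 1) • (D.d n * D.φ (n * t)))
      = mellin D.S z := by
    unfold mellin S
    refine setIntegral_congr_fun measurableSet_Ioi fun t ht => ?_
    exact (D.summable_term (mem_Ioi.mp ht)).tsum_const_smul _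
  rw [e1] at key
  have e2 : (fun n : ℕ => D.d n * ((n : ℂ) ^ (-z) * mellin D.φ z))
      = fun n : ℕ => ∫ t in Ioi (0:ℝ), (t : ℂ) ^ (z - 1) • (D.d n * D.φ (n * t)) := ?_
  · rw [e2]; exact key
  funext n
  rcases Nat.eq_zero_or_pos n with h | h
  · rw [h, D.hd0]; simp
  · have hn : (0:ℝ) < n := by exact_mod_cast h
    have h1 := mellin_comp_mul_left D.φ z hn
    have h2 := mellin_const_smul (fun t => D.φ (n * t)) z (D.d n)
    rw [h1] at h2
    have h3 : mellin (fun t => D.d n • D.φ (n * t)) z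
        = ∫ t in Ioi (0:ℝ), (t : ℂ) ^ (z - 1) • (D.d n * D.φ (n * t)) := rfl
    rw [← h3, h2, smul_eq_mul, smul_eq_mul]
    push_cast
    rfl

/-- the function of the FE pair -/
def ff (x : ℝ) : ℂ := ((x ^ (-(1/2) : ℝ) : ℝ) : ℂ) * D.S (x / D.q)

lemma ff_cont : ContinuousOn D.ff (Ioi 0) := by
  unfold ff
  refine ContinuousOn.mul ?_ ?_
  · refine Complex.continuous_ofReal.comp_continuousOn ?_
    intro x hx
    exact (Real.continuousAt_rpow_const x _ (Or.inl (mem_Ioi.mp hx).ne')).continuousWithinAt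
  · refine D.cont_S.comp (by fun_prop) ?_
    intro x hx
    exact div_pos (mem_Ioi.mp hx) D.hq

lemma ff_top (r : ℝ) : (fun x => D.ff x - 0) =O[atTop] (fun x : ℝ => x ^ r) := by
  obtain ⟨A, hA⟩ := D.S_decay
  have hq := D.hq
  have h1 : D.ff =O[atTop] (fun x : ℝ => Real.exp (-(1 / (2 * D.q)) * x)) := by
    refine IsBigO.of_bound |A| ?_
    filter_upwards [eventually_ge_atTop 1, eventually_ge_atTop D.q] with x hx1 hxq
    have hx0 : 0 < x := by linarith
    unfold ff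
    rw [norm_mul, Complex.norm_real, Real.norm_of_nonneg (Real.rpow_nonneg hx0.le _),
      Real.norm_of_nonneg (Real.exp_pos _).le]
    have h2 : x ^ (-(1/2) : ℝ) ≤ 1 := Real.rpow_le_one_of_one_le_of_nonpos hx1 (by norm_num)
    have h3 : 1 ≤ x / D.q := by rw [le_div_iff₀ hq]; linarith
    have h4 := hA _ h3
    calc x ^ (-(1/2) : ℝ) * ‖D.S (x / D.q)‖ ≤ 1 * ‖D.S (x / D.q)‖ :=
          mul_le_mul_of_nonneg_right h2 (norm_nonneg _)
      _ ≤ A * Real.exp (-(x / D.q / 2)) := by rw [one_mul]; exact h4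
      _ ≤ |A| * Real.exp (-(x / D.q / 2)) :=
          mul_le_mul_of_nonneg_right (le_abs_self A) (Real.exp_pos _).le
      _ = _ := by
          congr 2
          field_simp
  have h5 := h1.trans (isLittleO_exp_neg_mul_rpow_atTop
    (a := 1 / (2 * D.q)) (by positivity) r).isBigO
  simpa using h5

variable (hS : ∀ y : ℝ, 0 < y → D.S (1 / (D.q ^ 2 * y)) = -D.S y)

include hS in
lemma ff_feq (x : ℝ) (hx : x ∈ Ioi (0:ℝ)) :
    D.ff (1 / x) = ((-1 : ℂ) * ((x ^ (1:ℝ) : ℝ) : ℂ)) • D.ff x := by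
  have hx0 : 0 < x := mem_Ioi.mp hx
  have hq := D.hq
  unfold ff
  have e1 : 1 / x / D.q = 1 / (D.q ^ 2 * (x / D.q)) := by field_simp
  rw [e1, hS _ (div_pos hx0 hq)]
  have e2 : (1 / x) ^ (-(1/2) : ℝ) = x * x ^ (-(1/2) : ℝ) := by
    rw [one_div, Real.inv_rpow hx0.le, ← Real.rpow_neg hx0.le]
    nth_rewrite 2 [← Real.rpow_one x]
    rw [← Real.rpow_add hx0]
    congr 1
    norm_num
  rw [e2, Real.rpow_one, smul_eq_mul]
  push_cast
  ring

/-- the FE pair -/
def P : WeakFEPair ℂ where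
  f := D.ff
  g := D.ff
  k := 1
  ε := -1
  f₀ := 0
  g₀ := 0
  hf_int := D.ff_cont.locallyIntegrableOn measurableSet_Ioi
  hg_int := D.ff_cont.locallyIntegrableOn measurableSet_Ioi
  hk := one_pos
  hε := by norm_num
  h_feq := fun x hx => D.ff_feq hS x hx
  hf_top := fun r => D.ff_top r
  hg_top := fun r => D.ff_top r

lemma P_strong : IsStrongFEPair (D.P hS) := ⟨rfl, rfl⟩

lemma P_half : (D.P hS).Λ (1 / 2) = 0 := by
  have h := (D.P hS).functional_equation (1 / 2)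
  have e1 : ((D.P hS).k : ℂ) - 1 / 2 = 1 / 2 := by
    change ((1:ℝ) : ℂ) - 1 / 2 = 1 / 2
    push_cast; norm_num
  rw [e1] at h
  have e2 : (D.P hS).symm.Λ = (D.P hS).Λ := by
    rw [(D.P_strong hS).Λ_eq, (D.P_strong hS).symm.Λ_eq]; rfl
  rw [e2] at h
  have e3 : (D.P hS).ε = -1 := rfl
  rw [e3, smul_eq_mul] at h
  have h2 : (2 : ℂ) * (D.P hS).Λ (1 / 2) = 0 := by linear_combination h
  exact (mul_eq_zero.mp h2).resolve_left two_ne_zero

lemma P_diff : Differentiable ℂ (D.P hS).Λ := by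
  intro s
  exact (D.P hS).differentiableAt_Λ (Or.inr rfl) (Or.inr rfl)

lemma P_mellin (s : ℂ) : (D.P hS).Λ s = (D.q : ℂ) ^ (s - 1 / 2) * mellin D.S (s - 1 / 2) := by
  have hq := D.hq
  rw [(D.P_strong hS).Λ_eq]
  have h1 : mellin (D.P hS).f s
      = mellin (fun x : ℝ => (x : ℂ) ^ (-(1/2) : ℂ) • D.S (D.q⁻¹ * x)) s := by
    unfold mellin
    refine setIntegral_congr_fun measurableSet_Ioi fun x hx => ?_
    have hx0 : 0 < x := mem_Ioi.mp hx
    change _ • D.ff x = _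
    unfold ff
    rw [Complex.ofReal_cpow hx0.le, show x / D.q = D.q⁻¹ * x by rw [div_eq_inv_mul]]
    simp only [smul_eq_mul]
    push_cast
    rfl
  rw [h1, mellin_cpow_smul (fun x => D.S (D.q⁻¹ * x)), mellin_comp_mul_left D.S _ (inv_pos.mpr hq),
    smul_eq_mul]
  have e : (((D.q⁻¹ : ℝ)) : ℂ) ^ (-(s + -(1 / 2) : ℂ)) = (D.q : ℂ) ^ (s - 1 / 2) := by
    have hqc : (D.q : ℂ).arg ≠ Real.pi := by
      rw [Complex.arg_ofReal_of_nonneg hq.le]; exact Real.pi_pos.ne
    rw [Complex.ofReal_inv, Complex.inv_cpow _ _ hqc, ← Complex.cpow_neg]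
    congr 1
    ring
  rw [e]
  congr 2

/-- the L-function -/
def L (s : ℂ) : ℂ :=
  (D.P hS).Λ s * (D.q : ℂ) ^ (1 / 2 - s) * D.C⁻¹ * (2 * (Real.pi : ℂ) ^ (s + D.δ)) *
    (Complex.Gamma ((s + D.δ + D.ν) / 2))⁻¹ * (Complex.Gamma ((s + D.δ - D.ν) / 2))⁻¹

lemma L_half : D.L hS (1 / 2) = 0 := by
  unfold L
  rw [P_half]; ring

lemma L_diff : Differentiable ℂ (D.L hS) := by
  have hq : (D.q : ℂ) ≠ 0 := by exact_mod_cast D.hq.ne'
  have hpi : (Real.pi : ℂ) ≠ 0 := by exact_mod_cast Real.pi_pos.ne'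
  unfold L
  have h1 := D.P_diff hS
  have h2 : Differentiable ℂ fun s : ℂ => (D.q : ℂ) ^ (1 / 2 - s) :=
    (by fun_prop : Differentiable ℂ fun s : ℂ => 1 / 2 - s).const_cpow (Or.inl hq)
  have h3 : Differentiable ℂ fun s : ℂ => (Real.pi : ℂ) ^ (s + D.δ) :=
    (by fun_prop : Differentiable ℂ fun s : ℂ => s + (D.δ : ℂ)).const_cpow (Or.inl hpi)
  have h4 : Differentiable ℂ fun s : ℂ => (Complex.Gamma ((s + D.δ + D.ν) / 2))⁻¹ :=
    Complex.differentiable_one_div_Gamma.comp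
      (by fun_prop : Differentiable ℂ fun s : ℂ => (s + (D.δ : ℂ) + D.ν) / 2)
  have h5 : Differentiable ℂ fun s : ℂ => (Complex.Gamma ((s + D.δ - D.ν) / 2))⁻¹ :=
    Complex.differentiable_one_div_Gamma.comp
      (by fun_prop : Differentiable ℂ fun s : ℂ => (s + (D.δ : ℂ) - D.ν) / 2)
  exact ((((h1.mul h2).mul_const _).mul (h3.const_mul 2)).mul h4).mul h5

/-- Dirichlet coefficients -/
def aa (n : ℕ) : ℂ := D.d n * ((Real.sqrt n : ℝ) : ℂ)

lemma aa_bound : ∃ Cc, ∀ n : ℕ, n ≠ 0 → ‖D.aa n‖ ≤ Cc * (n : ℝ) ^ (1 / 2 : ℝ) := by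
  refine ⟨D.B, fun n _ => ?_⟩
  unfold aa
  rw [norm_mul, Complex.norm_real, Real.norm_of_nonneg (Real.sqrt_nonneg _), Real.sqrt_eq_rpow]
  exact mul_le_mul_of_nonneg_right (D.hB n) (by positivity)

lemma aa_abs : LSeries.abscissaOfAbsConv D.aa ≤ (3 / 2 : ℝ) := by
  have := LSeries.abscissaOfAbsConv_le_of_le_const_mul_rpow D.aa_bound
  have e : (((1 / 2 : ℝ) : EReal) + 1) = ((3 / 2 : ℝ) : EReal) := by
    rw [← EReal.coe_one, ← EReal.coe_add]; norm_num
  rwa [e] at this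

lemma L_eq_aux {s : ℂ} (hs : 3 / 2 < s.re) (hs2 : |D.ν.re| < s.re) : D.L hS s = LSeries D.aa s := by
  have hq : (D.q : ℂ) ≠ 0 := by exact_mod_cast D.hq.ne'
  have hpi : (Real.pi : ℂ) ≠ 0 := by exact_mod_cast Real.pi_pos.ne'
  have hz : 1 < (s - 1 / 2).re := by
    rw [Complex.sub_re]
    have : ((1 / 2 : ℂ)).re = 1 / 2 := by norm_num
    rw [this]; linarith
  have h1 := D.mellin_S hz
  rw [D.mellin_φ hs2] at h1
  have hδ0 : (0:ℝ) ≤ D.δ := Nat.cast_nonneg _
  have a1 := abs_lt.mp hs2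
  have n1 : Complex.Gamma ((s + D.δ + D.ν) / 2) ≠ 0 := by
    refine Complex.Gamma_ne_zero_of_re_pos ?_
    have : ((s + D.δ + D.ν) / 2).re = (s.re + D.δ + D.ν.re) / 2 := by
      rw [show (s + D.δ + D.ν) / 2 = ((1/2 : ℝ) : ℂ) * (s + D.δ + D.ν) by push_cast; ring,
        Complex.re_ofReal_mul]
      simp; ring
    rw [this]; linarith
  have n2 : Complex.Gamma ((s + D.δ - D.ν) / 2) ≠ 0 := by
    refine Complex.Gamma_ne_zero_of_re_pos ?_
    have : ((s + D.δ - D.ν) / 2).re = (s.re + D.δ - D.ν.re) / 2 := by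
      rw [show (s + D.δ - D.ν) / 2 = ((1/2 : ℝ) : ℂ) * (s + D.δ - D.ν) by push_cast; ring,
        Complex.re_ofReal_mul]
      simp; ring
    rw [this]; linarith
  have h2 : HasSum (fun n : ℕ => LSeries.term D.aa s n * (D.C * D.G s))
      (mellin D.S (s - 1 / 2)) := by
    have e : (fun n : ℕ => LSeries.term D.aa s n * (D.C * D.G s))
        = fun n : ℕ => D.d n * ((n : ℂ) ^ (-(s - 1 / 2)) * (D.C * D.G s)) := by
      funext n
      rcases Nat.eq_zero_or_pos n with h | h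
      · rw [h, D.hd0, LSeries.term_zero]; simp
      · have hn : (0:ℝ) < n := by exact_mod_cast h
        have hnc : (n : ℂ) ≠ 0 := by exact_mod_cast h.ne'
        rw [LSeries.term_of_ne_zero h.ne']
        unfold aa
        have e1 : ((Real.sqrt n : ℝ) : ℂ) = (n : ℂ) ^ (1 / 2 : ℂ) := by
          have := sqrt_cpow hn
          simpa using this
        have e2 : (n : ℂ) ^ (1 / 2 : ℂ) / (n : ℂ) ^ s = (n : ℂ) ^ (-(s - 1 / 2)) := by
          rw [← Complex.cpow_sub _ _ hnc]; congr 1; ring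
        rw [e1, ← e2]; ring
    rw [e]; exact h1
  have h3 : mellin D.S (s - 1 / 2) = LSeries D.aa s * (D.C * D.G s) := by
    rw [← h2.tsum_eq, tsum_mul_right]; rfl
  unfold L
  rw [P_mellin, h3]
  have e3 : (D.q : ℂ) ^ (s - 1 / 2) * (D.q : ℂ) ^ (1 / 2 - s) = 1 := by
    rw [← Complex.cpow_add _ _ hq]
    have : s - 1 / 2 + (1 / 2 - s) = 0 := by ring
    rw [this, Complex.cpow_zero]
  have e4 : (Real.pi : ℂ) ^ (-(s + D.δ)) * (Real.pi : ℂ) ^ (s + D.δ) = 1 := by
    rw [← Complex.cpow_add _ _ hpi]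
    have : -(s + (D.δ:ℂ)) + (s + D.δ) = 0 := by ring
    rw [this, Complex.cpow_zero]
  unfold G
  have hC := D.hC
  generalize (D.q : ℂ) ^ (s - 1 / 2) = A1 at e3 ⊢
  generalize (D.q : ℂ) ^ (1 / 2 - s) = A2 at e3 ⊢
  generalize (Real.pi : ℂ) ^ (-(s + D.δ)) = A3 at e4 ⊢
  generalize (Real.pi : ℂ) ^ (s + D.δ) = A4 at e4 ⊢
  generalize Complex.Gamma ((s + D.δ + D.ν) / 2) = g1 at n1 ⊢
  generalize Complex.Gamma ((s + D.δ - D.ν) / 2) = g2 at n2 ⊢
  field_simp
  linear_combination (LSeries D.aa s * A3 * A4) * e3 + LSeries D.aa s * e4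

/-- the L-function continues the Dirichlet series -/
theorem L_eq {s : ℂ} (hs : 3 / 2 < s.re) : D.L hS s = LSeries D.aa s := by
  have hsub : {s : ℂ | 3 / 2 < s.re} ⊆ {s : ℂ | LSeries.abscissaOfAbsConv D.aa < s.re} := by
    intro s hs
    refine lt_of_le_of_lt D.aa_abs ?_
    exact_mod_cast hs
  have h1 : AnalyticOnNhd ℂ (LSeries D.aa) {s : ℂ | 3 / 2 < s.re} :=
    (LSeries_analyticOnNhd D.aa).mono hsub
  have h2 : AnalyticOnNhd ℂ (D.L hS) {s : ℂ | 3 / 2 < s.re} := fun z _ =>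
    (D.L_diff hS).analyticAt z
  have hconv : IsPreconnected {s : ℂ | 3 / 2 < s.re} :=
    (convex_halfSpace_re_gt (3 / 2)).isPreconnected
  set s0 : ℂ := ((|D.ν.re| + 2 : ℝ) : ℂ) with hs0
  have hs0re : s0.re = |D.ν.re| + 2 := by rw [hs0, Complex.ofReal_re]
  have hmem : s0 ∈ {s : ℂ | 3 / 2 < s.re} := by
    change 3 / 2 < s0.re
    rw [hs0re]
    have := abs_nonneg D.ν.re
    linarith
  have hev : D.L hS =ᶠ[𝓝 s0] LSeries D.aa := by
    have ho : {s : ℂ | 3 / 2 < s.re ∧ |D.ν.re| < s.re} ∈ 𝓝 s0 := by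
      refine IsOpen.mem_nhds ?_ ?_
      · exact (isOpen_lt continuous_const Complex.continuous_re).inter
          (isOpen_lt continuous_const Complex.continuous_re)
      · refine ⟨hmem, ?_⟩
        rw [hs0re]; linarith
    filter_upwards [ho] with s hs
    exact D.L_eq_aux hS hs.1 hs.2
  exact h2.eqOn_of_preconnected_of_eventuallyEq h1 hconv hmem hev hs

lemma summable_L {s : ℂ} (hs : 3 / 2 < s.re) : LSeriesSummable D.aa s := by
  refine LSeriesSummable_of_le_const_mul_rpow (x := 3 / 2) hs ?_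
  obtain ⟨C, hC⟩ := D.aa_bound
  refine ⟨C, fun n hn => ?_⟩
  have := hC n hn
  norm_num
  norm_num at this
  exact this

end BD

end

end Pool.Agent.V1143.Maass
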