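import Pool.Agent.V1143.Maass.Mult
import Pool.Agent.V1143.Maass.Ldir

/-! Twisted sums over rational points. -/

namespace Pool.Agent.V1143.Maass

open MeasureTheory Filter Topology Set

noncomputable section

/-- values at rational points depend only on the residue class -/
lemma rat_shift {g : ℂ → ℂ} (hper : ∀ z ∈ HH, g (z + 1) = g z) {q : ℕ} [NeZero q] (k : ℤ) {y : ℝ}
    (hy : 0 < y) : g (pt ((k : ℤ) / q) y) = g (pt (((k : ZMod q).val : ℝ) / q) y) := by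
  have hq : (q : ℝ) ≠ 0 := by exact_mod_cast NeZero.ne q
  have hn : ∀ (n : ℕ) (x : ℝ), g (pt (x + n) y) = g (pt x y) := by
    intro n
    induction n with
    | zero => intro x; simp
    | succ n ih =>
      intro x
      push_cast
      rw [← add_assoc, pt_add_one, hper _ (pt_mem hy), ih]
  have hz : ∀ (n : ℤ) (x : ℝ), g (pt (x + n) y) = g (pt x y) := by
    intro n x
    obtain ⟨j, hj | hj⟩ := Int.eq_nat_or_neg n
    · rw [hj]; push_cast; exact hn _ x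
    · have := hn j (x + n)
      rw [← this]
      congr 2
      rw [hj]; push_cast; ring
  have h1 : (((k : ZMod q).val : ℤ)) = k % q := ZMod.val_intCast k
  have h2 : (k : ℝ) = (((k : ZMod q).val : ℤ) : ℝ) + q * ((k / q : ℤ) : ℝ) := by
    rw [h1]
    exact_mod_cast (Int.emod_add_mul_ediv k q).symm
  have h3 : (k : ℝ) / q = (((k : ZMod q).val : ℝ) / q) + ((k / q : ℤ) : ℝ) := by
    rw [h2]; push_cast; field_simp
  rw [h3, hz]

variable {q : ℕ} [NeZero q]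

/-- twisted sum -/
def TW (χ : DirichletCharacter ℂ q) (g : ℂ → ℂ) (y : ℝ) : ℂ :=
  ∑ a : ZMod q, χ a * g (pt ((a.val : ℝ) / q) y)

lemma std_ex (n : ℤ) (a : ZMod q) :
    ZMod.stdAddChar ((n : ZMod q) * a) = ex (n * ((a.val : ℝ) / q)) := by
  have e : (n : ZMod q) * a = ((n * a.val : ℤ) : ZMod q) := by
    push_cast
    rw [ZMod.natCast_val, ZMod.cast_id]
  rw [e, ZMod.stdAddChar_coe]
  unfold ex
  congr 1
  push_cast
  ring

lemma gauss_ex {χ : DirichletCharacter ℂ q} (hχ : χ.IsPrimitive) (n : ℤ) :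
    ∑ a : ZMod q, χ a * ex (n * ((a.val : ℝ) / q))
      = χ⁻¹ (n : ZMod q) * gaussSum χ ZMod.stdAddChar := by
  have h := gaussSum_mulShift_of_isPrimitive (e := ZMod.stdAddChar) hχ (n : ZMod q)
  rw [← h]
  unfold gaussSum
  refine Finset.sum_congr rfl fun a _ => ?_
  rw [AddChar.mulShift_apply, std_ex]

lemma gauss_ne_zero {χ : DirichletCharacter ℂ q} (hχ : χ.IsPrimitive) :
    gaussSum χ ZMod.stdAddChar ≠ 0 := by
  intro h0
  have h1 : ZMod.dft (χ : ZMod q → ℂ) = 0 := by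
    funext k
    have := hχ.fourierTransform_eq_inv_mul_gaussSum k
    rw [h0, mul_zero] at this
    exact this
  have h2 : (χ : ZMod q → ℂ) = 0 := by
    rw [← ZMod.dft.map_zero] at h1
    exact ZMod.dft.injective h1
  have h3 := congrFun h2 1
  rw [map_one] at h3
  exact one_ne_zero h3

/-- series expansion of a twisted sum -/
lemma TW_series {χ : DirichletCharacter ℂ q} (hχ : χ.IsPrimitive) {g : ℂ → ℂ}
    (hc : ContinuousOn g HH) (hper : ∀ z ∈ HH, g (z + 1) = g z) {y : ℝ} (hy : 0 < y)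
    (hs : Summable fun n : ℤ => cg g n y) :
    HasSum (fun n : ℤ => gaussSum χ ZMod.stdAddChar * (χ⁻¹ (n : ZMod q) * cg g n y)) (TW χ g y) := by
  have h1 : ∀ a : ZMod q, HasSum (fun n : ℤ => χ a * (cg g n y * ex (n * ((a.val : ℝ) / q))))
      (χ a * g (pt ((a.val : ℝ) / q) y)) := by
    intro a
    refine HasSum.mul_left _ ?_
    exact hasSum_fourier (h := fun x => g (pt x y)) (cont_line hc hy)
      (fun x => by rw [pt_add_one]; exact hper _ (pt_mem hy)) hs _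
  have h2 := hasSum_sum (s := Finset.univ) fun (a : ZMod q) _ => h1 a
  have e : (fun n : ℤ => gaussSum χ ZMod.stdAddChar * (χ⁻¹ (n : ZMod q) * cg g n y))
      = fun n : ℤ => ∑ a : ZMod q, χ a * (cg g n y * ex (n * ((a.val : ℝ) / q))) := by
    funext n
    have h3 := gauss_ex hχ n
    calc gaussSum χ ZMod.stdAddChar * (χ⁻¹ (n : ZMod q) * cg g n y)
        = cg g n y * (χ⁻¹ (n : ZMod q) * gaussSum χ ZMod.stdAddChar) := by ring
      _ = cg g n y * ∑ a : ZMod q, χ a * ex (n * ((a.val : ℝ) / q)) := by rw [h3]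
      _ = _ := by
          rw [Finset.mul_sum]
          refine Finset.sum_congr rfl fun a _ => ?_
          ring
  rw [e]
  exact h2

/-- sums over units -/
lemma sum_units (χ : DirichletCharacter ℂ q) (F : ZMod q → ℂ) :
    ∑ a : ZMod q, χ a * F a = ∑ u : (ZMod q)ˣ, χ (u : ZMod q) * F u := by
  refine (Fintype.sum_of_injective (fun u : (ZMod q)ˣ => (u : ZMod q)) Units.val_injective
    _ _ ?_ (fun _ => rfl)).symm
  intro a ha
  have : ¬ IsUnit a := by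
    rintro ⟨u, rfl⟩
    exact ha ⟨u, rfl⟩
  rw [χ.map_nonunit this, zero_mul]

/-- the involution u ↦ -u⁻¹ -/
lemma sum_invol {χ : DirichletCharacter ℂ q} (hq : χ⁻¹ = χ) (F G : ZMod q → ℂ) (c : ℂ)
    (h : ∀ u : (ZMod q)ˣ, F (u : ZMod q) = c * G ((-u⁻¹ : (ZMod q)ˣ) : ZMod q)) :
    ∑ a : ZMod q, χ a * F a = c * χ (-1) * ∑ a : ZMod q, χ a * G a := by
  rw [sum_units, sum_units, Finset.mul_sum]
  let e : (ZMod q)ˣ ≃ (ZMod q)ˣ := ⟨fun u => -u⁻¹, fun u => -u⁻¹, fun u => by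
    ext; simp, fun u => by ext; simp⟩
  refine Fintype.sum_equiv e _ _ ?_
  intro u
  rw [h u]
  have e1 : ((e u : (ZMod q)ˣ) : ZMod q) = ((-u⁻¹ : (ZMod q)ˣ) : ZMod q) := rfl
  have e2 : χ ((-u⁻¹ : (ZMod q)ˣ) : ZMod q) = χ (-1) * χ (u : ZMod q) := by
    have h1 : ((-u⁻¹ : (ZMod q)ˣ) : ZMod q) = (-1) * ((u⁻¹ : (ZMod q)ˣ) : ZMod q) := by
      push_cast; ring
    rw [h1, map_mul]
    congr 1
    have h2 : χ⁻¹ (u : ZMod q) = χ ((u⁻¹ : (ZMod q)ˣ) : ZMod q) := by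
      rw [MulChar.inv_apply, Ring.inverse_unit]
    rw [← h2, hq]
  have e3 : χ (-1) * χ (-1) = 1 := by
    rw [← map_mul]; simp
  rw [e1, e2]
  calc χ (u : ZMod q) * (c * G ((-u⁻¹ : (ZMod q)ˣ) : ZMod q))
      = (χ (-1) * χ (-1)) * (χ (u : ZMod q) * (c * G ((-u⁻¹ : (ZMod q)ˣ) : ZMod q))) := by
        rw [e3, one_mul]
    _ = _ := by ring

/-- a matrix for a unit -/
lemma exists_matrix (u : (ZMod q)ˣ) : ∃ α β : ℤ, α * (-((u : ZMod q).val : ℤ)) - β * q = 1 ∧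
    ((α : ℤ) : ZMod q) = ((-u⁻¹ : (ZMod q)ˣ) : ZMod q) := by
  set A : ℤ := ((u : ZMod q).val : ℤ) with hA
  set α : ℤ := (((-u⁻¹ : (ZMod q)ˣ) : ZMod q).val : ℤ) with hα
  have hAc : ((A : ℤ) : ZMod q) = (u : ZMod q) := by
    rw [hA]; push_cast; rw [ZMod.natCast_val, ZMod.cast_id]
  have hαc : ((α : ℤ) : ZMod q) = ((-u⁻¹ : (ZMod q)ˣ) : ZMod q) := by
    rw [hα]; push_cast; rw [ZMod.natCast_val, ZMod.cast_id]
  have h1 : ((α * (-A) - 1 : ℤ) : ZMod q) = 0 := by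
    push_cast
    rw [hAc, hαc, Units.val_neg]
    have : ((u⁻¹ : (ZMod q)ˣ) : ZMod q) * (u : ZMod q) = 1 := by
      rw [← Units.val_mul, inv_mul_cancel, Units.val_one]
    linear_combination this
  rw [ZMod.intCast_zmod_eq_zero_iff_dvd] at h1
  obtain ⟨β, hβ⟩ := h1
  exact ⟨α, β, by linarith, hαc⟩

/-- geometry of the transformation -/
lemma geom {A α β : ℤ} (h : α * (-A) - β * q = 1) {y : ℝ} (hy : 0 < y) (t : ℝ) :
    ((q : ℤ) : ℂ) * (pt ((A : ℝ) / q) y + t) + ((-A : ℤ) : ℂ) = q * (t + y * Complex.I) ∧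
    ((α : ℂ) * (pt ((A : ℝ) / q) y + t) + β) / (((q : ℤ) : ℂ) * (pt ((A : ℝ) / q) y + t) +
      ((-A : ℤ) : ℂ)) = ((α : ℝ) / q : ℝ) - 1 / ((q:ℂ) ^ 2 * (t + y * Complex.I)) := by
  have hq : (q : ℂ) ≠ 0 := by exact_mod_cast NeZero.ne q
  have hI : Complex.I ≠ 0 := Complex.I_ne_zero
  have hne : (t : ℂ) + y * Complex.I ≠ 0 := by
    intro h0
    have := congrArg Complex.im h0
    simp at this
    exact hy.ne' this
  have e1 : ((q : ℤ) : ℂ) * (pt ((A : ℝ) / q) y + t) + ((-A : ℤ) : ℂ) = q * (t + y * Complex.I) := by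
    unfold pt
    push_cast
    field_simp
    ring
  refine ⟨e1, ?_⟩
  rw [e1]
  unfold pt
  have hc : (α : ℂ) * (-A) - β * q = 1 := by exact_mod_cast h
  push_cast
  field_simp
  linear_combination (-1 : ℂ) * hc

namespace MF

variable (m : MF)

/-- the transformation at a rational point, with a real shift -/
lemma f_transform {A α β : ℤ} (h : α * (-A) - β * q = 1) {y : ℝ} (hy : 0 < y) (t : ℝ) :
    m.f (pt ((A : ℝ) / q) y + t)
      = m.f (((α : ℝ) / q : ℝ) - 1 / ((q:ℂ) ^ 2 * (t + y * Complex.I))) := by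
  have hz : pt ((A : ℝ) / q) y + t ∈ HH := by
    change 0 < (pt ((A : ℝ) / q) y + t).im
    rw [Complex.add_im, pt_im, Complex.ofReal_im, add_zero]
    exact hy
  have h1 := m.slc α β q (-A) (by linarith) _ hz
  rw [(geom h hy t).2] at h1
  exact h1.symm

lemma w_zero {α : ℤ} {y : ℝ} (hy : 0 < y) :
    (((α : ℝ) / q : ℝ) : ℂ) - 1 / ((q:ℂ) ^ 2 * (((0:ℝ) : ℂ) + y * Complex.I))
      = pt ((α : ℝ) / q) (1 / (q ^ 2 * y)) := by
  have hq : (q : ℂ) ≠ 0 := by exact_mod_cast NeZero.ne q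
  have hyc : (y : ℂ) ≠ 0 := by exact_mod_cast hy.ne'
  have hI : Complex.I ≠ 0 := Complex.I_ne_zero
  have hII : Complex.I * Complex.I = -1 := Complex.I_mul_I
  unfold pt
  push_cast
  rw [zero_add]
  field_simp
  linear_combination (-1 : ℂ) * hII

lemma val_transform (u : (ZMod q)ˣ) {y : ℝ} (hy : 0 < y) :
    m.f (pt (((u : ZMod q).val : ℝ) / q) y)
      = m.f (pt ((((-u⁻¹ : (ZMod q)ˣ) : ZMod q).val : ℝ) / q) (1 / (q ^ 2 * y))) := by
  obtain ⟨α, β, h, hα⟩ := exists_matrix u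
  have hY : 0 < 1 / ((q:ℝ) ^ 2 * y) := by
    have : (0:ℝ) < q := by exact_mod_cast Nat.pos_of_ne_zero (NeZero.ne q)
    positivity
  have h1 := m.f_transform h hy 0
  rw [w_zero hy, rat_shift m.per α hY, hα] at h1
  rw [← h1]
  congr 1
  simp

lemma der_transform (u : (ZMod q)ˣ) {y : ℝ} (hy : 0 < y) :
    (y : ℂ) * Dd m.f 1 (pt (((u : ZMod q).val : ℝ) / q) y)
      = -1 * (((1 / (q ^ 2 * y) : ℝ) : ℂ) *
        Dd m.f 1 (pt ((((-u⁻¹ : (ZMod q)ˣ) : ZMod q).val : ℝ) / q) (1 / (q ^ 2 * y)))) := by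
  obtain ⟨α, β, h, hα⟩ := exists_matrix u
  have hq : (q : ℂ) ≠ 0 := by exact_mod_cast NeZero.ne q
  have hq0 : (0:ℝ) < q := by exact_mod_cast Nat.pos_of_ne_zero (NeZero.ne q)
  have hyc : (y : ℂ) ≠ 0 := by exact_mod_cast hy.ne'
  have hI : Complex.I ≠ 0 := Complex.I_ne_zero
  have hII : Complex.I ^ 2 = -1 := Complex.I_sq
  have hY : 0 < 1 / ((q:ℝ) ^ 2 * y) := by positivity
  set A : ℤ := ((u : ZMod q).val : ℤ) with hA
  have hAr : ((A : ℤ) : ℝ) = ((u : ZMod q).val : ℝ) := by rw [hA]; push_cast; rfl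
  have hsm := m.smooth
  have d1 : HasDerivAt (fun t : ℝ => m.f (pt ((A : ℝ) / q) y + t)) (Dd m.f 1 (pt ((A : ℝ) / q) y)) 0 := by
    have := hsm.hasDerivAt (pt ((A : ℝ) / q) y) 1 0 (by simpa using pt_mem hy)
    simpa using this
  have dw : HasDerivAt (fun t : ℝ => (((α : ℝ) / q : ℝ) : ℂ) - 1 / ((q:ℂ) ^ 2 * (t + y * Complex.I)))
      ((((-(1 / (q ^ 2 * y ^ 2)) : ℝ)) : ℂ)) 0 := by
    have e1 : HasDerivAt (fun t : ℝ => (q:ℂ) ^ 2 * (t + y * Complex.I)) ((q:ℂ) ^ 2 * (1 : ℝ)) 0 :=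
      ((((hasDerivAt_id (0:ℝ)).ofReal_comp)).add_const _).const_mul _
    have hne : (q:ℂ) ^ 2 * (((0:ℝ) : ℂ) + y * Complex.I) ≠ 0 := by
      rw [Complex.ofReal_zero, zero_add]
      exact mul_ne_zero (pow_ne_zero 2 hq) (mul_ne_zero hyc hI)
    have e2 := (e1.inv hne).const_sub (((α : ℝ) / q : ℝ) : ℂ)
    have e3 : (fun t : ℝ => (((α : ℝ) / q : ℝ) : ℂ) - 1 / ((q:ℂ) ^ 2 * (t + y * Complex.I)))
        = fun t : ℝ => (((α : ℝ) / q : ℝ) : ℂ) - (fun t : ℝ => (q:ℂ) ^ 2 * (t + y * Complex.I))⁻¹ t := by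
      funext t
      simp only [Pi.inv_apply, one_div]
    rw [e3]
    refine e2.congr_deriv ?_
    push_cast
    rw [zero_add]
    field_simp
    rw [hII]
    ring
  have hmem : (((α : ℝ) / q : ℝ) : ℂ) - 1 / ((q:ℂ) ^ 2 * (((0:ℝ) : ℂ) + y * Complex.I)) ∈ HH := by
    rw [w_zero hy]; exact pt_mem hY
  have d2 : HasDerivAt (fun t : ℝ => m.f ((((α : ℝ) / q : ℝ) : ℂ) - 1 / ((q:ℂ) ^ 2 * (t + y * Complex.I))))
      (fderiv ℝ m.f ((((α : ℝ) / q : ℝ) : ℂ) - 1 / ((q:ℂ) ^ 2 * (((0:ℝ) : ℂ) + y * Complex.I)))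
        (((-(1 / (q ^ 2 * y ^ 2)) : ℝ)) : ℂ)) 0 :=
    ((hsm.diffAt hmem).hasFDerivAt).comp_hasDerivAt 0 dw
  have d3 : (fun t : ℝ => m.f ((((α : ℝ) / q : ℝ) : ℂ) - 1 / ((q:ℂ) ^ 2 * (t + y * Complex.I))))
      = fun t : ℝ => m.f (pt ((A : ℝ) / q) y + t) := by
    funext t
    exact (m.f_transform h hy t).symm
  rw [d3] at d2
  have d4 := d1.unique d2
  rw [w_zero hy] at d4
  have d5 : (((-(1 / (q ^ 2 * y ^ 2)) : ℝ)) : ℂ) = (-(1 / (q ^ 2 * y ^ 2)) : ℝ) • (1 : ℂ) := by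
    rw [Complex.real_smul, mul_one]
  rw [d5, map_smul] at d4
  have d6 : fderiv ℝ m.f (pt ((α : ℝ) / q) (1 / (q ^ 2 * y))) 1
      = Dd m.f 1 (pt ((α : ℝ) / q) (1 / (q ^ 2 * y))) := rfl
  rw [d6, rat_shift (dd_per m.per 1) α hY, hα] at d4
  rw [← hAr, d4, Complex.real_smul]
  push_cast
  field_simp

lemma TW_val {χ : DirichletCharacter ℂ q} (hχ : χ⁻¹ = χ) {y : ℝ} (hy : 0 < y) :
    TW χ m.f y = χ (-1) * TW χ m.f (1 / (q ^ 2 * y)) := by
  unfold TW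
  have := sum_invol hχ (fun a => m.f (pt ((a.val : ℝ) / q) y))
    (fun a => m.f (pt ((a.val : ℝ) / q) (1 / (q ^ 2 * y)))) 1 (fun u => by
      rw [one_mul]; exact m.val_transform u hy)
  rw [this, one_mul]

lemma TW_der {χ : DirichletCharacter ℂ q} (hχ : χ⁻¹ = χ) {y : ℝ} (hy : 0 < y) :
    (y : ℂ) * TW χ (Dd m.f 1) y
      = -χ (-1) * (((1 / (q ^ 2 * y) : ℝ) : ℂ) * TW χ (Dd m.f 1) (1 / (q ^ 2 * y))) := by
  unfold TW
  have := sum_invol hχ (fun a => (y : ℂ) * Dd m.f 1 (pt ((a.val : ℝ) / q) y))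
    (fun a => ((1 / (q ^ 2 * y) : ℝ) : ℂ) * Dd m.f 1 (pt ((a.val : ℝ) / q) (1 / (q ^ 2 * y)))) (-1)
    (fun u => m.der_transform u hy)
  rw [Finset.mul_sum, Finset.mul_sum]
  calc ∑ a : ZMod q, (y : ℂ) * (χ a * Dd m.f 1 (pt ((a.val : ℝ) / q) y))
      = ∑ a : ZMod q, χ a * ((y : ℂ) * Dd m.f 1 (pt ((a.val : ℝ) / q) y)) :=
        Finset.sum_congr rfl fun a _ => by ring
    _ = _ := by
        rw [this]
        rw [neg_one_mul]
        congr 1
        refine Finset.sum_congr rfl fun a _ => by ring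

end MF

end

end Pool.Agent.V1143.Maass
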