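import Mathlib

/-! The K-Bessel function. -/

namespace Pool.Agent.V1143.Maass

open MeasureTheory Filter Topology Set

noncomputable section

/-- integrand -/
def kerB (ν : ℂ) (k : ℕ) (y r : ℝ) : ℂ :=
  ((Real.cosh r : ℝ) : ℂ) ^ k * Complex.exp (((-(2 * Real.pi * y * Real.cosh r) : ℝ) : ℂ) + ν * r)

/-- the integrals -/
def IB (ν : ℂ) (k : ℕ) (y : ℝ) : ℂ := ∫ r : ℝ, kerB ν k y r

lemma cosh_ge (r : ℝ) : 1 + r ^ 2 / 4 ≤ Real.cosh r := by
  have h : ∀ x : ℝ, 0 ≤ x → 1 + x ^ 2 / 4 ≤ Real.cosh x := by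
    intro x hx
    rw [Real.cosh_eq]
    have h1 := Real.quadratic_le_exp_of_nonneg hx
    have h2 := Real.add_one_le_exp (-x)
    linarith
  have := h |r| (abs_nonneg r)
  rwa [sq_abs, Real.cosh_abs] at this

lemma cosh_le (r : ℝ) : Real.cosh r ≤ Real.exp |r| := by
  rw [Real.cosh_eq]
  have h1 := Real.exp_le_exp.mpr (le_abs_self r)
  have h2 := Real.exp_le_exp.mpr (neg_abs_le r |> fun h => (by
    have := neg_le_abs r; exact this : -r ≤ |r|))
  linarith

lemma norm_kerB (ν : ℂ) (k : ℕ) (y r : ℝ) :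
    ‖kerB ν k y r‖ = Real.cosh r ^ k * Real.exp (-(2 * Real.pi * y * Real.cosh r) + ν.re * r) := by
  unfold kerB
  rw [norm_mul, norm_pow, Complex.norm_real, Real.norm_of_nonneg (Real.cosh_pos r).le,
    Complex.norm_exp]
  congr 2
  simp

/-- gaussian type bound -/
lemma norm_kerB_le (ν : ℂ) (k : ℕ) {y1 y : ℝ} (hy1 : 0 < y1) (hy : y1 ≤ y) (r : ℝ) :
    ‖kerB ν k y r‖ ≤ Real.exp (-(2 * Real.pi * (y - y1))) *
      (Real.exp (-(2 * Real.pi * y1) + 2 * (k + |ν.re|) ^ 2 / (2 * Real.pi * y1)) *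
      Real.exp (-(2 * Real.pi * y1 / 8) * r ^ 2)) := by
  rw [norm_kerB]
  have hpi := Real.pi_pos
  have hc := cosh_ge r
  have hc1 : Real.cosh r ^ k ≤ Real.exp (k * |r|) := by
    rw [Real.exp_nat_mul]
    exact pow_le_pow_left₀ (Real.cosh_pos r).le (cosh_le r) k
  calc Real.cosh r ^ k * Real.exp (-(2 * Real.pi * y * Real.cosh r) + ν.re * r)
      ≤ Real.exp (k * |r|) * Real.exp (-(2 * Real.pi * y * Real.cosh r) + ν.re * r) :=
        mul_le_mul_of_nonneg_right hc1 (Real.exp_pos _).le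
    _ = Real.exp (k * |r| + (-(2 * Real.pi * y * Real.cosh r) + ν.re * r)) :=
        (Real.exp_add _ _).symm
    _ ≤ Real.exp (-(2 * Real.pi * (y - y1)) +
        ((-(2 * Real.pi * y1) + 2 * (k + |ν.re|) ^ 2 / (2 * Real.pi * y1)) +
        (-(2 * Real.pi * y1 / 8) * r ^ 2))) := by
        refine Real.exp_le_exp.mpr ?_
        have h1 : ν.re * r ≤ |ν.re| * |r| := by rw [← abs_mul]; exact le_abs_self _
        have h2 : 2 * Real.pi * (y - y1) * 1 ≤ 2 * Real.pi * (y - y1) * Real.cosh r := by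
          refine mul_le_mul_of_nonneg_left (Real.one_le_cosh r) ?_
          have : 0 ≤ y - y1 := by linarith
          positivity
        have h3 : 2 * Real.pi * y1 * (1 + r ^ 2 / 4) ≤ 2 * Real.pi * y1 * Real.cosh r :=
          mul_le_mul_of_nonneg_left hc (by positivity)
        set a := 2 * Real.pi * y1 with ha
        have ha0 : 0 < a := by positivity
        set b := (k : ℝ) + |ν.re| with hb
        have h4 : b * |r| ≤ a * r ^ 2 / 8 + 2 * b ^ 2 / a := by
          have h5 : 0 ≤ (a * |r| / 4 - b) ^ 2 * 2 / a := by positivity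
          have h6 : (a * |r| / 4 - b) ^ 2 * 2 / a = a * |r| ^ 2 / 8 - b * |r| + 2 * b ^ 2 / a := by
            field_simp
            ring
          rw [h6, sq_abs] at h5
          linarith
        have h7 : 2 * Real.pi * y * Real.cosh r
            = 2 * Real.pi * (y - y1) * Real.cosh r + a * Real.cosh r := by rw [ha]; ring
        have h8 : (k : ℝ) * |r| + |ν.re| * |r| = b * |r| := by rw [hb]; ring
        have h9 : a * (1 + r ^ 2 / 4) = a + a * r ^ 2 / 4 := by ring
        have h10 : -(a / 8) * r ^ 2 = -(a * r ^ 2 / 8) := by ring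
        rw [h7, h10]
        rw [h9] at h3
        linarith
    _ = _ := by rw [Real.exp_add, Real.exp_add]

lemma continuous_kerB (ν : ℂ) (k : ℕ) (y : ℝ) : Continuous (kerB ν k y) := by
  unfold kerB
  fun_prop

lemma integrable_kerB (ν : ℂ) (k : ℕ) {y : ℝ} (hy : 0 < y) : Integrable (kerB ν k y) := by
  refine Integrable.mono' (g := fun r => Real.exp (-(2 * Real.pi * (y - y))) *
      (Real.exp (-(2 * Real.pi * y) + 2 * (k + |ν.re|) ^ 2 / (2 * Real.pi * y)) *
      Real.exp (-(2 * Real.pi * y / 8) * r ^ 2))) ?_ (continuous_kerB ν k y).aestronglyMeasurable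
    (Filter.Eventually.of_forall fun r => norm_kerB_le ν k hy le_rfl r)
  exact ((integrable_exp_neg_mul_sq (by have := Real.pi_pos; positivity)).const_mul _).const_mul _

lemma hasDerivAt_IB (ν : ℂ) (k : ℕ) {y : ℝ} (hy : 0 < y) :
    HasDerivAt (IB ν k) (-(2 * Real.pi) * IB ν (k + 1) y) y := by
  have hpi := Real.pi_pos
  have key := hasDerivAt_integral_of_dominated_loc_of_deriv_le (μ := (volume : Measure ℝ))
    (F := fun y r => kerB ν k y r)
    (F' := fun y r => (-(2 * Real.pi) : ℂ) * kerB ν (k + 1) y r) (x₀ := y) (s := Ioi (y / 2))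
    (bound := fun r => 2 * Real.pi * (Real.exp (-(2 * Real.pi * (y / 2)) +
      2 * ((k + 1 : ℕ) + |ν.re|) ^ 2 / (2 * Real.pi * (y / 2))) *
      Real.exp (-(2 * Real.pi * (y / 2) / 8) * r ^ 2)))
    (Ioi_mem_nhds (by linarith)) ?_ (integrable_kerB ν k hy) ?_ ?_ ?_ ?_
  · have h := key.2
    rw [integral_const_mul] at h
    exact h
  · exact Filter.Eventually.of_forall fun y => (continuous_kerB ν k y).aestronglyMeasurable
  · exact ((continuous_kerB ν (k + 1) y).const_mul _).aestronglyMeasurable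
  · refine Filter.Eventually.of_forall fun r x hx => ?_
    rw [norm_mul]
    have e : ‖(-(2 * Real.pi) : ℂ)‖ = 2 * Real.pi := by
      rw [norm_neg]
      have : ((2 : ℂ) * Real.pi) = ((2 * Real.pi : ℝ) : ℂ) := by push_cast; rfl
      rw [this, Complex.norm_real, Real.norm_of_nonneg (by positivity)]
    rw [e]
    refine mul_le_mul_of_nonneg_left ?_ (by positivity)
    have hx' : y / 2 ≤ x := (mem_Ioi.mp hx).le
    refine (norm_kerB_le ν (k + 1) (by positivity) hx' r).trans ?_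
    refine mul_le_of_le_one_left (by positivity) ?_
    rw [Real.exp_le_one_iff]
    have : 0 ≤ x - y / 2 := by linarith
    have : 0 ≤ 2 * Real.pi * (x - y / 2) := by positivity
    linarith
  · refine (Integrable.const_mul ?_ _)
    exact (integrable_exp_neg_mul_sq (by positivity)).const_mul _
  · refine Filter.Eventually.of_forall fun r x hx => ?_
    have h1 : HasDerivAt (fun x : ℝ => -(2 * Real.pi * x * Real.cosh r))
        (-(2 * Real.pi * 1 * Real.cosh r)) x :=
      ((((hasDerivAt_id x).const_mul (2 * Real.pi))).mul_const (Real.cosh r)).neg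
    have h2 := ((h1.ofReal_comp.add_const (ν * r)).cexp).const_mul (((Real.cosh r : ℝ) : ℂ) ^ k)
    refine h2.congr_deriv ?_
    unfold kerB
    push_cast
    ring

lemma bessel_identity (ν : ℂ) {y : ℝ} (hy : 0 < y) :
    4 * Real.pi ^ 2 * y ^ 2 * (IB ν 2 y - IB ν 0 y) - 2 * Real.pi * y * IB ν 1 y
      - ν ^ 2 * IB ν 0 y = 0 := by
  have hi : ∀ k, Integrable (kerB ν k y) := fun k => integrable_kerB ν k hy
  let f : ℝ → ℂ := fun r => (((-(2 * Real.pi * y * Real.sinh r) : ℝ) : ℂ) - ν) *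
    Complex.exp (((-(2 * Real.pi * y * Real.cosh r) : ℝ) : ℂ) + ν * r)
  let f' : ℝ → ℂ := fun r => 4 * Real.pi ^ 2 * y ^ 2 * (kerB ν 2 y r - kerB ν 0 y r)
    - 2 * Real.pi * y * kerB ν 1 y r - ν ^ 2 * kerB ν 0 y r
  have hd : ∀ r, HasDerivAt f (f' r) r := by
    intro r
    have h1 : HasDerivAt (fun r : ℝ => -(2 * Real.pi * y * Real.sinh r))
        (-(2 * Real.pi * y * Real.cosh r)) r := ((Real.hasDerivAt_sinh r).const_mul _).neg
    have h2 : HasDerivAt (fun r : ℝ => -(2 * Real.pi * y * Real.cosh r))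
        (-(2 * Real.pi * y * Real.sinh r)) r := ((Real.hasDerivAt_cosh r).const_mul _).neg
    have h3 : HasDerivAt (fun r : ℝ => ν * (r : ℂ)) (ν * (1 : ℂ)) r := by
      have := (hasDerivAt_id r).ofReal_comp.const_mul ν
      simpa using this
    have h4 := (h1.ofReal_comp.sub_const ν).mul ((h2.ofReal_comp.add h3).cexp)
    refine h4.congr_deriv ?_
    simp only [f']
    unfold kerB
    have hs : (Real.sinh r : ℂ) ^ 2 = (Real.cosh r : ℂ) ^ 2 - 1 := by
      have := Real.cosh_sq r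
      have h : Real.sinh r ^ 2 = Real.cosh r ^ 2 - 1 := by linarith
      exact_mod_cast h
    push_cast at hs ⊢
    simp only [Pi.add_apply]
    linear_combination (4 * (Real.pi : ℂ) ^ 2 * (y : ℂ) ^ 2 *
      Complex.exp (-(2 * (Real.pi : ℂ) * y * Complex.cosh r) + ν * r)) * hs
  have hf' : Integrable f' := by
    refine Integrable.sub (Integrable.sub ?_ ?_) ?_
    · exact ((hi 2).sub (hi 0)).const_mul _
    · exact (hi 1).const_mul _
    · exact (hi 0).const_mul _
  have hf : Integrable f := by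
    have hb : Integrable (fun r => (2 * Real.pi * y) * ‖kerB ν 1 y r‖ + ‖ν‖ * ‖kerB ν 0 y r‖) :=
      ((hi 1).norm.const_mul _).add ((hi 0).norm.const_mul _)
    refine Integrable.mono' hb ?_ (Filter.Eventually.of_forall fun r => ?_)
    · exact (by fun_prop : Continuous f).aestronglyMeasurable
    · have hpi := Real.pi_pos
      simp only [f]
      rw [norm_mul]
      have e0 : ‖Complex.exp (((-(2 * Real.pi * y * Real.cosh r) : ℝ) : ℂ) + ν * r)‖
          = ‖kerB ν 0 y r‖ := by unfold kerB; rw [pow_zero, one_mul]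
      have e1 : ‖kerB ν 1 y r‖ = Real.cosh r * ‖kerB ν 0 y r‖ := by
        rw [norm_kerB, norm_kerB]; ring
      rw [e0, e1]
      have h5 : ‖((-(2 * Real.pi * y * Real.sinh r) : ℝ) : ℂ) - ν‖
          ≤ 2 * Real.pi * y * Real.cosh r + ‖ν‖ := by
        refine (norm_sub_le _ _).trans (add_le_add ?_ le_rfl)
        rw [Complex.norm_real, Real.norm_eq_abs, abs_neg, abs_mul,
          abs_of_pos (by positivity : 0 < 2 * Real.pi * y)]
        refine mul_le_mul_of_nonneg_left ?_ (by positivity)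
        rw [Real.abs_sinh]
        have := (Real.sinh_lt_cosh |r|).le
        rwa [Real.cosh_abs] at this
      calc _ ≤ (2 * Real.pi * y * Real.cosh r + ‖ν‖) * ‖kerB ν 0 y r‖ :=
            mul_le_mul_of_nonneg_right h5 (norm_nonneg _)
        _ = _ := by ring
  have h0 := integral_eq_zero_of_hasDerivAt_of_integrable hd hf' hf
  have e : ∫ r, f' r = 4 * Real.pi ^ 2 * y ^ 2 * (IB ν 2 y - IB ν 0 y)
      - 2 * Real.pi * y * IB ν 1 y - ν ^ 2 * IB ν 0 y := by
    have gen : ∀ a b c : ℂ, ∫ r, (a * (kerB ν 2 y r - kerB ν 0 y r) - b * kerB ν 1 y r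
        - c * kerB ν 0 y r) = a * (IB ν 2 y - IB ν 0 y) - b * IB ν 1 y - c * IB ν 0 y := by
      intro a b c
      unfold IB
      rw [integral_sub (f := fun r => a * (kerB ν 2 y r - kerB ν 0 y r) - b * kerB ν 1 y r)
          (g := fun r => c * kerB ν 0 y r),
        integral_sub (f := fun r => a * (kerB ν 2 y r - kerB ν 0 y r))
          (g := fun r => b * kerB ν 1 y r),
        integral_const_mul, integral_const_mul, integral_const_mul, integral_sub (hi 2) (hi 0)]
      · exact ((hi 2).sub (hi 0)).const_mul _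
      · exact (hi 1).const_mul _
      · exact (((hi 2).sub (hi 0)).const_mul _).sub ((hi 1).const_mul _)
      · exact (hi 0).const_mul _
    exact gen _ _ _
  rw [← e]; exact h0

/-- exponential decay -/
lemma IB_decay (ν : ℂ) (k : ℕ) : ∃ K : ℝ, ∀ y : ℝ, 1 ≤ y → ‖IB ν k y‖ ≤ K * Real.exp (-(2 * Real.pi * y)) := by
  have hpi := Real.pi_pos
  set g : ℝ → ℝ := fun r =>
    (Real.exp (-(2 * Real.pi * 1) + 2 * (k + |ν.re|) ^ 2 / (2 * Real.pi * 1)) *
      Real.exp (-(2 * Real.pi * 1 / 8) * r ^ 2)) with hg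
  have hgi : Integrable g := (integrable_exp_neg_mul_sq (by positivity)).const_mul _
  refine ⟨Real.exp (2 * Real.pi) * ∫ r, g r, fun y hy => ?_⟩
  unfold IB
  calc ‖∫ r, kerB ν k y r‖ ≤ ∫ r, Real.exp (-(2 * Real.pi * (y - 1))) * g r := by
        refine norm_integral_le_of_norm_le (hgi.const_mul _) (Filter.Eventually.of_forall fun r => ?_)
        exact norm_kerB_le ν k one_pos hy r
    _ = _ := by
        rw [integral_const_mul]
        have : Real.exp (-(2 * Real.pi * (y - 1)))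
            = Real.exp (2 * Real.pi) * Real.exp (-(2 * Real.pi * y)) := by
          rw [← Real.exp_add]; congr 1; ring
        rw [this]; ring

/-- the Whittaker function -/
def wB (ν : ℂ) (y : ℝ) : ℂ := (Real.sqrt y : ℂ) * IB ν 0 y

/-- its derivative -/
def wB1 (ν : ℂ) (y : ℝ) : ℂ :=
  IB ν 0 y / (2 * Real.sqrt y) - 2 * Real.pi * Real.sqrt y * IB ν 1 y

lemma hasDerivAt_wB (ν : ℂ) {y : ℝ} (hy : 0 < y) : HasDerivAt (wB ν) (wB1 ν y) y := by
  have h1 := (Real.hasDerivAt_sqrt hy.ne').ofReal_comp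
  have h2 := h1.mul (hasDerivAt_IB ν 0 hy)
  refine h2.congr_deriv ?_
  unfold wB1
  push_cast
  ring

lemma hasDerivAt_wB1 (ν : ℂ) {y : ℝ} (hy : 0 < y) :
    HasDerivAt (wB1 ν) ((4 * Real.pi ^ 2 - (1 / 4 - ν ^ 2) / y ^ 2) * wB ν y) y := by
  have h1 := (Real.hasDerivAt_sqrt hy.ne').ofReal_comp
  have hs : (Real.sqrt y : ℂ) ≠ 0 := by
    exact_mod_cast (Real.sqrt_pos.mpr hy).ne'
  have hss : (Real.sqrt y : ℂ) ^ 2 = y := by
    exact_mod_cast Real.sq_sqrt hy.le
  have hy0 : (y : ℂ) ≠ 0 := by exact_mod_cast hy.ne'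
  have h2 := (hasDerivAt_IB ν 0 hy).div (h1.const_mul 2) (mul_ne_zero two_ne_zero hs)
  have h3 := (h1.const_mul (2 * (Real.pi : ℂ))).mul (hasDerivAt_IB ν 1 hy)
  have h4 := h2.sub h3
  refine h4.congr_deriv ?_
  have hb := bessel_identity ν hy
  unfold wB
  push_cast
  set S : ℂ := (Real.sqrt y : ℂ) with hS
  rw [← hss] at hb ⊢
  field_simp
  linear_combination (16 : ℂ) * hb

lemma wB_decay (ν : ℂ) : ∃ K : ℝ, ∀ y : ℝ, 1 ≤ y →
    ‖wB ν y‖ ≤ K * (y * Real.exp (-(2 * Real.pi * y))) ∧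
    ‖wB1 ν y‖ ≤ K * (y * Real.exp (-(2 * Real.pi * y))) := by
  obtain ⟨K0, h0⟩ := IB_decay ν 0
  obtain ⟨K1, h1⟩ := IB_decay ν 1
  have hpi := Real.pi_pos
  refine ⟨|K0| + 2 * Real.pi * |K1|, fun y hy => ?_⟩
  have hy0 : 0 < y := by linarith
  have hs1 : 1 ≤ Real.sqrt y := by rwa [Real.one_le_sqrt]
  have hs2 : Real.sqrt y ≤ y := by
    rw [Real.sqrt_le_left hy0.le]
    nlinarith
  have hE := Real.exp_pos (-(2 * Real.pi * y))
  have a0 : ‖IB ν 0 y‖ ≤ |K0| * Real.exp (-(2 * Real.pi * y)) :=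
    (h0 y hy).trans (mul_le_mul_of_nonneg_right (le_abs_self _) hE.le)
  have a1 : ‖IB ν 1 y‖ ≤ |K1| * Real.exp (-(2 * Real.pi * y)) :=
    (h1 y hy).trans (mul_le_mul_of_nonneg_right (le_abs_self _) hE.le)
  have ns : ‖((Real.sqrt y : ℝ) : ℂ)‖ = Real.sqrt y := by
    rw [Complex.norm_real, Real.norm_of_nonneg (Real.sqrt_nonneg _)]
  constructor
  · unfold wB
    rw [norm_mul, ns]
    calc Real.sqrt y * ‖IB ν 0 y‖ ≤ y * (|K0| * Real.exp (-(2 * Real.pi * y))) :=
          mul_le_mul hs2 a0 (norm_nonneg _) hy0.le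
      _ = |K0| * (y * Real.exp (-(2 * Real.pi * y))) := by ring
      _ ≤ _ := by
          refine mul_le_mul_of_nonneg_right ?_ (by positivity)
          have : 0 ≤ 2 * Real.pi * |K1| := by positivity
          linarith
  · unfold wB1
    refine (norm_sub_le _ _).trans ?_
    have b0 : ‖IB ν 0 y / (2 * (Real.sqrt y : ℂ))‖ ≤ |K0| * (y * Real.exp (-(2 * Real.pi * y))) := by
      rw [norm_div, norm_mul, ns, Complex.norm_ofNat]
      rw [div_le_iff₀ (by positivity)]
      calc ‖IB ν 0 y‖ ≤ |K0| * Real.exp (-(2 * Real.pi * y)) := a0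
        _ = (|K0| * Real.exp (-(2 * Real.pi * y))) * 1 := by ring
        _ ≤ (|K0| * Real.exp (-(2 * Real.pi * y))) * (y * (2 * Real.sqrt y)) := by
            refine mul_le_mul_of_nonneg_left ?_ (by positivity)
            nlinarith
        _ = _ := by ring
    have b1 : ‖2 * (Real.pi : ℂ) * (Real.sqrt y : ℂ) * IB ν 1 y‖
        ≤ 2 * Real.pi * |K1| * (y * Real.exp (-(2 * Real.pi * y))) := by
      rw [norm_mul, norm_mul, norm_mul, ns, Complex.norm_ofNat, Complex.norm_real,
        Real.norm_of_nonneg hpi.le]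
      calc 2 * Real.pi * Real.sqrt y * ‖IB ν 1 y‖
          ≤ 2 * Real.pi * y * (|K1| * Real.exp (-(2 * Real.pi * y))) := by
            refine mul_le_mul ?_ a1 (norm_nonneg _) (by positivity)
            exact mul_le_mul_of_nonneg_left hs2 (by positivity)
        _ = _ := by ring
    calc _ ≤ |K0| * (y * Real.exp (-(2 * Real.pi * y)))
          + 2 * Real.pi * |K1| * (y * Real.exp (-(2 * Real.pi * y))) := add_le_add b0 b1
      _ = _ := by ring

end

end Pool.Agent.V1143.Maass
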