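import Pool.Agent.V1143.Maass.Bessel

/-! The Mellin transform of the K-Bessel function. -/

namespace Pool.Agent.V1143.Maass

open MeasureTheory Filter Topology Set

noncomputable section

lemma cpow_real_exp (t : ℝ) (a : ℂ) : ((Real.exp t : ℝ) : ℂ) ^ a = Complex.exp (t * a) := by
  rw [Complex.cpow_def_of_ne_zero (by exact_mod_cast (Real.exp_pos t).ne'),
    ← Complex.ofReal_log (Real.exp_pos t).le, Real.log_exp]

lemma integrable_exp_abs {c : ℝ} (hc : 0 < c) : Integrable (fun x : ℝ => Real.exp (-(c * |x|))) := by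
  rw [← integrableOn_univ, ← Iic_union_Ioi (a := (0:ℝ))]
  refine IntegrableOn.union ?_ ?_
  · refine (integrableOn_exp_mul_Iic hc 0).congr_fun ?_ measurableSet_Iic
    intro x hx
    simp only
    rw [abs_of_nonpos (mem_Iic.mp hx)]
    congr 1; ring
  · refine (integrableOn_exp_mul_Ioi (a := -c) (by linarith) 0).congr_fun ?_ measurableSet_Ioi
    intro x hx
    simp only
    rw [abs_of_pos (mem_Ioi.mp hx)]
    congr 1; ring

/-- log of 2 cosh -/
def LL (r : ℝ) : ℝ := Real.log (2 * Real.cosh r)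

lemma exp_LL (r : ℝ) : Real.exp (LL r) = 2 * Real.cosh r :=
  Real.exp_log (by have := Real.cosh_pos r; positivity)

lemma abs_le_LL (r : ℝ) : |r| ≤ LL r := by
  rw [← Real.exp_le_exp, exp_LL, Real.cosh_eq]
  rcases abs_cases r with ⟨h, _⟩ | ⟨h, _⟩ <;> rw [h]
  · have := Real.exp_pos (-r); linarith
  · have := Real.exp_pos r; linarith

/-- the substitution -/
def sgm (r : ℝ) : ℝ := (1 + Real.exp (-(2 * r)))⁻¹

lemma sgm_eq (r : ℝ) : sgm r = Real.exp (r - LL r) := by
  rw [Real.exp_sub, exp_LL, Real.cosh_eq]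
  unfold sgm
  have h : Real.exp (-(2 * r)) = Real.exp (-r) / Real.exp r := by
    rw [← Real.exp_sub]; congr 1; ring
  rw [h]
  have := Real.exp_pos r
  have := Real.exp_pos (-r)
  field_simp

lemma one_sub_sgm (r : ℝ) : 1 - sgm r = Real.exp (-r - LL r) := by
  rw [Real.exp_sub, exp_LL, Real.cosh_eq]
  unfold sgm
  have h : Real.exp (-(2 * r)) = Real.exp (-r) / Real.exp r := by
    rw [← Real.exp_sub]; congr 1; ring
  rw [h]
  have := Real.exp_pos r
  have := Real.exp_pos (-r)
  field_simp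
  ring

lemma hasDerivAt_sgm (r : ℝ) : HasDerivAt sgm (2 * Real.exp (-(2 * LL r))) r := by
  have h1 : HasDerivAt (fun r : ℝ => -(2 * r)) (-(2 * 1)) r := ((hasDerivAt_id r).const_mul 2).neg
  have h2 := (h1.exp.const_add 1).inv (by have := Real.exp_pos (-(2 * r)); positivity)
  refine h2.congr_deriv ?_
  have e : Real.exp (-(2 * LL r)) = (2 * Real.cosh r)⁻¹ ^ 2 := by
    rw [← exp_LL, ← Real.exp_neg, ← Real.exp_nat_mul]; congr 1; push_cast; ring
  rw [e, Real.cosh_eq]
  have h : Real.exp (-(2 * r)) = Real.exp (-r) / Real.exp r := by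
    rw [← Real.exp_sub]; congr 1; ring
  rw [h]
  have h1 := Real.exp_pos r
  have h3 := Real.exp_pos (-r)
  have h4 : Real.exp r * Real.exp (-r) = 1 := by rw [← Real.exp_add]; simp
  field_simp
  linear_combination h4

lemma sgm_image : sgm '' univ = Ioo 0 1 := by
  ext x
  constructor
  · rintro ⟨r, -, rfl⟩
    have h1 := one_sub_sgm r
    have h2 := Real.exp_pos (-r - LL r)
    refine ⟨?_, by linarith⟩
    rw [sgm_eq]; exact Real.exp_pos _
  · rintro ⟨h0, h1⟩
    have h2 : 0 < (1 - x) / x := div_pos (by linarith) h0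
    refine ⟨-(Real.log ((1 - x) / x)) / 2, mem_univ _, ?_⟩
    unfold sgm
    rw [show -(2 * (-(Real.log ((1 - x) / x)) / 2)) = Real.log ((1 - x) / x) by ring,
      Real.exp_log h2]
    field_simp
    ring

lemma sgm_injective : Function.Injective sgm := by
  have : StrictMono sgm := by
    refine strictMono_of_hasDerivAt_pos (f' := fun r => 2 * Real.exp (-(2 * LL r)))
      hasDerivAt_sgm fun r => by positivity
  exact this.injective

/-- Beta integral in hyperbolic form -/
lemma beta_cosh {ν s : ℂ} (h : |ν.re| < s.re) :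
    ∫ r : ℝ, Complex.exp (-(s * LL r) + ν * r)
      = Complex.Gamma ((s + ν) / 2) * Complex.Gamma ((s - ν) / 2) / (2 * Complex.Gamma s) := by
  have h1 := abs_lt.mp h
  have hu : 0 < ((s + ν) / 2).re := by
    have : ((s + ν) / 2).re = (s.re + ν.re) / 2 := by
      rw [show (s + ν) / 2 = ((1/2 : ℝ) : ℂ) * (s + ν) by push_cast; ring, Complex.re_ofReal_mul]
      simp; ring
    rw [this]; linarith
  have hv : 0 < ((s - ν) / 2).re := by
    have : ((s - ν) / 2).re = (s.re - ν.re) / 2 := by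
      rw [show (s - ν) / 2 = ((1/2 : ℝ) : ℂ) * (s - ν) by push_cast; ring, Complex.re_ofReal_mul]
      simp; ring
    rw [this]; linarith
  have hs : 0 < s.re := lt_of_le_of_lt (abs_nonneg _) h
  have key := Complex.Gamma_mul_Gamma_eq_betaIntegral hu hv
  have hsum : (s + ν) / 2 + (s - ν) / 2 = s := by ring
  rw [hsum] at key
  have hb : Complex.betaIntegral ((s + ν) / 2) ((s - ν) / 2)
      = 2 * ∫ r : ℝ, Complex.exp (-(s * LL r) + ν * r) := by
    unfold Complex.betaIntegral
    rw [intervalIntegral.integral_of_le zero_le_one, integral_Ioc_eq_integral_Ioo, ← sgm_image]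
    rw [integral_image_eq_integral_abs_deriv_smul MeasurableSet.univ
      (fun r _ => (hasDerivAt_sgm r).hasDerivWithinAt) sgm_injective.injOn,
      setIntegral_univ, ← integral_const_mul]
    congr 1
    ext r
    have e1 : (1 : ℂ) - ((sgm r : ℝ) : ℂ) = ((Real.exp (-r - LL r) : ℝ) : ℂ) := by
      rw [← one_sub_sgm]; push_cast; rfl
    rw [e1, sgm_eq, cpow_real_exp, cpow_real_exp, abs_of_pos (by positivity), Complex.real_smul,
      ← Complex.exp_add]
    push_cast
    rw [mul_assoc, ← Complex.exp_add]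
    congr 2
    ring
  rw [hb] at key
  have hG : Complex.Gamma s ≠ 0 := Complex.Gamma_ne_zero_of_re_pos hs
  rw [key]
  field_simp

lemma RR_eq (r : ℝ) : 2 * Real.pi * Real.cosh r = Real.exp (LL r + Real.log Real.pi) := by
  rw [Real.exp_add, exp_LL, Real.exp_log Real.pi_pos]; ring

lemma kerB_zero (ν : ℂ) (y r : ℝ) :
    kerB ν 0 y r = Complex.exp (-(((2 * Real.pi * Real.cosh r : ℝ) : ℂ) * y)) * Complex.exp (ν * r) := by
  unfold kerB
  rw [pow_zero, one_mul, ← Complex.exp_add]
  congr 1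
  push_cast
  ring

lemma inner_mellin (ν : ℂ) {s : ℂ} (hs : 0 < s.re) (r : ℝ) :
    ∫ y : ℝ in Ioi 0, (y : ℂ) ^ (s - 1) * kerB ν 0 y r
      = Complex.Gamma s * Complex.exp (-(s * Real.log Real.pi)) *
        Complex.exp (-(s * LL r) + ν * r) := by
  have hR : 0 < 2 * Real.pi * Real.cosh r := by
    have := Real.pi_pos
    have := Real.cosh_pos r
    positivity
  have h1 := Complex.integral_cpow_mul_exp_neg_mul_Ioi hs hR
  have e : ∫ y : ℝ in Ioi 0, (y : ℂ) ^ (s - 1) * kerB ν 0 y r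
      = (∫ y : ℝ in Ioi 0, (y : ℂ) ^ (s - 1) *
        Complex.exp (-(((2 * Real.pi * Real.cosh r : ℝ) : ℂ) * y))) * Complex.exp (ν * r) := by
    rw [← integral_mul_const]
    congr 1
    ext y
    rw [kerB_zero]; ring
  rw [e, h1]
  have e2 : (1 / ((2 * Real.pi * Real.cosh r : ℝ) : ℂ)) ^ s
      = Complex.exp (-(s * Real.log Real.pi)) * Complex.exp (-(s * LL r)) := by
    have : (1 / ((2 * Real.pi * Real.cosh r : ℝ) : ℂ))
        = ((Real.exp (-(LL r + Real.log Real.pi)) : ℝ) : ℂ) := by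
      rw [RR_eq, Real.exp_neg]; push_cast; rw [one_div]
    rw [this, cpow_real_exp, ← Complex.exp_add]
    congr 1
    push_cast
    ring
  rw [e2, Complex.exp_add]
  ring

lemma inner_norm (ν : ℂ) {s : ℂ} (hs : 0 < s.re) (r : ℝ) :
    ∫ y : ℝ in Ioi 0, ‖(y : ℂ) ^ (s - 1) * kerB ν 0 y r‖
      = Real.Gamma s.re * Real.exp (-(s.re * Real.log Real.pi)) *
        Real.exp (-(s.re * LL r) + ν.re * r) := by
  have hR : 0 < 2 * Real.pi * Real.cosh r := by
    have := Real.pi_pos
    have := Real.cosh_pos r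
    positivity
  have h1 := Real.integral_rpow_mul_exp_neg_mul_Ioi hs hR
  have e : ∫ y : ℝ in Ioi 0, ‖(y : ℂ) ^ (s - 1) * kerB ν 0 y r‖
      = (∫ y : ℝ in Ioi 0, y ^ (s.re - 1) *
        Real.exp (-((2 * Real.pi * Real.cosh r) * y))) * Real.exp (ν.re * r) := by
    rw [← integral_mul_const]
    refine setIntegral_congr_fun measurableSet_Ioi fun y hy => ?_
    rw [norm_mul, norm_kerB, Complex.norm_cpow_eq_rpow_re_of_pos (mem_Ioi.mp hy), pow_zero, one_mul,
      Real.exp_add, Complex.sub_re, Complex.one_re]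
    rw [show -(2 * Real.pi * y * Real.cosh r) = -((2 * Real.pi * Real.cosh r) * y) by ring]
    ring
  rw [e, h1]
  have e2 : (1 / (2 * Real.pi * Real.cosh r)) ^ s.re
      = Real.exp (-(s.re * Real.log Real.pi)) * Real.exp (-(s.re * LL r)) := by
    rw [RR_eq, one_div, ← Real.exp_neg, ← Real.exp_mul, ← Real.exp_add]
    congr 1
    ring
  rw [e2, Real.exp_add]
  ring

lemma measurable_gB (ν s : ℂ) :
    Measurable (Function.uncurry fun (y r : ℝ) => (y : ℂ) ^ (s - 1) * kerB ν 0 y r) := by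
  unfold Function.uncurry kerB
  refine Measurable.mul ?_ ?_
  · exact (Complex.measurable_ofReal.comp measurable_fst).pow_const _
  · fun_prop

lemma integrable_gB {ν s : ℂ} (h : |ν.re| < s.re) :
    Integrable (Function.uncurry fun (y r : ℝ) => (y : ℂ) ^ (s - 1) * kerB ν 0 y r)
      ((volume.restrict (Ioi (0:ℝ))).prod volume) := by
  have hs : 0 < s.re := lt_of_le_of_lt (abs_nonneg _) h
  rw [integrable_prod_iff' (measurable_gB ν s).aestronglyMeasurable]
  constructor
  · refine Filter.Eventually.of_forall fun r => ?_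
    by_contra hc
    have h1 := inner_norm ν hs r
    have h2 : ∫ y : ℝ in Ioi 0, ‖(y : ℂ) ^ (s - 1) * kerB ν 0 y r‖ = 0 := by
      refine integral_undef fun hi => hc ?_
      refine (integrable_norm_iff ?_).mp hi
      exact ((measurable_gB ν s).comp (measurable_prodMk_right (y := r))).aestronglyMeasurable
    rw [h2] at h1
    have h3 : 0 < Real.Gamma s.re * Real.exp (-(s.re * Real.log Real.pi)) *
        Real.exp (-(s.re * LL r) + ν.re * r) := by
      have := Real.Gamma_pos_of_pos hs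
      positivity
    exact h3.ne h1
  · have e : (fun r : ℝ => ∫ y, ‖Function.uncurry (fun (y r : ℝ) => (y : ℂ) ^ (s - 1) *
        kerB ν 0 y r) (y, r)‖ ∂(volume.restrict (Ioi (0:ℝ))))
        = fun r : ℝ => Real.Gamma s.re * Real.exp (-(s.re * Real.log Real.pi)) *
        Real.exp (-(s.re * LL r) + ν.re * r) := by
      ext r
      exact inner_norm ν hs r
    rw [e]
    refine Integrable.const_mul ?_ _
    have hc : 0 < s.re - |ν.re| := by linarith
    refine Integrable.mono' (integrable_exp_abs hc) ?_ (Filter.Eventually.of_forall fun r => ?_)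
    · have hm : Measurable LL := by
        unfold LL
        exact Real.measurable_log.comp (by fun_prop)
      fun_prop
    · rw [Real.norm_of_nonneg (Real.exp_pos _).le]
      refine Real.exp_le_exp.mpr ?_
      have h1 := mul_le_mul_of_nonneg_left (abs_le_LL r) hs.le
      have h2 : ν.re * r ≤ |ν.re| * |r| := by rw [← abs_mul]; exact le_abs_self _
      have h3 : (s.re - |ν.re|) * |r| = s.re * |r| - |ν.re| * |r| := by ring
      linarith

/-- Mellin transform of the K-Bessel function -/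
theorem mellin_IB {ν s : ℂ} (h : |ν.re| < s.re) :
    IntegrableOn (fun y : ℝ => (y : ℂ) ^ (s - 1) * IB ν 0 y) (Ioi 0) ∧
    ∫ y : ℝ in Ioi 0, (y : ℂ) ^ (s - 1) * IB ν 0 y
      = (Real.pi : ℂ) ^ (-s) / 2 * Complex.Gamma ((s + ν) / 2) * Complex.Gamma ((s - ν) / 2) := by
  have hs : 0 < s.re := lt_of_le_of_lt (abs_nonneg _) h
  have hi := integrable_gB h
  have e : (fun y : ℝ => (y : ℂ) ^ (s - 1) * IB ν 0 y)
      = fun y : ℝ => ∫ r, (y : ℂ) ^ (s - 1) * kerB ν 0 y r := by
    ext y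
    rw [integral_const_mul]; rfl
  constructor
  · rw [e]
    exact hi.integral_prod_left
  · rw [e, integral_integral_swap hi]
    simp_rw [inner_mellin ν hs]
    rw [integral_const_mul, beta_cosh h]
    have hG : Complex.Gamma s ≠ 0 := Complex.Gamma_ne_zero_of_re_pos hs
    have hp : (Real.pi : ℂ) ^ (-s) = Complex.exp (-(s * Real.log Real.pi)) := by
      have := cpow_real_exp (Real.log Real.pi) (-s)
      rw [Real.exp_log Real.pi_pos] at this
      rw [this]
      congr 1
      ring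
    rw [hp]
    field_simp

lemma sqrt_cpow {y : ℝ} (hy : 0 < y) : ((Real.sqrt y : ℝ) : ℂ) = (y : ℂ) ^ (1 / 2 : ℂ) := by
  rw [Real.sqrt_eq_rpow, Complex.ofReal_cpow hy.le]
  push_cast
  rfl

/-- Mellin transform of the Whittaker function -/
theorem mellin_wB {ν s : ℂ} (h : |ν.re| < s.re) :
    IntegrableOn (fun y : ℝ => (y : ℂ) ^ (s - 3 / 2) * wB ν y) (Ioi 0) ∧
    ∫ y : ℝ in Ioi 0, (y : ℂ) ^ (s - 3 / 2) * wB ν y
      = (Real.pi : ℂ) ^ (-s) / 2 * Complex.Gamma ((s + ν) / 2) * Complex.Gamma ((s - ν) / 2) := by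
  have e : ∀ y ∈ Ioi (0:ℝ), (y : ℂ) ^ (s - 1) * IB ν 0 y = (y : ℂ) ^ (s - 3 / 2) * wB ν y := by
    intro y hy
    have hy0 : (y : ℂ) ≠ 0 := by exact_mod_cast (mem_Ioi.mp hy).ne'
    unfold wB
    rw [sqrt_cpow (mem_Ioi.mp hy), ← mul_assoc, ← Complex.cpow_add _ _ hy0]
    congr 2
    ring
  obtain ⟨h1, h2⟩ := mellin_IB h
  refine ⟨h1.congr_fun e measurableSet_Ioi, ?_⟩
  rw [← h2]
  exact (setIntegral_congr_fun measurableSet_Ioi e).symm

lemma exists_wB_ne_zero (ν : ℂ) : ∃ y : ℝ, 0 < y ∧ wB ν y ≠ 0 := by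
  by_contra hc
  push Not at hc
  set s : ℂ := ((|ν.re| + 1 : ℝ) : ℂ) with hs
  have hsre : s.re = |ν.re| + 1 := by rw [hs, Complex.ofReal_re]
  have h : |ν.re| < s.re := by rw [hsre]; linarith
  obtain ⟨-, h2⟩ := mellin_wB h
  have h3 : ∫ y : ℝ in Ioi 0, (y : ℂ) ^ (s - 3 / 2) * wB ν y = 0 := by
    rw [setIntegral_congr_fun (g := fun _ => (0:ℂ)) measurableSet_Ioi]
    · simp
    · intro y hy
      simp only
      rw [hc y (mem_Ioi.mp hy), mul_zero]
  rw [h3] at h2
  have a1 := abs_lt.mp h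
  have hu : 0 < ((s + ν) / 2).re := by
    have : ((s + ν) / 2).re = (s.re + ν.re) / 2 := by
      rw [show (s + ν) / 2 = ((1/2 : ℝ) : ℂ) * (s + ν) by push_cast; ring, Complex.re_ofReal_mul]
      simp; ring
    rw [this]; linarith
  have hv : 0 < ((s - ν) / 2).re := by
    have : ((s - ν) / 2).re = (s.re - ν.re) / 2 := by
      rw [show (s - ν) / 2 = ((1/2 : ℝ) : ℂ) * (s - ν) by push_cast; ring, Complex.re_ofReal_mul]
      simp; ring
    rw [this]; linarith
  have n1 := Complex.Gamma_ne_zero_of_re_pos hu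
  have n2 := Complex.Gamma_ne_zero_of_re_pos hv
  have n3 : (Real.pi : ℂ) ^ (-s) ≠ 0 := by
    rw [Complex.cpow_ne_zero_iff]
    left
    exact_mod_cast Real.pi_pos.ne'
  have : (Real.pi : ℂ) ^ (-s) / 2 * Complex.Gamma ((s + ν) / 2) * Complex.Gamma ((s - ν) / 2) ≠ 0 :=
    mul_ne_zero (mul_ne_zero (div_ne_zero n3 two_ne_zero) n1) n2
  exact this h2.symm

end

end Pool.Agent.V1143.Maass
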