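import Pool.Agent.V1143.Maass.Four

/-! Fourier coefficients of Maass forms. -/

namespace Pool.Agent.V1143.Maass

open MeasureTheory Filter Topology Set UpperHalfPlane

noncomputable section

lemma norm_cg_le {g : ℂ → ℂ} {M : ℝ} (hM : ∀ z ∈ HH, ‖g z‖ ≤ M) (n : ℤ) {y : ℝ} (hy : 0 < y) :
    ‖cg g n y‖ ≤ M := by
  unfold cg
  have := intervalIntegral.norm_integral_le_of_norm_le_const (a := 0) (b := 1) (C := M)
    (f := fun x => g (pt x y) * ex (-n * x)) (fun x _ => by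
      rw [norm_mul, norm_ex, mul_one]; exact hM _ (pt_mem hy))
  simpa using this

lemma deriv2_eq {g : ℂ → ℂ} (hg : Sm g) {z : ℂ} (hz : z ∈ HH) (e : ℂ) :
    deriv (deriv (fun t : ℝ => g (z + t * e))) 0 = Dd (Dd g e) e z := by
  have hz0 : z + ((0:ℝ) : ℂ) * e ∈ HH := by simpa using hz
  have h1 : deriv (fun t : ℝ => g (z + t * e)) =ᶠ[𝓝 0] fun t : ℝ => Dd g e (z + t * e) := by
    have hc : ContinuousAt (fun t : ℝ => z + (t : ℂ) * e) 0 := by fun_prop
    filter_upwards [hc.eventually_mem (isOpen_HH.mem_nhds hz0)] with t ht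
    exact (hg.hasDerivAt z e t ht).deriv
  rw [h1.deriv_eq]
  have h2 := ((hg.dd e).hasDerivAt z e 0 hz0).deriv
  rw [h2]
  congr 1
  simp

/-- Maass form data in complex coordinates -/
structure MF where
  f : ℂ → ℂ
  smooth : Sm f
  bound : ∃ M : ℝ, ∀ z ∈ HH, ‖f z‖ ≤ M
  per : ∀ z ∈ HH, f (z + 1) = f z
  inv : ∀ z ∈ HH, f (-1 / z) = f z
  slc : ∀ (a b c d : ℤ), a * d - b * c = 1 → ∀ z ∈ HH, f ((a * z + b) / (c * z + d)) = f z
  odd : ∀ z ∈ HH, f (-(starRingEnd ℂ) z) = -f z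
  Lam : ℂ
  lap : ∀ z ∈ HH, -((z.im : ℂ) ^ 2 * (deriv (deriv (fun t : ℝ => f (z + t))) 0
        + deriv (deriv (fun t : ℝ => f (z + t * Complex.I))) 0)) = Lam * f z
  ne : ∃ z ∈ HH, f z ≠ 0
  mu : ℕ → ℂ
  hecke : ∀ p : ℕ, p.Prime → ∀ z ∈ HH,
    f (p * z) + ∑ b ∈ Finset.range p, f ((z + b) / p) = mu p * f z

theorem exists_MF : Nonempty MF := by
  obtain ⟨F, hodd, hne, hh, hsm, Lam, hlap⟩ := exists_form
  choose! mu hmu using hh
  refine ⟨MF.mk (eC F) hsm ?_ ?_ ?_ ?_ ?_ Lam (fun z hz => hlap z hz) ?_ mu ?_⟩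
  · obtain ⟨M, hM⟩ := hodd.bdd
    exact ⟨M, fun z _ => hM _⟩
  · intro z hz
    have := hodd.per 1 hz
    simpa using this
  · intro z hz
    exact hodd.inv hz
  · intro a b c d h z hz
    exact hodd.slc h hz
  · intro z hz
    exact hodd.neg hz
  · by_contra hc
    push Not at hc
    apply hne
    ext z
    rw [← eC_coe F z]
    exact hc z z.im_pos
  · intro p hp z hz
    have h1 := eC_TH p F (z := z) hz
    rw [← h1]
    exact hmu p hp _

namespace MF

variable (m : MF)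

/-- Fourier coefficients of the form -/
def c (n : ℤ) (y : ℝ) : ℂ := cg m.f n y

lemma c_bound : ∃ M : ℝ, 0 ≤ M ∧ ∀ n y, 0 < y → ‖m.c n y‖ ≤ M := by
  obtain ⟨M, hM⟩ := m.bound
  exact ⟨M, (norm_nonneg _).trans (norm_cg_le hM 0 one_pos), fun n y hy => norm_cg_le hM n hy⟩

/-- spectral parameter -/
lemma exists_nu : ∃ ν : ℂ, ν ^ 2 = 1 / 4 - m.Lam :=
  IsAlgClosed.exists_pow_nat_eq (1 / 4 - m.Lam) (n := 2) (by norm_num)

/-- the chosen spectral parameter -/
def nu : ℂ := m.exists_nu.choose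

lemma nu_sq : m.nu ^ 2 = 1 / 4 - m.Lam := m.exists_nu.choose_spec

lemma c_ode {y : ℝ} (hy : 0 < y) :
    cg (Dd (Dd m.f Complex.I) Complex.I) 1 y = qq m.nu y * m.c 1 y := by
  have hpt : ∀ x : ℝ, Dd (Dd m.f Complex.I) Complex.I (pt x y)
      = -(m.Lam / y ^ 2) * m.f (pt x y) - Dd (Dd m.f 1) 1 (pt x y) := by
    intro x
    have hz : pt x y ∈ HH := pt_mem hy
    have h := m.lap (pt x y) hz
    have e1 := deriv2_eq m.smooth hz 1
    have e2 := deriv2_eq m.smooth hz Complex.I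
    simp only [mul_one] at e1
    rw [e1, e2, pt_im] at h
    have hy0 : (y : ℂ) ≠ 0 := by exact_mod_cast hy.ne'
    field_simp
    linear_combination -h
  have hc1 := cont_line' m.smooth.contOn hy 1
  have hc2 := cont_line' ((m.smooth.dd 1).dd 1).contOn hy 1
  have e : cg (Dd (Dd m.f Complex.I) Complex.I) 1 y
      = -(m.Lam / y ^ 2) * m.c 1 y - cg (Dd (Dd m.f 1) 1) 1 y := by
    unfold c cg
    rw [← intervalIntegral.integral_const_mul, ← intervalIntegral.integral_sub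
      ((hc1.const_mul _).intervalIntegrable _ _) (hc2.intervalIntegrable _ _)]
    congr 1
    ext x
    rw [hpt]
    ring
  rw [e, cg_dx (m.smooth.dd 1) (dd_per m.per 1) 1 hy, cg_dx m.smooth m.per 1 hy]
  have h1 : cg m.f 1 y = m.c 1 y := rfl
  rw [h1]
  unfold qq
  rw [m.nu_sq]
  push_cast
  have hI : Complex.I * Complex.I = -1 := Complex.I_mul_I
  linear_combination (-4 * (Real.pi : ℂ) ^ 2 * m.c 1 y) * hI

lemma exists_C : ∃ C : ℂ, ∀ y : ℝ, 0 < y → m.c 1 y = C * wB m.nu y := by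
  obtain ⟨M, -, hM⟩ := m.c_bound
  refine whittaker_unique m.nu (c := m.c 1) (c1 := cg (Dd m.f Complex.I) 1) (M := M) ?_ ?_
    (fun y hy => hM 1 y hy)
  · intro y hy
    exact hasDerivAt_cg m.smooth 1 hy
  · intro y hy
    rw [← m.c_ode hy]
    exact hasDerivAt_cg (m.smooth.dd Complex.I) 1 hy

/-- the constant -/
def C : ℂ := m.exists_C.choose

lemma c_one {y : ℝ} (hy : 0 < y) : m.c 1 y = m.C * wB m.nu y := m.exists_C.choose_spec y hy

lemma pt_neg (x y : ℝ) : pt (-x) y = -(starRingEnd ℂ) (pt x y) := by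
  refine Complex.ext ?_ ?_
  · rw [pt_re]; simp [pt_re]
  · rw [pt_im]; simp [pt_im]

lemma c_neg (n : ℤ) {y : ℝ} (hy : 0 < y) : m.c (-n) y = -m.c n y := by
  unfold c cg
  have h := intervalIntegral.integral_comp_sub_left (a := 0) (b := 1)
    (fun x => m.f (pt x y) * ex (-((-n : ℤ) : ℝ) * x)) 1
  rw [sub_self, sub_zero] at h
  rw [← h, ← intervalIntegral.integral_neg]
  congr 1
  ext x
  have e1 : pt (1 - x) y = pt (-x) y + 1 := by
    rw [← pt_add_one]; congr 1; ring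
  rw [e1, m.per _ (pt_mem hy), pt_neg, m.odd _ (pt_mem hy)]
  have e2 : ex (-((-n : ℤ) : ℝ) * (1 - x)) = ex (-n * x) := by
    have : (-((-n : ℤ) : ℝ) * (1 - x)) = (n : ℤ) + (-n * x) := by push_cast; ring
    rw [this, ex_add, ex_int, one_mul]
  rw [e2]
  ring

lemma c_zero {y : ℝ} (hy : 0 < y) : m.c 0 y = 0 := by
  have := m.c_neg 0 hy
  rw [neg_zero] at this
  have h2 : (2 : ℂ) * m.c 0 y = 0 := by linear_combination this
  exact (mul_eq_zero.mp h2).resolve_left two_ne_zero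

end MF

end

end Pool.Agent.V1143.Maass
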