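import Mathlib

/-! Integral operators with bounded kernels on finite measure spaces are compact. -/

namespace Pool.Agent.V1143.Maass

open MeasureTheory Filter Topology
open scoped ENNReal InnerProductSpace

noncomputable section

variable {X : Type*} [MeasurableSpace X] {μ : Measure X} [IsFiniteMeasure μ]

/-- bounded measurable kernel -/
structure BKer (X : Type*) [MeasurableSpace X] where
  K : X → X → ℝ
  meas : Measurable (Function.uncurry K)
  C : ℝ
  bound : ∀ x y, |K x y| ≤ C

namespace BKer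

variable (k : BKer X)

lemma C_nonneg [Nonempty X] : 0 ≤ k.C := by
  obtain ⟨x⟩ := ‹Nonempty X›
  exact le_trans (abs_nonneg _) (k.bound x x)

lemma meas_right (x : X) : Measurable (fun y => ((k.K x y : ℝ) : ℂ)) := by
  have := k.meas.comp (measurable_prodMk_left (x := x))
  exact Complex.measurable_ofReal.comp this

lemma memLp_row (x : X) : MemLp (fun y => ((k.K x y : ℝ) : ℂ)) 2 μ := by
  refine MemLp.of_bound (k.meas_right x).aestronglyMeasurable k.C ?_
  refine Filter.Eventually.of_forall fun y => ?_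
  rw [Complex.norm_real]
  exact k.bound x y

/-- row of the kernel -/
def row (μ : Measure X) [IsFiniteMeasure μ] (x : X) : Lp ℂ 2 μ := (k.memLp_row (μ := μ) x).toLp _

/-- the operator as a function -/
def app (f : Lp ℂ 2 μ) (x : X) : ℂ := ∫ y, ((k.K x y : ℝ) : ℂ) * f y ∂μ

lemma app_eq_inner (f : Lp ℂ 2 μ) (x : X) : k.app f x = ⟪k.row μ x, f⟫_ℂ := by
  rw [L2.inner_def]
  unfold app
  refine integral_congr_ae ?_
  filter_upwards [(k.memLp_row (μ := μ) x).coeFn_toLp] with y hy
  unfold row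
  rw [hy]
  simp [mul_comm]

lemma norm_row_le [Nonempty X] (x : X) :
    ‖k.row μ x‖ ≤ measureUnivNNReal μ ^ (2 : ℝ≥0∞).toReal⁻¹ * k.C := by
  refine Lp.norm_le_of_ae_bound k.C_nonneg ?_
  filter_upwards [(k.memLp_row (μ := μ) x).coeFn_toLp] with y hy
  unfold row
  rw [hy, Complex.norm_real]
  exact k.bound x y

/-- bound constant -/
def D (μ : Measure X) [IsFiniteMeasure μ] : ℝ := measureUnivNNReal μ ^ (2 : ℝ≥0∞).toReal⁻¹ * k.C

lemma norm_app_le [Nonempty X] (f : Lp ℂ 2 μ) (x : X) : ‖k.app f x‖ ≤ k.D μ * ‖f‖ := by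
  rw [app_eq_inner]
  refine (norm_inner_le_norm _ _).trans ?_
  exact mul_le_mul_of_nonneg_right (k.norm_row_le x) (norm_nonneg _)

lemma D_nonneg [Nonempty X] : 0 ≤ k.D μ := by
  unfold D
  have := k.C_nonneg
  positivity

lemma stronglyMeasurable_app (f : Lp ℂ 2 μ) : StronglyMeasurable (k.app f) := by
  unfold app
  have h1 : StronglyMeasurable (Function.uncurry fun x y => ((k.K x y : ℝ) : ℂ) * f y) := by
    refine StronglyMeasurable.mul ?_ ?_
    · exact (Complex.measurable_ofReal.comp k.meas).stronglyMeasurable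
    · exact (Lp.stronglyMeasurable f).comp_measurable measurable_snd
  exact h1.integral_prod_right

lemma memLp_app [Nonempty X] (f : Lp ℂ 2 μ) : MemLp (k.app f) 2 μ := by
  refine MemLp.of_bound (k.stronglyMeasurable_app f).aestronglyMeasurable (k.D μ * ‖f‖) ?_
  exact Filter.Eventually.of_forall fun x => k.norm_app_le f x

lemma app_add (f g : Lp ℂ 2 μ) : k.app (f + g) = k.app f + k.app g := by
  ext x
  simp only [app_eq_inner, Pi.add_apply, inner_add_right]

lemma app_smul (c : ℂ) (f : Lp ℂ 2 μ) : k.app (c • f) = c • k.app f := by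
  ext x
  simp only [app_eq_inner, Pi.smul_apply, inner_smul_right, smul_eq_mul]

/-- the operator -/
def op (μ : Measure X) [IsFiniteMeasure μ] [Nonempty X] : Lp ℂ 2 μ →L[ℂ] Lp ℂ 2 μ :=
  LinearMap.mkContinuous
    { toFun := fun f => (k.memLp_app f).toLp (k.app f)
      map_add' := by
        intro f g
        rw [← MemLp.toLp_add]
        exact MemLp.toLp_congr _ _ (by rw [app_add])
      map_smul' := by
        intro c f
        rw [RingHom.id_apply, ← MemLp.toLp_const_smul]
        exact MemLp.toLp_congr _ _ (by rw [app_smul]) }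
    (measureUnivNNReal μ ^ (2 : ℝ≥0∞).toReal⁻¹ * k.D μ)
    (by
      intro f
      have h := Lp.norm_le_of_ae_bound (f := (k.memLp_app f).toLp (k.app f))
        (C := k.D μ * ‖f‖) (mul_nonneg k.D_nonneg (norm_nonneg _)) (by
          filter_upwards [(k.memLp_app f).coeFn_toLp] with x hx
          rw [hx]; exact k.norm_app_le f x)
      calc _ ≤ _ := h
        _ = _ := by ring)

lemma op_coe [Nonempty X] (f : Lp ℂ 2 μ) : (k.op μ f : X → ℂ) =ᵐ[μ] k.app f :=
  (k.memLp_app f).coeFn_toLp

lemma op_symm [Nonempty X] (hs : ∀ x y, k.K x y = k.K y x) :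
    ((k.op μ : Lp ℂ 2 μ →L[ℂ] Lp ℂ 2 μ) : Lp ℂ 2 μ →ₗ[ℂ] Lp ℂ 2 μ).IsSymmetric := by
  intro f g
  change ⟪k.op μ f, g⟫_ℂ = ⟪f, k.op μ g⟫_ℂ
  rw [L2.inner_def, L2.inner_def]
  have hf : Integrable (fun x => f x) μ :=
    (memLp_one_iff_integrable).mp ((Lp.memLp f).mono_exponent (by norm_num))
  have hg : Integrable (fun x => g x) μ :=
    (memLp_one_iff_integrable).mp ((Lp.memLp g).mono_exponent (by norm_num))
  have e1 : ∫ x, ⟪k.op μ f x, g x⟫_ℂ ∂μ
      = ∫ x, ∫ y, ((k.K x y : ℝ) : ℂ) * (starRingEnd ℂ (f y)) * g x ∂μ ∂μ := by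
    refine integral_congr_ae ?_
    filter_upwards [k.op_coe f] with x hx
    rw [hx]
    simp only [RCLike.inner_apply]
    unfold app
    rw [← integral_conj, ← integral_const_mul]
    congr 1
    ext y
    rw [map_mul, Complex.conj_ofReal]
    ring
  have e2 : ∫ y, ⟪f y, k.op μ g y⟫_ℂ ∂μ
      = ∫ y, ∫ x, ((k.K x y : ℝ) : ℂ) * (starRingEnd ℂ (f y)) * g x ∂μ ∂μ := by
    refine integral_congr_ae ?_
    filter_upwards [k.op_coe g] with y hy
    rw [hy]
    simp only [RCLike.inner_apply]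
    unfold app
    rw [← integral_mul_const]
    congr 1
    ext x
    rw [hs x y]
    ring
  rw [e1, e2]
  rw [integral_integral_swap]
  -- integrability
  have h1 : Integrable (fun p : X × X => g p.1 * (starRingEnd ℂ (f p.2))) (μ.prod μ) := by
    refine hg.mul_prod (g := fun y => (starRingEnd ℂ (f y))) ?_
    exact (Complex.conjLIE.toContinuousLinearEquiv.integrable_comp_iff (φ := f)).mpr hf
  have h2 : Integrable (fun p : X × X => ((k.K p.1 p.2 : ℝ) : ℂ) *
      (g p.1 * (starRingEnd ℂ (f p.2)))) (μ.prod μ) := by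
    refine h1.bdd_mul (c := k.C) ?_ ?_
    · exact (Complex.measurable_ofReal.comp k.meas).aestronglyMeasurable
    · refine Filter.Eventually.of_forall fun p => ?_
      rw [Complex.norm_real]
      exact k.bound _ _
  refine h2.congr (Filter.Eventually.of_forall fun p => ?_)
  simp only [Function.uncurry]
  ring

lemma op_compact [Nonempty X] [TopologicalSpace.SeparableSpace (Lp ℂ 2 μ)] :
    IsCompactOperator (k.op μ) := by
  refine (isCompactOperator_iff_exists_mem_nhds_image_subset_compact _).mpr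
    ⟨Metric.closedBall 0 1, Metric.closedBall_mem_nhds _ zero_lt_one,
      (k.op μ) '' Metric.closedBall 0 1, ?_, le_rfl⟩
  refine IsSeqCompact.isCompact ?_
  intro y hy
  choose f hf hfy using hy
  -- weak limit
  let φ : ℕ → WeakDual ℂ (Lp ℂ 2 μ) := fun n =>
    StrongDual.toWeakDual (InnerProductSpace.toDual ℂ (Lp ℂ 2 μ) (f n))
  have hφ : ∀ n, φ n ∈ (WeakDual.toStrongDual ⁻¹'
      Metric.closedBall (0 : StrongDual ℂ (Lp ℂ 2 μ)) 1) := by
    intro n
    have h1 := hf n
    rw [mem_closedBall_zero_iff] at h1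
    simp only [Set.mem_preimage, mem_closedBall_zero_iff]
    change ‖InnerProductSpace.toDual ℂ (Lp ℂ 2 μ) (f n)‖ ≤ 1
    rw [LinearIsometryEquiv.norm_map]
    exact h1
  obtain ⟨ψ, hψ, σ, hσ, hlim⟩ := WeakDual.isSeqCompact_closedBall ℂ (Lp ℂ 2 μ) 0 1 hφ
  set g : Lp ℂ 2 μ := (InnerProductSpace.toDual ℂ (Lp ℂ 2 μ)).symm (WeakDual.toStrongDual ψ)
    with hg
  have hgn : g ∈ Metric.closedBall (0 : Lp ℂ 2 μ) 1 := by
    rw [mem_closedBall_zero_iff, hg, LinearIsometryEquiv.norm_map]
    simpa using hψ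
  refine ⟨k.op μ g, ⟨g, hgn, rfl⟩, σ, hσ, ?_⟩
  -- pointwise convergence
  have hw : ∀ h : Lp ℂ 2 μ, Tendsto (fun n => ⟪f (σ n), h⟫_ℂ) atTop (𝓝 ⟪g, h⟫_ℂ) := by
    intro h
    have := (WeakDual.eval_continuous (𝕜 := ℂ) h).seqContinuous hlim
    have e : ψ h = ⟪g, h⟫_ℂ := by
      rw [hg, InnerProductSpace.toDual_symm_apply]
      rfl
    rw [← e]
    exact this
  have hp : ∀ x, Tendsto (fun n => k.app (f (σ n)) x) atTop (𝓝 (k.app g x)) := by
    intro x
    simp only [app_eq_inner]
    have h1 := (Complex.continuous_conj.tendsto _).comp (hw (k.row μ x))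
    simpa [Function.comp_def] using h1
  have hyk : ∀ n, y n = k.op μ (f n) := fun n => (hfy n).symm
  have : (y ∘ σ) = fun n => k.op μ (f (σ n)) := by
    ext1 n; exact hyk _
  rw [this]
  rw [tendsto_iff_norm_sub_tendsto_zero]
  have hnorm : ∀ n, ‖k.op μ (f (σ n)) - k.op μ g‖ ^ 2
      = ∫ x, ‖k.app (f (σ n)) x - k.app g x‖ ^ 2 ∂μ := by
    intro n
    have h1 : ‖k.op μ (f (σ n)) - k.op μ g‖ ^ 2
        = RCLike.re ⟪k.op μ (f (σ n)) - k.op μ g, k.op μ (f (σ n)) - k.op μ g⟫_ℂ := by
      rw [inner_self_eq_norm_sq_to_K]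
      norm_cast
    rw [h1, L2.inner_def, ← integral_re]
    · refine integral_congr_ae ?_
      filter_upwards [Lp.coeFn_sub (k.op μ (f (σ n))) (k.op μ g), k.op_coe (f (σ n)), k.op_coe g]
        with x h2 h3 h4
      rw [h2]
      simp only [Pi.sub_apply, h3, h4]
      rw [inner_self_eq_norm_sq_to_K]
      norm_cast
    · exact L2.integrable_inner _ _
  have hsq : Tendsto (fun n => ‖k.op μ (f (σ n)) - k.op μ g‖ ^ 2) atTop (𝓝 0) := by
    simp_rw [hnorm]
    have h0 : (0 : ℝ) = ∫ x, (0 : ℝ) ∂μ := by simp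
    rw [h0]
    refine tendsto_integral_of_dominated_convergence (fun _ => (2 * k.D μ) ^ 2) ?_ ?_ ?_ ?_
    · intro n
      exact (((k.stronglyMeasurable_app (f (σ n))).sub
        (k.stronglyMeasurable_app g)).norm.pow 2).aestronglyMeasurable
    · exact integrable_const _
    · intro n
      refine Filter.Eventually.of_forall fun x => ?_
      rw [Real.norm_of_nonneg (by positivity)]
      have h1 := k.norm_app_le (f (σ n)) x
      have h2 := k.norm_app_le g x
      have h3 : ‖f (σ n)‖ ≤ 1 := by simpa using hf (σ n)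
      have h4 : ‖g‖ ≤ 1 := by simpa using hgn
      have hD := k.D_nonneg (μ := μ)
      have h5 : ‖k.app (f (σ n)) x - k.app g x‖ ≤ 2 * k.D μ := by
        refine (norm_sub_le _ _).trans ?_
        nlinarith
      exact pow_le_pow_left₀ (norm_nonneg _) h5 2
    · refine Filter.Eventually.of_forall fun x => ?_
      have h1 := ((hp x).sub_const (k.app g x)).norm.pow 2
      simpa using h1
  have := hsq.sqrt
  simpa using this

end BKer

end

end Pool.Agent.V1143.Maass
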