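import Pool.Agent.V1143.Maass.Hecke

/-! Existence of an odd Hecke-Maass form of level one. -/

namespace Pool.Agent.V1143.Maass

open MeasureTheory Filter Topology UpperHalfPlane
open scoped ENNReal MatrixGroups Modular

noncomputable section

/-- commuting families have common eigenvectors -/
lemma exists_common_aux {V : Type*} [AddCommGroup V] [Module ℂ V] [FiniteDimensional ℂ V]
    {ι : Type*} (A : ι → Module.End ℂ V) (hc : ∀ i j v, A i (A j v) = A j (A i v)) (n : ℕ) :
    ∀ W : Submodule ℂ V, Module.finrank ℂ W = n → W ≠ ⊥ → (∀ i, ∀ v ∈ W, A i v ∈ W) →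
      ∃ v ∈ W, v ≠ 0 ∧ ∀ i, ∃ c : ℂ, A i v = c • v := by
  induction n using Nat.strong_induction_on with
  | _ n ih =>
    intro W hn hW hinv
    by_cases h : ∀ i, ∃ c : ℂ, ∀ v ∈ W, A i v = c • v
    · obtain ⟨v, hv, hv0⟩ := Submodule.exists_mem_ne_zero_of_ne_bot hW
      refine ⟨v, hv, hv0, fun i => ?_⟩
      obtain ⟨c, hc⟩ := h i
      exact ⟨c, hc v hv⟩
    · push Not at h
      obtain ⟨i, hi⟩ := h
      have hWn : Nontrivial W := Submodule.nontrivial_iff_ne_bot.mpr hW
      let B : Module.End ℂ W := (A i).restrict (hinv i)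
      obtain ⟨c, hcB⟩ := Module.End.exists_eigenvalue B
      obtain ⟨w, hw⟩ := hcB.exists_hasEigenvector
      let W' : Submodule ℂ V := W ⊓ Module.End.eigenspace (A i) c
      have hw' : (w : V) ∈ W' := by
        refine ⟨w.2, ?_⟩
        rw [SetLike.mem_coe, Module.End.mem_eigenspace_iff]
        have := hw.apply_eq_smul
        exact congrArg Subtype.val this
      have hW'0 : W' ≠ ⊥ := by
        intro h0
        rw [h0, Submodule.mem_bot] at hw'
        exact hw.2 (Subtype.ext hw')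
      have hlt : W' < W := by
        refine lt_of_le_of_ne inf_le_left ?_
        intro he
        obtain ⟨v, hv, hv'⟩ := hi c
        have : v ∈ W' := by rw [he]; exact hv
        exact hv' (Module.End.mem_eigenspace_iff.mp this.2)
      have hfr : Module.finrank ℂ W' < n := by
        rw [← hn]; exact Submodule.finrank_lt_finrank_of_lt hlt
      obtain ⟨v, hv, hv0, hv2⟩ := ih _ hfr W' rfl hW'0 (by
        intro j v hv
        refine ⟨hinv j v hv.1, ?_⟩
        rw [SetLike.mem_coe, Module.End.mem_eigenspace_iff, hc i j,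
          Module.End.mem_eigenspace_iff.mp hv.2, map_smul])
      exact ⟨v, hv.1, hv0, hv2⟩

/-- operators on the eigenspace -/
def opsV {r r' : ℝ} (hr : 0 ≤ r) (hr' : 0 ≤ r') (φ : Prof r) (χ : Prof r') (lam : ℂ) :
    Option Nat.Primes → Module.End ℂ (VV hr φ lam)
  | none =>
    { toFun := fun F => ⟨Top χ.ψ F.1, Top_mem_VV hr hr' φ χ F.2⟩
      map_add' := fun F G => Subtype.ext (by
        ext z
        exact Top_add hr' χ F.2.1.meas F.2.1.bdd G.2.1.meas G.2.1.bdd z)
      map_smul' := fun c F => Subtype.ext (by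
        ext z
        exact Top_smul χ.ψ c F.1 z) }
  | some p =>
    { toFun := fun F => ⟨TH p F.1, TH_mem_VV F.2 p.2⟩
      map_add' := fun F G => Subtype.ext (TH_add p F.1 G.1)
      map_smul' := fun c F => Subtype.ext (TH_smul p c F.1) }

/-- main existence theorem -/
theorem exists_form : ∃ F : ℍ → ℂ, OddF F ∧ F ≠ 0 ∧
    (∀ p : ℕ, p.Prime → ∃ c : ℂ, ∀ z, TH p F z = c * F z) ∧
    ContDiffOn ℝ (⊤ : ℕ∞) (eC F) {z : ℂ | 0 < z.im} ∧
    ∃ Lam : ℂ, ∀ z : ℂ, 0 < z.im →
      -((z.im : ℂ) ^ 2 * (deriv (deriv (fun t : ℝ => eC F (z + t))) 0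
        + deriv (deriv (fun t : ℝ => eC F (z + t * Complex.I))) 0)) = Lam * eC F z := by
  obtain ⟨r, hr, hr2, hU⟩ := exists_radius
  let φ : NProf r := sprof r
  obtain ⟨lam, hlam, hV⟩ := exists_VV hr hr2 hU φ
  let φs : SProf r := { toProf := φ.toProf, smooth := sprof_contDiff r }
  have hfd := finiteDimensional_VV hr.le hr2 φ hlam
  have hnt : Nontrivial (VV hr.le φ.toProf lam) := Submodule.nontrivial_iff_ne_bot.mpr hV
  let A := opsV hr.le hr.le φ.toProf φs.lap.toProf lam
  have hcomm : ∀ i j v, A i (A j v) = A j (A i v) := by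
    intro i j v
    refine Subtype.ext ?_
    rcases i with _ | p <;> rcases j with _ | q
    · rfl
    · exact Top_TH hr.le φs.lap.toProf q.2.pos v.2.1.meas v.2.1.bdd
    · exact (Top_TH hr.le φs.lap.toProf p.2.pos v.2.1.meas v.2.1.bdd).symm
    · exact (TH_comm v.2.1 q.2 p.2)
  have htop : (⊤ : Submodule ℂ (VV hr.le φ.toProf lam)) ≠ ⊥ := top_ne_bot
  obtain ⟨v, -, hv0, hv⟩ := exists_common_aux A hcomm _ ⊤ rfl htop (fun _ _ _ => Submodule.mem_top)
  obtain ⟨F, hF⟩ := v
  have hFT : F = lam⁻¹ • Top φ.ψ F := by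
    ext z
    rw [Pi.smul_apply, hF.2 z, smul_eq_mul]
    field_simp
  have heC : ∀ z : ℂ, eC F z = lam⁻¹ * Top φs.ψ F (ofComplex z) := by
    intro z
    have := congrFun hFT (ofComplex z)
    exact this
  refine ⟨F, hF.1, ?_, ?_, ?_, ?_⟩
  · intro h0
    exact hv0 (Subtype.ext h0)
  · intro p hp
    obtain ⟨c, hc⟩ := hv (some ⟨p, hp⟩)
    refine ⟨c, fun z => ?_⟩
    have := congrArg Subtype.val hc
    exact congrFun this z
  · have h1 := contDiffOn_Top hr.le φs hF.1.meas hF.1.bdd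
    have h2 : eC F = fun z => lam⁻¹ * Top φs.ψ F (ofComplex z) := by
      ext z; exact heC z
    rw [h2]
    exact contDiffOn_const.mul h1
  · obtain ⟨κ, hκ⟩ := hv none
    have hκ' : ∀ z, Top φs.lap.ψ F z = κ * F z := fun z => congrFun (congrArg Subtype.val hκ) z
    refine ⟨-(lam⁻¹ * κ), fun z hz => ?_⟩
    have h1 := laplacian_Top hr.le φs hF.1.meas hF.1.bdd (⟨z, hz⟩ : ℍ)
    rw [hκ'] at h1
    have e1 : (fun t : ℝ => eC F (z + t))
        = fun t : ℝ => lam⁻¹ * Top φs.ψ F (ofComplex (z + t * 1)) := by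
      ext t; rw [heC, mul_one]
    have e2 : (fun t : ℝ => eC F (z + t * Complex.I))
        = fun t : ℝ => lam⁻¹ * Top φs.ψ F (ofComplex (z + t * Complex.I)) := by
      ext t; rw [heC]
    have d1 : ∀ g : ℝ → ℂ, deriv (deriv (fun t : ℝ => lam⁻¹ * g t)) 0
        = lam⁻¹ * deriv (deriv g) 0 := by
      intro g
      have : deriv (fun t : ℝ => lam⁻¹ * g t) = fun t => lam⁻¹ * deriv g t := by
        ext t; exact deriv_const_mul_field _
      rw [this]; exact deriv_const_mul_field _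
    rw [e1, e2, d1, d1, eC_of_pos F hz]
    have h2 : ((⟨z, hz⟩ : ℍ).im : ℂ) = (z.im : ℂ) := rfl
    rw [h2] at h1
    linear_combination (-lam⁻¹) * h1

end

end Pool.Agent.V1143.Maass
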