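import Pool.Agent.V1143.Maass.KBound
import Pool.Agent.V1143.Maass.Compact

/-! Existence of odd automorphic eigenfunctions of the convolution operator. -/

namespace Pool.Agent.V1143.Maass

open MeasureTheory Filter Topology UpperHalfPlane
open scoped ENNReal InnerProductSpace MatrixGroups Modular

noncomputable section

/-- bounded measurable odd automorphic functions -/
structure OddF (F : ℍ → ℂ) : Prop where
  meas : Measurable F
  bdd : ∃ M : ℝ, ∀ z, ‖F z‖ ≤ M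
  act : ∀ γ z, F (act γ z) = (dt γ : ℂ) * F z

/-- the convolution operator -/
def Top (ψ : ℝ → ℝ) (F : ℍ → ℂ) (z : ℍ) : ℂ := ∫ w, (ψ (sg z w) : ℂ) * F w

lemma Prof.bound {r : ℝ} (φ : Prof r) : ∃ C : ℝ, 0 ≤ C ∧ ∀ z w : ℍ, |φ.ψ (sg z w)| ≤ C := by
  obtain ⟨C, hC⟩ := (isCompact_Icc (a := (0:ℝ)) (b := 1)).exists_bound_of_continuousOn
    φ.cont.continuousOn
  refine ⟨max C 0, le_max_right _ _, fun z w => ?_⟩
  exact (hC _ ⟨(sg_pos z w).le, sg_le_one z w⟩).trans (le_max_left _ _)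

lemma volume_closedBall_lt_top (z : ℍ) (R : ℝ) :
    (volume : Measure ℍ) (Metric.closedBall z R) < ∞ :=
  (isCompact_closedBall z R).measure_lt_top

lemma integrable_of_ball {E : Type*} [NormedAddCommGroup E] {h : ℍ → E}
    (hm : AEStronglyMeasurable h volume) (z : ℍ) (R C : ℝ)
    (hb : ∀ w ∈ Metric.closedBall z R, ‖h w‖ ≤ C) (hs : ∀ w ∉ Metric.closedBall z R, h w = 0) :
    Integrable h := by
  have h1 : IntegrableOn h (Metric.closedBall z R) := by
    refine IntegrableOn.of_bound (volume_closedBall_lt_top z R) hm.restrict C ?_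
    exact (ae_restrict_iff' measurableSet_closedBall).mpr (Filter.Eventually.of_forall hb)
  refine (integrableOn_iff_integrable_of_support_subset ?_).mp h1
  intro w hw
  by_contra hc
  exact hw (hs w hc)

lemma integrable_Top {r : ℝ} (hr : 0 ≤ r) (φ : Prof r) {F : ℍ → ℂ} (hm : Measurable F)
    {M : ℝ} (hM : ∀ z, ‖F z‖ ≤ M) (z : ℍ) : Integrable (fun w => (φ.ψ (sg z w) : ℂ) * F w) := by
  obtain ⟨C, hC0, hC⟩ := φ.bound
  refine integrable_of_ball ?_ z r (C * M) ?_ ?_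
  · refine (Measurable.mul ?_ hm).aestronglyMeasurable
    refine Complex.measurable_ofReal.comp (φ.cont.comp ?_).measurable
    exact continuous_sg.comp (continuous_const.prodMk continuous_id)
  · intro w _
    rw [norm_mul, Complex.norm_real]
    exact mul_le_mul (hC z w) (hM w) (norm_nonneg _) hC0
  · intro w hw
    have : φ.ψ (sg z w) = 0 := by
      by_contra hc
      have := φ.dist_lt hr hc
      rw [Metric.mem_closedBall, dist_comm] at hw
      exact hw this.le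
    rw [this]; simp

lemma Top_eq_nu {r : ℝ} (hr : 0 ≤ r) (φ : NProf r) {F : ℍ → ℂ} (hF : OddF F) (z : ℍ) :
    Top φ.ψ F z = ∫ w, (Kodd φ.ψ z w : ℂ) * F w ∂nu := by
  obtain ⟨M, hM⟩ := hF.bdd
  unfold Top
  rw [integral_unfold (fun w => (φ.ψ (sg z w) : ℂ) * F w)]
  · refine integral_congr_ae (Filter.Eventually.of_forall fun w => ?_)
    obtain ⟨S, hS⟩ := finite_supp' hr z w
    have hz : ∀ γ ∉ S, φ.ψ (sg z (act γ w)) = 0 := by
      intro γ hγ
      by_contra hc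
      exact hγ (hS φ.toProf γ hc)
    simp only
    unfold Kodd
    rw [tsum_eq_sum (s := S), tsum_eq_sum (s := S)]
    · rw [Complex.ofReal_sum, Finset.sum_mul]
      refine Finset.sum_congr rfl fun γ _ => ?_
      rw [hF.act]
      push_cast
      ring
    · intro γ hγ
      rw [hz γ hγ]; simp
    · intro γ hγ
      rw [hz γ hγ]; simp
  · refine Measurable.mul ?_ hF.meas
    refine Complex.measurable_ofReal.comp (φ.cont.comp ?_).measurable
    exact continuous_sg.comp (continuous_const.prodMk continuous_id)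
  · exact integrable_Top hr φ.toProf hF.meas hM z

/-- smooth profile -/
def sprof (r : ℝ) : NProf r where
  ψ s := Real.smoothTransition (s - cr r)
  cont := Real.smoothTransition.continuous.comp (continuous_id.sub continuous_const)
  supp s hs := Real.smoothTransition.zero_of_nonpos (by linarith)
  nonneg s := Real.smoothTransition.nonneg _
  le_one s := Real.smoothTransition.le_one _
  mono s t h := Real.smoothTransition.monotone (by linarith)
  pos s hs := Real.smoothTransition.pos_of_pos (by linarith)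

lemma sprof_contDiff (r : ℝ) {n : ℕ∞} : ContDiff ℝ n (sprof r).ψ := by
  change ContDiff ℝ n (fun s => Real.smoothTransition (s - cr r))
  exact Real.smoothTransition.contDiff.comp (contDiff_id.sub contDiff_const)

/-- the matrix diag(-1,1) -/
def JJ : GL (Fin 2) ℤ := ut (-1) (0, 1)

lemma dt_JJ : dt JJ = -1 := by
  unfold JJ
  rw [dt_ut]; simp

lemma re_act_JJ (z : ℍ) : (act JJ z).re = -z.re := by
  have := (coe_act_ut (-1) (0, 1) z).1
  unfold JJ
  rw [this]; simp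

lemma im_act_JJ (z : ℍ) : (act JJ z).im = z.im := (coe_act_ut (-1) (0, 1) z).2

lemma exists_slgl {γ : GL (Fin 2) ℤ} (h : dt γ = 1) : ∃ g : SL(2, ℤ), slgl g = γ := by
  have hd : γ.val.det = 1 := by
    have h2 : ((γ.det.val : ℤ) : ℝ) = 1 := h
    have h3 : (γ.det.val : ℤ) = 1 := by exact_mod_cast h2
    exact h3
  refine ⟨⟨γ.val, hd⟩, ?_⟩
  ext i j
  rfl

lemma mem_fdo_JJ {z : ℍ} (hz : z ∈ 𝒟ᵒ) : act JJ z ∈ 𝒟ᵒ := by
  obtain ⟨h1, h2⟩ := hz
  refine ⟨?_, ?_⟩
  · rw [Complex.normSq_apply] at h1 ⊢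
    have e1 : ((act JJ z : ℍ) : ℂ).re = -(z : ℂ).re := re_act_JJ z
    have e2 : ((act JJ z : ℍ) : ℂ).im = (z : ℂ).im := im_act_JJ z
    rw [e1, e2]
    linarith
  · rw [re_act_JJ, abs_neg]; exact h2

lemma act_eq_self_of_fdo {γ : GL (Fin 2) ℤ} {w : ℍ} (h1 : w ∈ 𝒟ᵒ) (h1' : 0 < w.re)
    (h2 : act γ w ∈ 𝒟ᵒ) (h2' : 0 < (act γ w).re) : dt γ = 1 ∧ act γ w = w := by
  rcases dt_cases γ with h | h
  · refine ⟨h, ?_⟩
    obtain ⟨g, rfl⟩ := exists_slgl h
    rw [act_slgl] at h2 ⊢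
    exact (ModularGroup.eq_smul_self_of_mem_fdo_mem_fdo h1 h2).symm
  · exfalso
    have hd : dt (γ * JJ) = 1 := by rw [dt_mul, h, dt_JJ]; norm_num
    obtain ⟨g, hg⟩ := exists_slgl hd
    have hJ : act JJ (act JJ w) = w := by
      have : JJ * JJ = 1 := by
        ext i j
        fin_cases i <;> fin_cases j <;> simp [JJ, ut, Matrix.mul_apply, Fin.sum_univ_two]
      rw [← act_mul, this, act_one]
    have e : act γ w = g • (act JJ w) := by
      rw [← act_slgl, hg, act_mul, hJ]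
    rw [e] at h2 h2'
    have := ModularGroup.eq_smul_self_of_mem_fdo_mem_fdo (mem_fdo_JJ h1) h2
    rw [← this, re_act_JJ] at h2'
    linarith

/-- base point -/
def z0 : ℍ := ⟨⟨1/4, 2⟩, by norm_num⟩

lemma z0_mem : z0 ∈ {z : ℍ | z ∈ 𝒟ᵒ ∧ 0 < z.re} := by
  refine ⟨⟨?_, ?_⟩, ?_⟩
  · rw [Complex.normSq_apply]
    change (1:ℝ) < 1/4 * (1/4) + 2 * 2
    norm_num
  · change |(1/4 : ℝ)| < 1/2
    rw [abs_of_pos] <;> norm_num
  · change (0:ℝ) < 1/4
    norm_num

lemma isOpen_U : IsOpen {z : ℍ | z ∈ 𝒟ᵒ ∧ 0 < z.re} :=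
  ModularGroup.isOpen_fdo.inter (isOpen_lt continuous_const continuous_re)

lemma exists_radius : ∃ r : ℝ, 0 < r ∧ Real.exp r ≤ 2 ∧
    ∀ z ∈ Metric.ball z0 (2 * r), z ∈ 𝒟ᵒ ∧ 0 < z.re := by
  obtain ⟨ε, hε, h⟩ := Metric.isOpen_iff.mp isOpen_U z0 z0_mem
  refine ⟨min (ε / 2) (Real.log 2), ?_, ?_, ?_⟩
  · have : 0 < Real.log 2 := Real.log_pos (by norm_num)
    exact lt_min (by linarith) this
  · calc Real.exp (min (ε / 2) (Real.log 2)) ≤ Real.exp (Real.log 2) :=
        Real.exp_le_exp.mpr (min_le_right _ _)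
      _ = 2 := Real.exp_log (by norm_num)
  · intro z hz
    refine h (Metric.ball_subset_ball ?_ hz)
    have := min_le_left (ε / 2) (Real.log 2)
    linarith

lemma Kodd_pos {r : ℝ} (hr : 0 < r) (hU : ∀ z ∈ Metric.ball z0 (2 * r), z ∈ 𝒟ᵒ ∧ 0 < z.re)
    (φ : NProf r) {z w : ℍ} (hz : z ∈ Metric.ball z0 (r / 2)) (hw : w ∈ Metric.ball z0 (r / 2)) :
    0 < Kodd φ.ψ z w := by
  rw [Metric.mem_ball] at hz hw
  have key : ∀ γ, φ.ψ (sg z (act γ w)) ≠ 0 → dt γ = 1 := by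
    intro γ h
    have h1 := φ.dist_lt hr.le h
    have h2 := dist_triangle (act γ w) z z0
    rw [dist_comm (act γ w) z] at h2
    have hw' := hU w (by rw [Metric.mem_ball]; linarith)
    have hg' := hU (act γ w) (by rw [Metric.mem_ball]; linarith)
    exact (act_eq_self_of_fdo hw'.1 hw'.2 hg'.1 hg'.2).1
  obtain ⟨S, hS⟩ := finite_supp' hr.le z w
  have hz0 : ∀ γ ∉ S, dt γ * φ.ψ (sg z (act γ w)) = 0 := by
    intro γ hγ
    by_contra hc
    exact hγ (hS φ.toProf γ (right_ne_zero_of_mul hc))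
  have hnn : ∀ γ, 0 ≤ dt γ * φ.ψ (sg z (act γ w)) := by
    intro γ
    by_cases h : φ.ψ (sg z (act γ w)) = 0
    · rw [h, mul_zero]
    · rw [key γ h, one_mul]; exact φ.nonneg _
  have hsum : Summable fun γ => dt γ * φ.ψ (sg z (act γ w)) :=
    summable_of_ne_finset_zero (s := S) hz0
  refine hsum.tsum_pos hnn 1 ?_
  rw [dt_one, one_mul, act_one]
  refine φ.pos _ (sg_of_dist_lt ?_)
  have := dist_triangle_right z w z0
  linarith

lemma volume_open_pos {U : Set ℍ} (hU : IsOpen U) (hne : U.Nonempty) :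
    0 < (volume : Measure ℍ) U := by
  have ho : IsOpen (UpperHalfPlane.coe '' U) := isOpenEmbedding_coe.isOpenMap U hU
  rw [volume_eq_lintegral, pos_iff_ne_zero]
  intro h0
  have hm : Measurable (fun z : ℂ => (((1 / ‖z.im‖₊) ^ 2 : NNReal) : ℝ≥0∞)) := by fun_prop
  rw [setLIntegral_eq_zero_iff ho.measurableSet hm] at h0
  have h1 : (volume : Measure ℂ) (UpperHalfPlane.coe '' U) = 0 := by
    refine measure_mono_null ?_ h0
    rintro _ ⟨z, hz, rfl⟩
    simp only [Set.mem_compl_iff, Set.mem_ofPred_eq]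
    intro h
    have h2 := h ⟨z, hz, rfl⟩
    have h3 : (((1 / ‖z.im‖₊) ^ 2 : NNReal) : ℝ≥0∞) ≠ 0 := by
      have h4 : ‖z.im‖₊ ≠ 0 := by
        rw [nnnorm_ne_zero_iff]; exact z.im_ne_zero
      have h5 : (1 / ‖z.im‖₊) ^ 2 ≠ 0 := by positivity
      exact_mod_cast h5
    exact h3 h2
  exact (ho.measure_pos volume (hne.image _)).ne' h1

lemma nu_open_pos {U : Set ℍ} (hU : IsOpen U) (hne : U.Nonempty) (hUD : U ⊆ 𝒟) : 0 < nu U := by
  rw [pos_iff_ne_zero]
  intro h0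
  unfold nu at h0
  rw [withDensity_apply_eq_zero measurable_rho] at h0
  have : {x | rho x ≠ 0} ∩ U = U := by
    refine Set.inter_eq_right.mpr fun z hz => ?_
    simp only [Set.mem_ofPred_eq]
    unfold rho
    rw [Set.indicator_of_mem (hUD hz)]
    exact ENNReal.inv_ne_zero.mpr (nn_ne_top z)
  rw [this] at h0
  exact (volume_open_pos hU hne).ne' h0

lemma exists_Kbound {r : ℝ} (hr : 0 ≤ r) (hr2 : Real.exp r ≤ 2) (φ : NProf r) :
    ∃ N : ℝ, ∀ z w, |Kodd φ.ψ z w| ≤ N := by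
  obtain ⟨N, hN⟩ := Kodd_bounded hr hr2
  exact ⟨N, fun z w => hN φ z w⟩

/-- the kernel as a bounded kernel -/
def oker {r : ℝ} (hr : 0 ≤ r) (hr2 : Real.exp r ≤ 2) (φ : NProf r) : BKer ℍ where
  K := Kodd φ.ψ
  meas := measurable_Kodd hr φ
  C := (exists_Kbound hr hr2 φ).choose
  bound := (exists_Kbound hr hr2 φ).choose_spec

instance instNonemptyH : Nonempty ℍ := ⟨z0⟩

lemma op_ne_zero {r : ℝ} (hr : 0 < r) (hr2 : Real.exp r ≤ 2)
    (hU : ∀ z ∈ Metric.ball z0 (2 * r), z ∈ 𝒟ᵒ ∧ 0 < z.re) (φ : NProf r) :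
    (oker hr.le hr2 φ).op nu ≠ 0 := by
  intro h0
  set k := oker hr.le hr2 φ with hk
  set B : Set ℍ := Metric.ball z0 (r / 2) with hB
  have hBm : MeasurableSet B := measurableSet_ball
  have hBpos : 0 < nu B := by
    refine nu_open_pos Metric.isOpen_ball ⟨z0, Metric.mem_ball_self (by linarith)⟩ ?_
    intro z hz
    refine ModularGroup.fdo_subset_fd (hU z ?_).1
    exact Metric.ball_subset_ball (by linarith) hz
  let f : Lp ℂ 2 nu := indicatorConstLp 2 hBm (measure_ne_top nu B) (1 : ℂ)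
  have h1 : k.op nu f = 0 := by rw [h0]; rfl
  have h2 := k.op_coe (μ := nu) f
  rw [h1] at h2
  have h3 : ∀ᵐ x ∂nu, k.app f x = 0 := by
    filter_upwards [h2, Lp.coeFn_zero ℂ 2 nu] with x hx hx0
    rw [← hx, hx0]; rfl
  have h4 : ∀ x ∈ B, k.app f x ≠ 0 := by
    intro x hx
    have e1 : k.app f x = ∫ y in B, ((Kodd φ.ψ x y : ℝ) : ℂ) ∂nu := by
      unfold BKer.app
      rw [← integral_indicator hBm]
      refine integral_congr_ae ?_
      filter_upwards [indicatorConstLp_coeFn (p := 2) (hs := hBm) (hμs := measure_ne_top nu B)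
        (c := (1 : ℂ))] with y hy
      change ((k.K x y : ℝ) : ℂ) * (indicatorConstLp 2 hBm (measure_ne_top nu B) (1 : ℂ)) y = _
      rw [hy]
      by_cases hyB : y ∈ B
      · rw [Set.indicator_of_mem hyB, Set.indicator_of_mem hyB, mul_one]; rfl
      · rw [Set.indicator_of_notMem hyB, Set.indicator_of_notMem hyB, mul_zero]
    rw [e1, integral_complex_ofReal]
    have hpos : 0 < ∫ y in B, Kodd φ.ψ x y ∂nu := by
      rw [integral_pos_iff_support_of_nonneg_ae]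
      · have : Function.support (fun y => Kodd φ.ψ x y) ∩ B = B := by
          refine Set.inter_eq_right.mpr fun y hy => ?_
          exact (Kodd_pos hr hU φ hx hy).ne'
        rw [Measure.restrict_apply' hBm, this]
        exact hBpos
      · refine (ae_restrict_iff' hBm).mpr (Filter.Eventually.of_forall fun y hy => ?_)
        exact (Kodd_pos hr hU φ hx hy).le
      · refine Integrable.restrict ?_
        obtain ⟨N, hN⟩ := exists_Kbound hr.le hr2 φ
        refine Integrable.of_bound ?_ N (Filter.Eventually.of_forall fun y => hN x y)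
        exact ((measurable_Kodd hr.le φ).comp (measurable_prodMk_left (x := x))).aestronglyMeasurable
    intro h
    rw [Complex.ofReal_eq_zero] at h
    exact hpos.ne' h
  have h5 : nu B = 0 := by
    refine measure_mono_null ?_ h3
    intro x hx
    exact h4 x hx
  exact hBpos.ne' h5

lemma Top_add {r : ℝ} (hr : 0 ≤ r) (φ : Prof r) {F G : ℍ → ℂ} (hF : Measurable F)
    (hFb : ∃ M : ℝ, ∀ z, ‖F z‖ ≤ M) (hG : Measurable G) (hGb : ∃ M : ℝ, ∀ z, ‖G z‖ ≤ M) (z : ℍ) :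
    Top φ.ψ (F + G) z = Top φ.ψ F z + Top φ.ψ G z := by
  obtain ⟨M, hM⟩ := hFb
  obtain ⟨N, hN⟩ := hGb
  unfold Top
  rw [← integral_add (integrable_Top hr φ hF hM z) (integrable_Top hr φ hG hN z)]
  congr 1
  ext w
  simp only [Pi.add_apply]
  ring

lemma Top_smul (ψ : ℝ → ℝ) (c : ℂ) (F : ℍ → ℂ) (z : ℍ) :
    Top ψ (c • F) z = c * Top ψ F z := by
  unfold Top
  rw [← integral_const_mul]
  congr 1
  ext w
  simp only [Pi.smul_apply, smul_eq_mul]
  ring

lemma OddF.add {F G : ℍ → ℂ} (hF : OddF F) (hG : OddF G) : OddF (F + G) := by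
  obtain ⟨M, hM⟩ := hF.bdd
  obtain ⟨N, hN⟩ := hG.bdd
  refine ⟨hF.meas.add hG.meas, ⟨M + N, fun z => ?_⟩, fun γ z => ?_⟩
  · exact (norm_add_le _ _).trans (add_le_add (hM z) (hN z))
  · simp only [Pi.add_apply]
    rw [hF.act, hG.act]; ring

lemma OddF.smul {F : ℍ → ℂ} (hF : OddF F) (c : ℂ) : OddF (c • F) := by
  obtain ⟨M, hM⟩ := hF.bdd
  refine ⟨hF.meas.const_smul c, ⟨‖c‖ * M, fun z => ?_⟩, fun γ z => ?_⟩
  · simp only [Pi.smul_apply, smul_eq_mul, norm_mul]
    exact mul_le_mul_of_nonneg_left (hM z) (norm_nonneg _)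
  · simp only [Pi.smul_apply, smul_eq_mul]
    rw [hF.act]; ring

lemma OddF.zero : OddF (0 : ℍ → ℂ) :=
  ⟨measurable_const, ⟨0, fun z => by simp⟩, fun γ z => by simp⟩

/-- the eigenspace of automorphic functions -/
def VV {r : ℝ} (hr : 0 ≤ r) (φ : Prof r) (lam : ℂ) : Submodule ℂ (ℍ → ℂ) where
  carrier := {F | OddF F ∧ ∀ z, Top φ.ψ F z = lam * F z}
  zero_mem' := by
    refine ⟨OddF.zero, fun z => ?_⟩
    simp [Top]
  add_mem' := by
    rintro F G ⟨hF, hF2⟩ ⟨hG, hG2⟩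
    refine ⟨hF.add hG, fun z => ?_⟩
    rw [Top_add hr φ hF.meas hF.bdd hG.meas hG.bdd, hF2, hG2, Pi.add_apply]
    ring
  smul_mem' := by
    rintro c F ⟨hF, hF2⟩
    refine ⟨hF.smul c, fun z => ?_⟩
    rw [Top_smul, hF2, Pi.smul_apply, smul_eq_mul]
    ring

lemma mem_VV {r : ℝ} {hr : 0 ≤ r} {φ : Prof r} {lam : ℂ} {F : ℍ → ℂ} :
    F ∈ VV hr φ lam ↔ OddF F ∧ ∀ z, Top φ.ψ F z = lam * F z := Iff.rfl

instance : TopologicalSpace.SeparableSpace (Lp ℂ 2 nu) := by
  have : Fact ((2 : ℝ≥0∞) ≠ ∞) := ⟨by norm_num⟩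
  infer_instance

lemma OddF.memLp {F : ℍ → ℂ} (hF : OddF F) : MemLp F 2 nu := by
  obtain ⟨M, hM⟩ := hF.bdd
  exact MemLp.of_bound hF.meas.aestronglyMeasurable M (Filter.Eventually.of_forall hM)

/-- the class map -/
def cls {r : ℝ} (hr : 0 ≤ r) (φ : Prof r) (lam : ℂ) : VV hr φ lam →ₗ[ℂ] Lp ℂ 2 nu where
  toFun F := (F.2.1.memLp).toLp F.1
  map_add' F G := by
    rw [← MemLp.toLp_add]; rfl
  map_smul' c F := by
    rw [RingHom.id_apply, ← MemLp.toLp_const_smul]; rfl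

lemma app_cls {r : ℝ} (hr : 0 ≤ r) (hr2 : Real.exp r ≤ 2) (φ : NProf r) (lam : ℂ)
    (F : VV hr φ.toProf lam) (z : ℍ) :
    (oker hr hr2 φ).app (cls hr φ.toProf lam F) z = lam * F.1 z := by
  rw [← F.2.2 z, Top_eq_nu hr φ F.2.1]
  unfold BKer.app
  refine integral_congr_ae ?_
  filter_upwards [F.2.1.memLp.coeFn_toLp] with w hw
  change _ * ((F.2.1.memLp).toLp F.1) w = _
  rw [hw]; rfl

lemma cls_injective {r : ℝ} (hr : 0 ≤ r) (hr2 : Real.exp r ≤ 2) (φ : NProf r) {lam : ℂ}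
    (hlam : lam ≠ 0) : Function.Injective (cls hr φ.toProf lam) := by
  rw [injective_iff_map_eq_zero]
  intro F hF
  have h := app_cls hr hr2 φ lam F
  rw [hF] at h
  ext z
  have h2 := h z
  have h3 : (oker hr hr2 φ).app (0 : Lp ℂ 2 nu) z = 0 := by
    rw [BKer.app_eq_inner, inner_zero_right]
  rw [h3] at h2
  have := (mul_eq_zero.mp h2.symm).resolve_left hlam
  simpa using this

lemma op_cls {r : ℝ} (hr : 0 ≤ r) (hr2 : Real.exp r ≤ 2) (φ : NProf r) (lam : ℂ)
    (F : VV hr φ.toProf lam) :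
    (oker hr hr2 φ).op nu (cls hr φ.toProf lam F) = lam • cls hr φ.toProf lam F := by
  refine Lp.ext ?_
  filter_upwards [(oker hr hr2 φ).op_coe (cls hr φ.toProf lam F),
    Lp.coeFn_smul lam (cls hr φ.toProf lam F), F.2.1.memLp.coeFn_toLp] with z h1 h2 h3
  rw [h1, h2, app_cls hr hr2 φ lam F, Pi.smul_apply, smul_eq_mul]
  congr 1
  exact h3.symm

lemma finiteDimensional_VV {r : ℝ} (hr : 0 ≤ r) (hr2 : Real.exp r ≤ 2) (φ : NProf r) {lam : ℂ}
    (hlam : lam ≠ 0) : FiniteDimensional ℂ (VV hr φ.toProf lam) := by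
  have h1 := ContinuousLinearMap.finite_dimensional_eigenspace
    ((oker hr hr2 φ).op_compact (μ := nu)) lam hlam
  let g : VV hr φ.toProf lam →ₗ[ℂ]
      Module.End.eigenspace ((oker hr hr2 φ).op nu).toLinearMap lam :=
    (cls hr φ.toProf lam).codRestrict _ (fun F => by
      rw [Module.End.mem_eigenspace_iff]
      exact op_cls hr hr2 φ lam F)
  refine FiniteDimensional.of_injective g ?_
  intro F G h
  refine cls_injective hr hr2 φ hlam ?_
  exact congrArg Subtype.val h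

/-- main existence -/
theorem exists_VV {r : ℝ} (hr : 0 < r) (hr2 : Real.exp r ≤ 2)
    (hU : ∀ z ∈ Metric.ball z0 (2 * r), z ∈ 𝒟ᵒ ∧ 0 < z.re) (φ : NProf r) :
    ∃ lam : ℂ, lam ≠ 0 ∧ VV hr.le φ.toProf lam ≠ ⊥ := by
  set k := oker hr.le hr2 φ with hk
  have hne := op_ne_zero hr hr2 hU φ
  rw [← hk] at hne
  have hsym := k.op_symm (μ := nu) (Kodd_symm φ.ψ)
  have hcpt := k.op_compact (μ := nu)
  have h1 := (ContinuousLinearMap.eq_zero_of_forall_hasEigenvalue_eq_zero hcpt hsym).not.mpr hne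
  push Not at h1
  obtain ⟨lam, hl, hl0⟩ := h1
  refine ⟨lam, hl0, ?_⟩
  obtain ⟨f, hf⟩ := hl.exists_hasEigenvector
  have hf1 : k.op nu f = lam • f := hf.apply_eq_smul
  have hf0 : f ≠ 0 := hf.2
  have hF : ∀ᵐ z ∂nu, k.app f z = lam * f z := by
    filter_upwards [k.op_coe f, Lp.coeFn_smul lam f] with z h2 h3
    rw [← h2, hf1, h3]; rfl
  have hodd : OddF (k.app f) := by
    refine ⟨(k.stronglyMeasurable_app f).measurable, ⟨_, k.norm_app_le f⟩, fun γ z => ?_⟩
    unfold BKer.app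
    rw [← integral_const_mul]
    congr 1
    ext w
    change ((Kodd φ.ψ (act γ z) w : ℝ) : ℂ) * f w = _ * (((Kodd φ.ψ z w : ℝ) : ℂ) * f w)
    rw [Kodd_act]
    push_cast
    ring
  have hmem : k.app f ∈ VV hr.le φ.toProf lam := by
    refine ⟨hodd, fun z => ?_⟩
    rw [Top_eq_nu hr.le φ hodd]
    have : k.app f z = ∫ w, (Kodd φ.ψ z w : ℂ) * f w ∂nu := rfl
    rw [this, ← integral_const_mul]
    refine integral_congr_ae ?_
    filter_upwards [hF] with w hw
    rw [hw]; ring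
  intro hbot
  rw [hbot, Submodule.mem_bot] at hmem
  apply hf0
  refine Lp.ext ?_
  filter_upwards [hF, Lp.coeFn_zero ℂ 2 nu] with z h2 h3
  rw [h3, Pi.zero_apply]
  rw [hmem, Pi.zero_apply] at h2
  exact (mul_eq_zero.mp h2.symm).resolve_left hl0

end

end Pool.Agent.V1143.Maass
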