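import Pool.Agent.V1143.Maass.BesselMellin

/-! Uniqueness of the bounded Whittaker function. -/

namespace Pool.Agent.V1143.Maass

open MeasureTheory Filter Topology Set

noncomputable section

/-- the ODE coefficient -/
def qq (ν : ℂ) (y : ℝ) : ℂ := 4 * Real.pi ^ 2 - (1 / 4 - ν ^ 2) / y ^ 2

lemma norm_qq_le (ν : ℂ) {a y : ℝ} (ha : 0 < a) (hy : a ≤ y) :
    ‖qq ν y‖ ≤ 4 * Real.pi ^ 2 + ‖(1 / 4 - ν ^ 2 : ℂ)‖ / a ^ 2 := by
  unfold qq
  refine (norm_sub_le _ _).trans (add_le_add ?_ ?_)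
  · have : (4 * (Real.pi : ℂ) ^ 2) = ((4 * Real.pi ^ 2 : ℝ) : ℂ) := by push_cast; rfl
    rw [this, Complex.norm_real, Real.norm_of_nonneg (by positivity)]
  · rw [norm_div, norm_pow, Complex.norm_real, Real.norm_of_nonneg (by linarith)]
    refine div_le_div_of_nonneg_left (norm_nonneg _) (by positivity) ?_
    exact pow_le_pow_left₀ ha.le hy 2

/-- ODE uniqueness -/
lemma ode_unique (ν : ℂ) {u u1 : ℝ → ℂ} (hu : ∀ y : ℝ, 0 < y → HasDerivAt u (u1 y) y)
    (hu1 : ∀ y : ℝ, 0 < y → HasDerivAt u1 (qq ν y * u y) y) {y0 : ℝ} (hy0 : 0 < y0)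
    (h0 : u y0 = 0) (h1 : u1 y0 = 0) {y : ℝ} (hy : 0 < y) : u y = 0 := by
  set a := min y y0 / 2 with ha
  set b := max y y0 + 1 with hb
  have ha0 : 0 < a := by rw [ha]; have := lt_min hy hy0; linarith
  set Q : ℝ := 4 * Real.pi ^ 2 + ‖(1 / 4 - ν ^ 2 : ℂ)‖ / a ^ 2 with hQ
  have hQ0 : 0 ≤ Q := by positivity
  let v : ℝ → ℂ × ℂ → ℂ × ℂ := fun t p => (p.2, qq ν t * p.1)
  have hmem : ∀ x, x = y ∨ x = y0 → x ∈ Ioo a b := by
    intro x hx
    constructor
    · rcases hx with rfl | rfl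
      · have := min_le_left x y0; rw [ha]; linarith
      · have := min_le_right y x; rw [ha]; linarith
    · rcases hx with rfl | rfl
      · have := le_max_left x y0; rw [hb]; linarith
      · have := le_max_right y x; rw [hb]; linarith
  have hv : ∀ t ∈ Ioo a b, LipschitzOnWith ⟨1 + Q, by linarith⟩ (v t) univ := by
    intro t ht
    refine LipschitzOnWith.of_dist_le_mul fun p _ p' _ => ?_
    change dist (v t p) (v t p') ≤ (1 + Q) * dist p p'
    have hd : 0 ≤ dist p p' := dist_nonneg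
    rw [Prod.dist_eq (x := v t p)]
    refine max_le ?_ ?_
    · change dist p.2 p'.2 ≤ _
      have : dist p.2 p'.2 ≤ dist p p' := by rw [Prod.dist_eq (x := p)]; exact le_max_right _ _
      nlinarith
    · change dist (qq ν t * p.1) (qq ν t * p'.1) ≤ _
      have h2 : dist p.1 p'.1 ≤ dist p p' := by rw [Prod.dist_eq (x := p)]; exact le_max_left _ _
      rw [dist_eq_norm, ← mul_sub, norm_mul, ← dist_eq_norm]
      have h3 := norm_qq_le ν ha0 ht.1.le
      calc ‖qq ν t‖ * dist p.1 p'.1 ≤ Q * dist p p' := mul_le_mul h3 h2 dist_nonneg hQ0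
        _ ≤ _ := by nlinarith
  have key := ODE_solution_unique_of_mem_Ioo (v := v) (s := fun _ => univ)
    (K := ⟨1 + Q, by linarith⟩) (f := fun t => (u t, u1 t)) (g := fun _ => (0, 0)) (a := a) (b := b)
    (t₀ := y0) hv (hmem y0 (Or.inr rfl)) ?_ ?_ ?_
  · have := key (hmem y (Or.inl rfl))
    exact congrArg Prod.fst this
  · intro t ht
    have ht0 : 0 < t := lt_trans ha0 ht.1
    exact ⟨(hu t ht0).prodMk (hu1 t ht0), mem_univ _⟩
  · intro t ht
    refine ⟨?_, mem_univ _⟩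
    have : v t (0, 0) = 0 := by simp [v]
    rw [this]
    exact hasDerivAt_const t _
  · rw [h0, h1]

/-- the bounded solution is a multiple of the Whittaker function -/
theorem whittaker_unique (ν : ℂ) {c c1 : ℝ → ℂ} (hc : ∀ y : ℝ, 0 < y → HasDerivAt c (c1 y) y)
    (hc1 : ∀ y : ℝ, 0 < y → HasDerivAt c1 (qq ν y * c y) y) {M : ℝ}
    (hM : ∀ y : ℝ, 0 < y → ‖c y‖ ≤ M) : ∃ C : ℂ, ∀ y : ℝ, 0 < y → c y = C * wB ν y := by
  have hpi := Real.pi_pos
  have hw : ∀ y : ℝ, 0 < y → HasDerivAt (wB ν) (wB1 ν y) y := fun y hy => hasDerivAt_wB ν hy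
  have hw1 : ∀ y : ℝ, 0 < y → HasDerivAt (wB1 ν) (qq ν y * wB ν y) y :=
    fun y hy => hasDerivAt_wB1 ν hy
  have hM0 : 0 ≤ M := (norm_nonneg _).trans (hM 1 one_pos)
  -- Wronskian
  let W : ℝ → ℂ := fun y => c y * wB1 ν y - c1 y * wB ν y
  have hW : ∀ y : ℝ, 0 < y → HasDerivAt W 0 y := by
    intro y hy
    have h := ((hc y hy).mul (hw1 y hy)).sub ((hc1 y hy).mul (hw y hy))
    refine h.congr_deriv ?_
    ring
  have hWconst : ∀ y : ℝ, 0 < y → W y = W 1 := by
    intro y hy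
    refine isOpen_Ioi.is_const_of_deriv_eq_zero (s := Ioi (0:ℝ)) isPreconnected_Ioi ?_ ?_
      (mem_Ioi.mpr hy) (mem_Ioi.mpr one_pos)
    · intro t ht
      exact (hW t ht).differentiableAt.differentiableWithinAt
    · intro t ht
      exact (hW t ht).deriv
  -- growth of c1
  set Q : ℝ := 4 * Real.pi ^ 2 + ‖(1 / 4 - ν ^ 2 : ℂ)‖ / 1 ^ 2 with hQ
  have hQ0 : 0 ≤ Q := by positivity
  have hc1b : ∀ y : ℝ, 1 ≤ y → ‖c1 y‖ ≤ ‖c1 1‖ + Q * M * (y - 1) := by
    intro y hy
    have h := (convex_Ici (1:ℝ)).norm_image_sub_le_of_norm_hasDerivWithin_le (f := c1)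
      (f' := fun y => qq ν y * c y) (C := Q * M)
      (fun x hx => (hc1 x (by have := mem_Ici.mp hx; linarith)).hasDerivWithinAt)
      (fun x hx => by
        have hx1 : 1 ≤ x := mem_Ici.mp hx
        rw [norm_mul]
        exact mul_le_mul (norm_qq_le ν one_pos hx1) (hM x (by linarith)) (norm_nonneg _) hQ0)
      (mem_Ici.mpr le_rfl) (mem_Ici.mpr hy)
    rw [Real.norm_of_nonneg (by linarith)] at h
    have h2 : ‖c1 y‖ ≤ ‖c1 1‖ + ‖c1 y - c1 1‖ := by
      have := norm_add_le (c1 1) (c1 y - c1 1)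
      rwa [add_sub_cancel] at this
    linarith
  obtain ⟨K, hK⟩ := wB_decay ν
  have hW0 : W 1 = 0 := by
    have hlim : Tendsto (fun y : ℝ => |K| * (M + ‖c1 1‖ + Q * M) * (y ^ 2 * Real.exp (-y))) atTop
        (𝓝 0) := by
      have := (Real.tendsto_pow_mul_exp_neg_atTop_nhds_zero 2).const_mul
        (|K| * (M + ‖c1 1‖ + Q * M))
      rwa [mul_zero] at this
    have hb : ∀ᶠ y : ℝ in atTop, ‖W 1‖ ≤ |K| * (M + ‖c1 1‖ + Q * M) * (y ^ 2 * Real.exp (-y)) := by
      filter_upwards [eventually_ge_atTop 1] with y hy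
      have hy0 : 0 < y := by linarith
      rw [← hWconst y hy0]
      obtain ⟨k1, k2⟩ := hK y hy
      have hE : Real.exp (-(2 * Real.pi * y)) ≤ Real.exp (-y) := by
        refine Real.exp_le_exp.mpr ?_
        have : 1 * y ≤ 2 * Real.pi * y := by
          refine mul_le_mul_of_nonneg_right ?_ hy0.le
          have := Real.pi_gt_three
          linarith
        linarith
      have hEp := Real.exp_pos (-y)
      have hKy : K * (y * Real.exp (-(2 * Real.pi * y))) ≤ |K| * (y * Real.exp (-y)) := by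
        refine mul_le_mul (le_abs_self K) ?_ (by positivity) (abs_nonneg K)
        exact mul_le_mul_of_nonneg_left hE hy0.le
      have k1' := k1.trans hKy
      have k2' := k2.trans hKy
      have hQM : 0 ≤ Q * M := mul_nonneg hQ0 hM0
      calc ‖W y‖ ≤ ‖c y‖ * ‖wB1 ν y‖ + ‖c1 y‖ * ‖wB ν y‖ := by
            refine (norm_sub_le _ _).trans ?_
            rw [norm_mul, norm_mul]
        _ ≤ M * (|K| * (y * Real.exp (-y)))
            + (‖c1 1‖ + Q * M * (y - 1)) * (|K| * (y * Real.exp (-y))) := by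
            refine add_le_add ?_ ?_
            · exact mul_le_mul (hM y hy0) k2' (norm_nonneg _) hM0
            · refine mul_le_mul (hc1b y hy) k1' (norm_nonneg _) ?_
              have : 0 ≤ y - 1 := by linarith
              positivity
        _ = (M + (‖c1 1‖ + Q * M * (y - 1))) * (|K| * (y * Real.exp (-y))) := by ring
        _ ≤ ((M + ‖c1 1‖ + Q * M) * y) * (|K| * (y * Real.exp (-y))) := by
            refine mul_le_mul_of_nonneg_right ?_ (by positivity)
            have h1 : M ≤ M * y := by nlinarith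
            have h2 : ‖c1 1‖ ≤ ‖c1 1‖ * y := by nlinarith [norm_nonneg (c1 1)]
            have h3 : Q * M * (y - 1) ≤ Q * M * y := by nlinarith
            nlinarith
        _ = _ := by ring
    have h0 : ‖W 1‖ ≤ 0 := ge_of_tendsto hlim hb
    exact norm_le_zero_iff.mp h0
  obtain ⟨y0, hy0, hwy⟩ := exists_wB_ne_zero ν
  refine ⟨c y0 / wB ν y0, fun y hy => ?_⟩
  have hW00 : c y0 * wB1 ν y0 - c1 y0 * wB ν y0 = 0 := by
    have := hWconst y0 hy0
    rw [hW0] at this
    exact this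
  set C := c y0 / wB ν y0 with hC
  have hun := ode_unique ν (u := fun y => c y - C * wB ν y) (u1 := fun y => c1 y - C * wB1 ν y)
    (fun y hy => (hc y hy).sub ((hw y hy).const_mul C))
    (fun y hy => ((hc1 y hy).sub ((hw1 y hy).const_mul C)).congr_deriv (by ring))
    hy0 (by rw [hC]; field_simp; ring) (by
      rw [hC]
      field_simp
      linear_combination -hW00) hy
  exact sub_eq_zero.mp hun

end

end Pool.Agent.V1143.Maass
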