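import Pool.Agent.V1143.Maass.Eigen
import Pool.Agent.V1143.Maass.Whit

/-! Fourier coefficients of smooth periodic functions on the upper half-plane. -/

namespace Pool.Agent.V1143.Maass

open MeasureTheory Filter Topology Set

noncomputable section

/-- the open upper half-plane as a subset of ℂ -/
def HH : Set ℂ := {z : ℂ | 0 < z.im}

lemma isOpen_HH : IsOpen HH := isOpen_lt continuous_const Complex.continuous_im

/-- smooth functions on the half-plane -/
def Sm (g : ℂ → ℂ) : Prop := ContDiffOn ℝ (⊤ : ℕ∞) g HH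

/-- directional derivative -/
def Dd (g : ℂ → ℂ) (e : ℂ) (z : ℂ) : ℂ := fderiv ℝ g z e

lemma Sm.dd {g : ℂ → ℂ} (hg : Sm g) (e : ℂ) : Sm (Dd g e) := by
  unfold Sm Dd
  have h : ContDiffOn ℝ (⊤ : ℕ∞) (fderiv ℝ g) HH :=
    hg.fderiv_of_isOpen isOpen_HH (by exact_mod_cast le_rfl)
  exact h.clm_apply contDiffOn_const

lemma Sm.diffAt {g : ℂ → ℂ} (hg : Sm g) {z : ℂ} (hz : z ∈ HH) : DifferentiableAt ℝ g z :=
  (hg.differentiableOn (by simp)).differentiableAt (isOpen_HH.mem_nhds hz)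

lemma Sm.contOn {g : ℂ → ℂ} (hg : Sm g) : ContinuousOn g HH := hg.continuousOn

lemma Sm.hasDerivAt {g : ℂ → ℂ} (hg : Sm g) (z e : ℂ) (t : ℝ) (hz : z + t * e ∈ HH) :
    HasDerivAt (fun s : ℝ => g (z + s * e)) (Dd g e (z + t * e)) t := by
  have h1 := (hg.diffAt hz).hasFDerivAt
  have h2 : HasDerivAt (fun s : ℝ => z + (s : ℂ) * e) (1 * e) t := by
    have := ((hasDerivAt_id t).ofReal_comp.mul_const e).const_add z
    simpa using this
  rw [one_mul] at h2
  exact h1.comp_hasDerivAt t h2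

/-- points -/
def pt (x y : ℝ) : ℂ := (x : ℂ) + y * Complex.I

lemma pt_im (x y : ℝ) : (pt x y).im = y := by simp [pt]

lemma pt_re (x y : ℝ) : (pt x y).re = x := by simp [pt]

lemma pt_mem {x y : ℝ} (hy : 0 < y) : pt x y ∈ HH := by
  change 0 < (pt x y).im
  rw [pt_im]; exact hy

lemma pt_eta (z : ℂ) : pt z.re z.im = z := by
  unfold pt; exact Complex.re_add_im z

lemma continuous_pt : Continuous (fun p : ℝ × ℝ => pt p.1 p.2) := by
  unfold pt
  fun_prop

/-- additive character -/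
def ex (x : ℝ) : ℂ := Complex.exp (2 * Real.pi * Complex.I * x)

lemma ex_add (x y : ℝ) : ex (x + y) = ex x * ex y := by
  unfold ex
  rw [← Complex.exp_add]
  congr 1
  push_cast
  ring

lemma ex_int (n : ℤ) : ex n = 1 := by
  unfold ex
  rw [Complex.exp_eq_one_iff]
  exact ⟨n, by push_cast; ring⟩

lemma norm_ex (x : ℝ) : ‖ex x‖ = 1 := by
  unfold ex
  rw [show (2 * Real.pi * Complex.I * x : ℂ) = ((2 * Real.pi * x : ℝ) : ℂ) * Complex.I by
    push_cast; ring]
  exact Complex.norm_exp_ofReal_mul_I _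

lemma ex_ne_zero (x : ℝ) : ex x ≠ 0 := Complex.exp_ne_zero _

@[fun_prop]
lemma continuous_ex : Continuous ex := by
  unfold ex
  fun_prop

lemma hasDerivAt_ex (c x : ℝ) :
    HasDerivAt (fun x : ℝ => ex (c * x)) (2 * Real.pi * Complex.I * c * ex (c * x)) x := by
  unfold ex
  have h1 : HasDerivAt (fun x : ℝ => 2 * Real.pi * Complex.I * (((c * x : ℝ)) : ℂ))
      (2 * Real.pi * Complex.I * ((c * 1 : ℝ) : ℂ)) x :=
    (((hasDerivAt_id x).const_mul c).ofReal_comp).const_mul _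
  refine h1.cexp.congr_deriv ?_
  push_cast
  ring

/-- Fourier coefficients -/
def cg (g : ℂ → ℂ) (n : ℤ) (y : ℝ) : ℂ := ∫ x in (0:ℝ)..1, g (pt x y) * ex (-n * x)

lemma cont_line {g : ℂ → ℂ} (hg : ContinuousOn g HH) {y : ℝ} (hy : 0 < y) :
    Continuous (fun x : ℝ => g (pt x y)) := by
  refine hg.comp_continuous ?_ fun x => pt_mem hy
  unfold pt; fun_prop

lemma cont_line' {g : ℂ → ℂ} (hg : ContinuousOn g HH) {y : ℝ} (hy : 0 < y) (n : ℤ) :
    Continuous (fun x : ℝ => g (pt x y) * ex (-n * x)) :=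
  (cont_line hg hy).mul (by fun_prop)

lemma hasDerivAt_cg {g : ℂ → ℂ} (hg : Sm g) (n : ℤ) {y : ℝ} (hy : 0 < y) :
    HasDerivAt (cg g n) (cg (Dd g Complex.I) n y) y := by
  have hK : IsCompact ((fun p : ℝ × ℝ => pt p.1 p.2) '' (Icc (0:ℝ) 1 ×ˢ Icc (y / 2) (2 * y))) :=
    (isCompact_Icc.prod isCompact_Icc).image continuous_pt
  have hsub : ((fun p : ℝ × ℝ => pt p.1 p.2) '' (Icc (0:ℝ) 1 ×ˢ Icc (y / 2) (2 * y))) ⊆ HH := by
    rintro _ ⟨⟨x, t⟩, ⟨_, ht⟩, rfl⟩
    exact pt_mem (by have := ht.1; simp only at this; linarith)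
  obtain ⟨C, hC⟩ := hK.exists_bound_of_continuousOn ((hg.dd Complex.I).contOn.mono hsub)
  have key := intervalIntegral.hasDerivAt_integral_of_dominated_loc_of_deriv_le
    (μ := volume) (a := 0) (b := 1) (x₀ := y) (s := Ioo (y / 2) (2 * y)) (bound := fun _ => C)
    (F := fun t x => g (pt x t) * ex (-n * x))
    (F' := fun t x => Dd g Complex.I (pt x t) * ex (-n * x))
    (Ioo_mem_nhds (by linarith) (by linarith)) ?_ ?_ ?_ ?_ ?_ ?_
  · exact key.2
  · filter_upwards [eventually_gt_nhds hy] with t ht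
    exact (cont_line' hg.contOn ht n).aestronglyMeasurable
  · exact (cont_line' hg.contOn hy n).intervalIntegrable _ _
  · exact (cont_line' (hg.dd Complex.I).contOn hy n).aestronglyMeasurable
  · refine Filter.Eventually.of_forall fun x hx t ht => ?_
    rw [norm_mul, norm_ex, mul_one]
    refine hC _ ⟨(x, t), ⟨?_, ?_⟩, rfl⟩
    · rw [uIoc_of_le zero_le_one] at hx
      exact ⟨hx.1.le, hx.2⟩
    · exact ⟨ht.1.le, ht.2.le⟩
  · exact intervalIntegrable_const
  · refine Filter.Eventually.of_forall fun x hx t ht => ?_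
    have ht0 : 0 < t := by have := ht.1; linarith
    have h1 := hg.hasDerivAt (x : ℂ) Complex.I t (pt_mem ht0)
    exact h1.mul_const _

lemma pt_add_one (x y : ℝ) : pt (x + 1) y = pt x y + 1 := by
  unfold pt; push_cast; ring

lemma cg_dx {g : ℂ → ℂ} (hg : Sm g) (hp : ∀ z ∈ HH, g (z + 1) = g z) (n : ℤ) {y : ℝ} (hy : 0 < y) :
    cg (Dd g 1) n y = 2 * Real.pi * Complex.I * n * cg g n y := by
  have hd : ∀ x ∈ uIcc (0:ℝ) 1, HasDerivAt (fun x : ℝ => g (pt x y) * ex (-n * x))
      (Dd g 1 (pt x y) * ex (-n * x) + g (pt x y) * (2 * Real.pi * Complex.I * (-n : ℝ) *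
        ex (-n * x))) x := by
    intro x _
    have h1 : HasDerivAt (fun x : ℝ => g (pt x y)) (Dd g 1 (pt x y)) x := by
      have e : (fun x : ℝ => g (pt x y)) = fun s : ℝ => g (y * Complex.I + s * 1) := by
        ext s; unfold pt; congr 1; ring
      have e2 : pt x y = y * Complex.I + x * 1 := by unfold pt; ring
      rw [e, e2]
      exact hg.hasDerivAt _ 1 x (by rw [← e2]; exact pt_mem hy)
    exact h1.mul (hasDerivAt_ex (-n) x)
  have hc1 := cont_line' (hg.dd 1).contOn hy n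
  have hc2 : Continuous (fun x : ℝ => g (pt x y) * (2 * Real.pi * Complex.I * (-n : ℝ) *
        ex (-n * x))) := (cont_line hg.contOn hy).mul (by fun_prop)
  have hint := intervalIntegral.integral_eq_sub_of_hasDerivAt hd
    ((hc1.add hc2).intervalIntegrable _ _)
  rw [intervalIntegral.integral_add (hc1.intervalIntegrable _ _) (hc2.intervalIntegrable _ _)]
    at hint
  have e1 : g (pt 1 y) * ex (-n * 1) = g (pt 0 y) * ex (-n * 0) := by
    have h2 : pt 1 y = pt 0 y + 1 := by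
      have := pt_add_one 0 y
      rwa [zero_add] at this
    rw [h2, hp _ (pt_mem hy)]
    congr 1
    have h3 := ex_int (-n)
    push_cast at h3
    rw [mul_one, h3, mul_zero]
    have := ex_int 0
    simpa using this.symm
  rw [e1, sub_self] at hint
  have e2 : ∫ x in (0:ℝ)..1, g (pt x y) * (2 * Real.pi * Complex.I * (-n : ℝ) * ex (-n * x))
      = -(2 * Real.pi * Complex.I * n) * cg g n y := by
    unfold cg
    rw [← intervalIntegral.integral_const_mul]
    congr 1
    ext x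
    push_cast
    ring
  rw [e2] at hint
  unfold cg at hint ⊢
  linear_combination hint

lemma dd_per {g : ℂ → ℂ} (hp : ∀ z ∈ HH, g (z + 1) = g z) (e : ℂ) :
    ∀ z ∈ HH, Dd g e (z + 1) = Dd g e z := by
  intro z hz
  unfold Dd
  have h1 : (fun w => g (w + 1)) =ᶠ[𝓝 z] g := by
    filter_upwards [isOpen_HH.mem_nhds hz] with w hw
    exact hp w hw
  have h2 := h1.fderiv_eq (𝕜 := ℝ)
  rw [fderiv_comp_add_right] at h2
  rw [h2]

end

end Pool.Agent.V1143.Maass
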