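import Pool.Agent.V1143.Maass.Kernel

/-! The action of `GL(2, ℤ)` on the upper half-plane and unfolding. -/

namespace Pool.Agent.V1143.Maass

open UpperHalfPlane MeasureTheory Matrix Modular
open scoped MatrixGroups ENNReal

noncomputable section

/-- inclusion of integral matrices -/
def toR : GL (Fin 2) ℤ →* GL (Fin 2) ℝ := Matrix.GeneralLinearGroup.map (Int.castRingHom ℝ)

lemma toR_apply (γ : GL (Fin 2) ℤ) (i j : Fin 2) : (toR γ) i j = ((γ i j : ℤ) : ℝ) := rfl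

/-- the action -/
def act (γ : GL (Fin 2) ℤ) (z : ℍ) : ℍ := toR γ • z

lemma act_mul (γ δ : GL (Fin 2) ℤ) (z : ℍ) : act (γ * δ) z = act γ (act δ z) := by
  unfold act; rw [map_mul, mul_smul]

lemma act_one (z : ℍ) : act 1 z = z := by
  unfold act; rw [map_one, one_smul]

lemma act_inv_act (γ : GL (Fin 2) ℤ) (z : ℍ) : act γ⁻¹ (act γ z) = z := by
  rw [← act_mul, inv_mul_cancel, act_one]

lemma act_act_inv (γ : GL (Fin 2) ℤ) (z : ℍ) : act γ (act γ⁻¹ z) = z := by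
  rw [← act_mul, mul_inv_cancel, act_one]

/-- determinant as an integer sign -/
def dt (γ : GL (Fin 2) ℤ) : ℝ := ((γ.det.val : ℤ) : ℝ)

lemma dt_mul (γ δ : GL (Fin 2) ℤ) : dt (γ * δ) = dt γ * dt δ := by
  simp [dt]

lemma dt_one : dt 1 = 1 := by simp [dt]

lemma dt_cases (γ : GL (Fin 2) ℤ) : dt γ = 1 ∨ dt γ = -1 := by
  rcases Int.units_eq_one_or γ.det with h | h
  · left; simp [dt, h]
  · right; simp [dt, h]

lemma dt_inv (γ : GL (Fin 2) ℤ) : dt γ⁻¹ = dt γ := by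
  have h : dt γ⁻¹ * dt γ = 1 := by rw [← dt_mul, inv_mul_cancel, dt_one]
  rcases dt_cases γ with h1 | h1 <;> rw [h1] at h ⊢ <;> linarith

lemma dt_sq (γ : GL (Fin 2) ℤ) : dt γ * dt γ = 1 := by
  rcases dt_cases γ with h1 | h1 <;> rw [h1] <;> norm_num

lemma abs_dt (γ : GL (Fin 2) ℤ) : |dt γ| = 1 := by
  rcases dt_cases γ with h1 | h1 <;> rw [h1] <;> simp

lemma det_toR (γ : GL (Fin 2) ℤ) : (toR γ).det.val = dt γ := by
  rw [Matrix.GeneralLinearGroup.val_det_apply, dt, Matrix.GeneralLinearGroup.val_det_apply,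
    Matrix.det_fin_two, Matrix.det_fin_two]
  push_cast
  rfl

lemma abs_det_toR (γ : GL (Fin 2) ℤ) : |(toR γ).det.val| = 1 := by
  rw [det_toR, abs_dt]

lemma im_act (γ : GL (Fin 2) ℤ) (z : ℍ) :
    (act γ z).im = z.im / ‖denom (toR γ) z‖ ^ 2 := by
  unfold act
  rw [im_smul_eq_div_normSq, abs_det_toR, one_mul, Complex.normSq_eq_norm_sq]

lemma norm_act (γ : GL (Fin 2) ℤ) (z : ℍ) :
    ‖((act γ z : ℍ) : ℂ)‖ = ‖num (toR γ) z‖ / ‖denom (toR γ) z‖ := by
  unfold act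
  rw [UpperHalfPlane.coe_smul, norm_σ, norm_div]

lemma dist_act (γ : GL (Fin 2) ℤ) (z w : ℍ) : dist (act γ z) (act γ w) = dist z w :=
  dist_smul_gl _ _ _

lemma sg_act (γ : GL (Fin 2) ℤ) (z w : ℍ) : sg (act γ z) (act γ w) = sg z w :=
  sg_smul _ _ _

/-- a compact box -/
def Box (X Y : ℝ) : Set ℍ := {z | |z.re| ≤ X ∧ Y⁻¹ ≤ z.im ∧ z.im ≤ Y}

lemma norm_le_box {X Y : ℝ} {z : ℍ} (h : z ∈ Box X Y) : ‖(z : ℂ)‖ ≤ X + Y := by
  have h1 := Complex.norm_le_abs_re_add_abs_im (z : ℂ)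
  have h2 : |(z : ℂ).re| ≤ X := h.1
  have h3 : |(z : ℂ).im| ≤ Y := by
    change |z.im| ≤ Y
    rw [abs_of_pos z.im_pos]; exact h.2.2
  linarith

lemma lin_bound {Y : ℝ} (hY : 0 < Y) {a b : ℝ} {z : ℍ} (hz : Y⁻¹ ≤ z.im) {N R : ℝ}
    (hN : ‖(a : ℂ) * z + b‖ ≤ N) (hR : ‖(z : ℂ)‖ ≤ R) :
    |a| ≤ N * Y ∧ |b| ≤ N + N * Y * R := by
  have h1 : |a| * z.im ≤ N := by
    have := Complex.abs_im_le_norm ((a : ℂ) * z + b)
    have e : ((a : ℂ) * z + b).im = a * z.im := by simp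
    rw [e, abs_mul, abs_of_pos z.im_pos] at this
    linarith
  have hN0 : 0 ≤ N := le_trans (norm_nonneg _) hN
  have h2 : |a| ≤ N * Y := by
    have h3 : |a| * Y⁻¹ ≤ N := le_trans (mul_le_mul_of_nonneg_left hz (abs_nonneg a)) h1
    calc |a| = |a| * Y⁻¹ * Y := by field_simp
      _ ≤ N * Y := mul_le_mul_of_nonneg_right h3 hY.le
  refine ⟨h2, ?_⟩
  have h4 : ‖(b : ℂ)‖ ≤ N + |a| * R := by
    have e : (b : ℂ) = ((a : ℂ) * z + b) - (a : ℂ) * z := by ring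
    calc ‖(b : ℂ)‖ = ‖((a : ℂ) * z + b) - (a : ℂ) * z‖ := by rw [← e]
      _ ≤ ‖(a : ℂ) * z + b‖ + ‖(a : ℂ) * z‖ := norm_sub_le _ _
      _ ≤ N + |a| * R := by
        rw [norm_mul, Complex.norm_real, Real.norm_eq_abs]
        gcongr
  rw [Complex.norm_real, Real.norm_eq_abs] at h4
  have hR0 : 0 ≤ R := le_trans (norm_nonneg _) hR
  have : |a| * R ≤ N * Y * R := mul_le_mul_of_nonneg_right h2 hR0
  linarith

lemma finite_entries (M : ℤ) : {γ : GL (Fin 2) ℤ | ∀ i j, |(γ i j : ℤ)| ≤ M}.Finite := by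
  have h1 : (Set.Icc (fun _ _ => -M : Fin 2 → Fin 2 → ℤ) (fun _ _ => M)).Finite :=
    Set.finite_Icc _ _
  refine Set.Finite.of_finite_image (f := fun γ : GL (Fin 2) ℤ => (fun i j => γ i j)) ?_ ?_
  · refine h1.subset ?_
    rintro _ ⟨γ, hγ, rfl⟩
    constructor
    · intro i j; exact (abs_le.mp (hγ i j)).1
    · intro i j; exact (abs_le.mp (hγ i j)).2
  · intro γ _ δ _ h
    ext i j
    exact congrFun (congrFun h i) j

lemma finite_box (X Y : ℝ) (hY : 0 < Y) :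
    ∃ S : Finset (GL (Fin 2) ℤ), ∀ γ, ∀ w ∈ Box X Y, act γ w ∈ Box X Y → γ ∈ S := by
  obtain ⟨M, hM⟩ := exists_int_gt
    (max (max (Y * Y) (Y + Y * Y * (X + Y))) (max ((X + Y) * Y * Y)
      ((X + Y) * Y + (X + Y) * Y * Y * (X + Y))))
  refine ⟨(finite_entries M).toFinset, ?_⟩
  intro γ w hw hγ
  rw [Set.Finite.mem_toFinset]
  have hn := norm_le_box hw
  have hn' := norm_le_box hγ
  have hdp : 0 < ‖denom (toR γ) w‖ := norm_pos_iff.mpr (denom_ne_zero _ w)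
  have hd : ‖denom (toR γ) w‖ ≤ Y := by
    have h1 := im_act γ w
    have h2 := hγ.2.1
    rw [h1, le_div_iff₀ (by positivity)] at h2
    have h3 : ‖denom (toR γ) w‖ ^ 2 ≤ Y * w.im := by
      calc ‖denom (toR γ) w‖ ^ 2 = Y * (Y⁻¹ * ‖denom (toR γ) w‖ ^ 2) := by field_simp
        _ ≤ Y * w.im := mul_le_mul_of_nonneg_left h2 hY.le
    have h4 : ‖denom (toR γ) w‖ ^ 2 ≤ Y ^ 2 := by
      have := mul_le_mul_of_nonneg_left hw.2.2 hY.le
      nlinarith
    exact (pow_le_pow_iff_left₀ hdp.le hY.le (by norm_num)).mp h4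
  have hnum : ‖num (toR γ) w‖ ≤ (X + Y) * Y := by
    have h1 := norm_act γ w
    rw [h1, div_le_iff₀ hdp] at hn'
    have hXY : 0 ≤ X + Y := le_trans (norm_nonneg _) hn
    calc ‖num (toR γ) w‖ ≤ (X + Y) * ‖denom (toR γ) w‖ := hn'
      _ ≤ (X + Y) * Y := mul_le_mul_of_nonneg_left hd hXY
  have e1 : num (toR γ) (w : ℂ) = (((γ 0 0 : ℤ) : ℝ) : ℂ) * w + (((γ 0 1 : ℤ) : ℝ) : ℂ) := rfl
  have e2 : denom (toR γ) (w : ℂ) = (((γ 1 0 : ℤ) : ℝ) : ℂ) * w + (((γ 1 1 : ℤ) : ℝ) : ℂ) := rfl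
  rw [e1] at hnum
  rw [e2] at hd
  obtain ⟨ha, hb⟩ := lin_bound hY hw.2.1 hnum hn
  obtain ⟨hc, hd'⟩ := lin_bound hY hw.2.1 hd hn
  have m1 := le_max_left (max (Y * Y) (Y + Y * Y * (X + Y))) (max ((X + Y) * Y * Y)
      ((X + Y) * Y + (X + Y) * Y * Y * (X + Y)))
  have m2 := le_max_right (max (Y * Y) (Y + Y * Y * (X + Y))) (max ((X + Y) * Y * Y)
      ((X + Y) * Y + (X + Y) * Y * Y * (X + Y)))
  have m3 := le_max_left (Y * Y) (Y + Y * Y * (X + Y))
  have m4 := le_max_right (Y * Y) (Y + Y * Y * (X + Y))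
  have m5 := le_max_left ((X + Y) * Y * Y) ((X + Y) * Y + (X + Y) * Y * Y * (X + Y))
  have m6 := le_max_right ((X + Y) * Y * Y) ((X + Y) * Y + (X + Y) * Y * Y * (X + Y))
  intro i j
  have key : (|((γ i j : ℤ) : ℝ)|) ≤ (M : ℝ) := by
    fin_cases i <;> fin_cases j
    · change |((γ 0 0 : ℤ) : ℝ)| ≤ (M : ℝ)
      linarith
    · change |((γ 0 1 : ℤ) : ℝ)| ≤ (M : ℝ)
      linarith
    · change |((γ 1 0 : ℤ) : ℝ)| ≤ (M : ℝ)
      linarith
    · change |((γ 1 1 : ℤ) : ℝ)| ≤ (M : ℝ)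
      linarith
  exact_mod_cast key

lemma continuous_act (γ : GL (Fin 2) ℤ) : Continuous (act γ) := by
  unfold act; exact continuous_const_smul _

lemma measurable_act (γ : GL (Fin 2) ℤ) : Measurable (act γ) := (continuous_act γ).measurable

lemma measurePreserving_act (γ : GL (Fin 2) ℤ) :
    MeasurePreserving (act γ) (volume : Measure ℍ) volume := by
  unfold act; exact measurePreserving_smul _ _

lemma measurableEmbedding_act (γ : GL (Fin 2) ℤ) : MeasurableEmbedding (act γ) := by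
  unfold act; exact (Homeomorph.smul (toR γ)).measurableEmbedding

instance countable_GLZ : Countable (GL (Fin 2) ℤ) := by
  have : Function.Injective (fun γ : GL (Fin 2) ℤ => (fun i j => γ i j : Fin 2 → Fin 2 → ℤ)) := by
    intro γ δ h
    ext i j
    exact congrFun (congrFun h i) j
  exact this.countable

/-- number of translates in the standard domain -/
def nn (z : ℍ) : ℝ≥0∞ := ∑' γ : GL (Fin 2) ℤ, Set.indicator 𝒟 (fun _ => (1 : ℝ≥0∞)) (act γ z)

lemma measurable_fd : MeasurableSet 𝒟 := ModularGroup.isClosed_fd.measurableSet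

lemma measurable_nn : Measurable nn := by
  unfold nn
  refine Measurable.ennreal_tsum fun γ => ?_
  exact (measurable_const.indicator measurable_fd).comp (measurable_act γ)

lemma nn_act (δ : GL (Fin 2) ℤ) (z : ℍ) : nn (act δ z) = nn z := by
  unfold nn
  rw [← (Equiv.mulRight δ).tsum_eq (fun γ => Set.indicator 𝒟 (fun _ => (1 : ℝ≥0∞)) (act γ z))]
  simp [act_mul]

/-- SL to GL -/
def slgl : SL(2, ℤ) →* GL (Fin 2) ℤ := Matrix.SpecialLinearGroup.toGL

lemma act_slgl (g : SL(2, ℤ)) (z : ℍ) : act (slgl g) z = g • z := by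
  unfold act slgl toR
  rfl

lemma dt_slgl (g : SL(2, ℤ)) : dt (slgl g) = 1 := by
  unfold dt slgl
  simp

lemma one_le_nn (z : ℍ) : 1 ≤ nn z := by
  obtain ⟨g, hg⟩ := ModularGroup.exists_smul_mem_fd z
  have : Set.indicator 𝒟 (fun _ => (1 : ℝ≥0∞)) (act (slgl g) z) = 1 := by
    rw [act_slgl]
    exact Set.indicator_of_mem hg _
  calc (1 : ℝ≥0∞) = Set.indicator 𝒟 (fun _ => (1 : ℝ≥0∞)) (act (slgl g) z) := this.symm
    _ ≤ nn z := ENNReal.le_tsum _

lemma im_fd {z : ℍ} (hz : z ∈ 𝒟) : 1 / 2 ≤ z.im := by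
  have := ModularGroup.three_le_four_mul_im_sq_of_mem_fd hz
  nlinarith [z.im_pos]

lemma re_fd {z : ℍ} (hz : z ∈ 𝒟) : |z.re| ≤ 1 / 2 := hz.2

lemma det_val_eq (γ : GL (Fin 2) ℤ) :
    (γ 0 0 : ℤ) * γ 1 1 - γ 0 1 * γ 1 0 = γ.det.val := by
  rw [Matrix.GeneralLinearGroup.val_det_apply, Matrix.det_fin_two]

lemma c_zero_entries {γ : GL (Fin 2) ℤ} (hc : (γ 1 0 : ℤ) = 0) :
    ((γ 0 0 : ℤ) = 1 ∨ (γ 0 0 : ℤ) = -1) ∧ ((γ 1 1 : ℤ) = 1 ∨ (γ 1 1 : ℤ) = -1) := by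
  have h := det_val_eq γ
  rw [hc, mul_zero, sub_zero] at h
  have hu : IsUnit ((γ 0 0 : ℤ) * γ 1 1) := by
    rw [h]; exact γ.det.isUnit
  have h1 := isUnit_of_mul_isUnit_left hu
  have h2 := isUnit_of_mul_isUnit_right hu
  exact ⟨Int.isUnit_iff.mp h1, Int.isUnit_iff.mp h2⟩

lemma denom_eq (γ : GL (Fin 2) ℤ) (z : ℍ) :
    denom (toR γ) (z : ℂ) = (((γ 1 0 : ℤ) : ℝ) : ℂ) * z + (((γ 1 1 : ℤ) : ℝ) : ℂ) := rfl

lemma num_eq (γ : GL (Fin 2) ℤ) (z : ℍ) :
    num (toR γ) (z : ℂ) = (((γ 0 0 : ℤ) : ℝ) : ℂ) * z + (((γ 0 1 : ℤ) : ℝ) : ℂ) := rfl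

lemma norm_denom_c_zero {γ : GL (Fin 2) ℤ} (hc : (γ 1 0 : ℤ) = 0) (z : ℍ) :
    ‖denom (toR γ) (z : ℂ)‖ = 1 := by
  rw [denom_eq, hc]
  rcases (c_zero_entries hc).2 with h | h <;> rw [h] <;> simp

lemma im_le_norm_denom {γ : GL (Fin 2) ℤ} (hc : (γ 1 0 : ℤ) ≠ 0) (z : ℍ) :
    z.im ≤ ‖denom (toR γ) (z : ℂ)‖ := by
  have h := Complex.abs_im_le_norm (denom (toR γ) (z : ℂ))
  have e : (denom (toR γ) (z : ℂ)).im = (((γ 1 0 : ℤ) : ℝ)) * z.im := by
    rw [denom_eq]; simp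
  rw [e, abs_mul, abs_of_pos z.im_pos] at h
  have h1 : (1 : ℝ) ≤ |((γ 1 0 : ℤ) : ℝ)| := by
    have := Int.one_le_abs hc
    exact_mod_cast this
  nlinarith [z.im_pos]

lemma im_act_c_ne {γ : GL (Fin 2) ℤ} (hc : (γ 1 0 : ℤ) ≠ 0) (z : ℍ) :
    (act γ z).im * z.im ≤ 1 := by
  have hz := z.im_pos
  have h := im_le_norm_denom hc z
  have hdp : 0 < ‖denom (toR γ) z‖ := norm_pos_iff.mpr (denom_ne_zero _ z)
  rw [im_act, div_mul_eq_mul_div, div_le_one (by positivity)]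
  nlinarith

lemma im_act_c_zero {γ : GL (Fin 2) ℤ} (hc : (γ 1 0 : ℤ) = 0) (z : ℍ) :
    (act γ z).im = z.im := by
  rw [im_act, norm_denom_c_zero hc]; simp

lemma im_act_le (γ : GL (Fin 2) ℤ) (z : ℍ) : (act γ z).im ≤ max z.im z.im⁻¹ := by
  have hz := z.im_pos
  by_cases hc : (γ 1 0 : ℤ) = 0
  · rw [im_act_c_zero hc]; exact le_max_left _ _
  · have h := im_act_c_ne hc z
    refine le_trans ?_ (le_max_right _ _)
    rw [← one_div, le_div_iff₀ hz]
    exact h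

lemma finite_fd (z : ℍ) : ∃ S : Finset (GL (Fin 2) ℤ), ∀ γ, act γ z ∈ 𝒟 → γ ∈ S := by
  have hz := z.im_pos
  set Y := max z.im z.im⁻¹ + 2 with hY
  have hYz : z.im ≤ Y := by
    have := le_max_left z.im z.im⁻¹; linarith
  have hYz' : z.im⁻¹ ≤ Y := by
    have := le_max_right z.im z.im⁻¹; linarith
  have hY2 : 2 ≤ Y := by
    have := le_max_left z.im z.im⁻¹; linarith
  have hY0 : 0 < Y := by linarith
  obtain ⟨S, hS⟩ := finite_box (|z.re| + 1 / 2) Y hY0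
  refine ⟨S, fun γ hγ => hS γ z ⟨by linarith [abs_nonneg z.re], ?_, hYz⟩ ⟨?_, ?_, ?_⟩⟩
  · exact inv_le_of_inv_le₀ hz hYz'
  · have := re_fd hγ
    linarith [abs_nonneg z.re]
  · have := im_fd hγ
    have h2 : Y⁻¹ ≤ 2⁻¹ := inv_anti₀ (by norm_num) hY2
    linarith
  · have := im_act_le γ z
    linarith

lemma nn_ne_top (z : ℍ) : nn z ≠ ∞ := by
  obtain ⟨S, hS⟩ := finite_fd z
  unfold nn
  rw [tsum_eq_sum (s := S)]
  · refine (ENNReal.sum_lt_top.mpr fun γ _ => ?_).ne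
    refine lt_of_le_of_lt (Set.indicator_le_self' (fun _ _ => by simp) _) (by simp)
  · intro γ hγ
    refine Set.indicator_of_notMem (fun h => hγ (hS γ h)) _

/-- weight -/
def rho (z : ℍ) : ℝ≥0∞ := Set.indicator 𝒟 (fun z => (nn z)⁻¹) z

lemma measurable_rho : Measurable rho := measurable_nn.inv.indicator measurable_fd

lemma tsum_rho (z : ℍ) : ∑' γ : GL (Fin 2) ℤ, rho (act γ z) = 1 := by
  have h : ∀ γ : GL (Fin 2) ℤ, rho (act γ z)
      = (nn z)⁻¹ * Set.indicator 𝒟 (fun _ => (1 : ℝ≥0∞)) (act γ z) := by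
    intro γ
    unfold rho
    by_cases hγ : act γ z ∈ 𝒟
    · rw [Set.indicator_of_mem hγ, Set.indicator_of_mem hγ, nn_act, mul_one]
    · rw [Set.indicator_of_notMem hγ, Set.indicator_of_notMem hγ, mul_zero]
  simp_rw [h]
  rw [ENNReal.tsum_mul_left]
  change (nn z)⁻¹ * nn z = 1
  refine ENNReal.inv_mul_cancel ?_ (nn_ne_top z)
  exact (lt_of_lt_of_le zero_lt_one (one_le_nn z)).ne'

/-- the measure on the fundamental domain -/
def nu : Measure ℍ := (volume : Measure ℍ).withDensity rho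

lemma lintegral_unfold (h : ℍ → ℝ≥0∞) (hh : Measurable h) :
    ∫⁻ z, h z = ∫⁻ z, ∑' γ : GL (Fin 2) ℤ, h (act γ z) ∂nu := by
  have e1 : ∀ z, h z = ∑' γ : GL (Fin 2) ℤ, rho (act γ z) * h z := by
    intro z
    rw [ENNReal.tsum_mul_right, tsum_rho, one_mul]
  calc ∫⁻ z, h z = ∫⁻ z, ∑' γ : GL (Fin 2) ℤ, rho (act γ z) * h z := by
        exact lintegral_congr e1
    _ = ∑' γ : GL (Fin 2) ℤ, ∫⁻ z, rho (act γ z) * h z := by
        rw [lintegral_tsum]
        intro γ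
        exact ((measurable_rho.comp (measurable_act γ)).mul hh).aemeasurable
    _ = ∑' γ : GL (Fin 2) ℤ, ∫⁻ z, rho z * h (act γ⁻¹ z) := by
        congr 1
        ext γ
        have := (measurePreserving_act γ).lintegral_comp
          (f := fun z => rho z * h (act γ⁻¹ z))
          (measurable_rho.mul (hh.comp (measurable_act γ⁻¹)))
        simp only [act_inv_act] at this
        exact this
    _ = ∑' γ : GL (Fin 2) ℤ, ∫⁻ z, rho z * h (act γ z) := by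
        rw [← (Equiv.inv (GL (Fin 2) ℤ)).tsum_eq (fun γ => ∫⁻ z, rho z * h (act γ z))]
        simp
    _ = ∫⁻ z, rho z * ∑' γ : GL (Fin 2) ℤ, h (act γ z) := by
        rw [← lintegral_tsum]
        · simp_rw [ENNReal.tsum_mul_left]
        · intro γ
          exact (measurable_rho.mul (hh.comp (measurable_act γ))).aemeasurable
    _ = ∫⁻ z, ∑' γ : GL (Fin 2) ℤ, h (act γ z) ∂nu := by
        unfold nu
        rw [lintegral_withDensity_eq_lintegral_mul _ measurable_rho]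
        · rfl
        · refine Measurable.ennreal_tsum fun γ => hh.comp (measurable_act γ)

lemma volume_strip_lt_top : (volume : Measure ℍ) {z : ℍ | |z.re| ≤ 1 / 2 ∧ 1 / 2 ≤ z.im} < ∞ := by
  rw [volume_eq_lintegral]
  set A : Set ℂ := {z : ℂ | z.re ∈ Set.Icc (-(1/2) : ℝ) (1/2) ∧ z.im ∈ Set.Ici (1/2 : ℝ)} with hA
  have hsub : (UpperHalfPlane.coe '' {z : ℍ | |z.re| ≤ 1 / 2 ∧ 1 / 2 ≤ z.im}) ⊆ A := by
    rintro _ ⟨z, ⟨h1, h2⟩, rfl⟩
    exact ⟨abs_le.mp h1, h2⟩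
  refine lt_of_le_of_lt (lintegral_mono_set hsub) ?_
  have hmp := Complex.volume_preserving_equiv_real_prod
  have hpre : A = Complex.measurableEquivRealProd ⁻¹'
      (Set.Icc (-(1/2) : ℝ) (1/2) ×ˢ Set.Ici (1/2 : ℝ)) := by
    ext z; rfl
  have e : ∫⁻ z in A, (((1 / ‖z.im‖₊) ^ 2 : NNReal) : ℝ≥0∞)
      = ∫⁻ p in (Set.Icc (-(1/2) : ℝ) (1/2) ×ˢ Set.Ici (1/2 : ℝ)),
          (((1 / ‖p.2‖₊) ^ 2 : NNReal) : ℝ≥0∞) := by
    rw [hpre]
    exact hmp.setLIntegral_comp_preimage_emb Complex.measurableEquivRealProd.measurableEmbedding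
      (fun p : ℝ × ℝ => (((1 / ‖p.2‖₊) ^ 2 : NNReal) : ℝ≥0∞)) _
  rw [e, Measure.volume_eq_prod, ← Measure.prod_restrict]
  have hm : Measurable (fun y : ℝ => (((1 / ‖y‖₊) ^ 2 : NNReal) : ℝ≥0∞)) := by
    fun_prop
  rw [lintegral_prod (fun p : ℝ × ℝ => (((1 / ‖p.2‖₊) ^ 2 : NNReal) : ℝ≥0∞))
    (hm.comp measurable_snd).aemeasurable]
  simp only [lintegral_const]
  refine ENNReal.mul_lt_top ?_ (by simp)
  have hi : IntegrableOn (fun y : ℝ => y ^ (-2 : ℝ)) (Set.Ici (1/2 : ℝ)) := by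
    rw [integrableOn_Ici_iff_integrableOn_Ioi]
    exact integrableOn_Ioi_rpow_of_lt (by norm_num) (by norm_num)
  have h2 := hi.2
  refine lt_of_le_of_lt (le_of_eq ?_) h2
  refine setLIntegral_congr_fun measurableSet_Ici ?_
  intro y hy
  have hy0 : (0:ℝ) < y := by
    have : (1/2 : ℝ) ≤ y := hy
    linarith
  simp only [enorm_eq_nnnorm]
  congr 1
  ext
  simp only [NNReal.coe_pow, NNReal.coe_div, NNReal.coe_one, coe_nnnorm]
  rw [Real.norm_of_nonneg hy0.le, Real.norm_of_nonneg (Real.rpow_nonneg hy0.le _),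
    Real.rpow_neg hy0.le]
  norm_num

lemma rho_le_one (z : ℍ) : rho z ≤ Set.indicator 𝒟 (fun _ => (1 : ℝ≥0∞)) z := by
  unfold rho
  by_cases hz : z ∈ 𝒟
  · rw [Set.indicator_of_mem hz, Set.indicator_of_mem hz]
    exact ENNReal.inv_le_one.mpr (one_le_nn z)
  · rw [Set.indicator_of_notMem hz]; simp

lemma nu_le (s : Set ℍ) : nu s ≤ (volume : Measure ℍ) s := by
  unfold nu
  calc (volume : Measure ℍ).withDensity rho s
      ≤ (volume : Measure ℍ).withDensity (fun _ => 1) s := by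
        refine withDensity_mono (Filter.Eventually.of_forall fun z => ?_) s
        refine (rho_le_one z).trans ?_
        exact Set.indicator_le_self' (fun _ _ => by simp) _
    _ = (volume : Measure ℍ) s := by
        change (volume : Measure ℍ).withDensity 1 s = _
        rw [withDensity_one]

lemma nu_univ_lt_top : nu Set.univ < ∞ := by
  unfold nu
  rw [withDensity_apply _ MeasurableSet.univ, Measure.restrict_univ]
  calc ∫⁻ z, rho z ≤ ∫⁻ z, Set.indicator 𝒟 (fun _ => (1 : ℝ≥0∞)) z := lintegral_mono rho_le_one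
    _ = (volume : Measure ℍ) 𝒟 := by
        rw [lintegral_indicator measurable_fd]; simp
    _ ≤ (volume : Measure ℍ) {z : ℍ | |z.re| ≤ 1 / 2 ∧ 1 / 2 ≤ z.im} :=
        measure_mono fun z hz => ⟨re_fd hz, im_fd hz⟩
    _ < ∞ := volume_strip_lt_top

instance nu_finite : IsFiniteMeasure nu := ⟨nu_univ_lt_top⟩

lemma integral_unfold (h : ℍ → ℂ) (hh : Measurable h) (hi : Integrable h) :
    ∫ z, h z = ∫ z, ∑' γ : GL (Fin 2) ℤ, h (act γ z) ∂nu := by
  have hfin : ∫⁻ z, ‖h z‖ₑ ≠ ∞ := hi.2.ne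
  have hu := lintegral_unfold (fun z => ‖h z‖ₑ) hh.enorm
  -- right side
  have r1 : ∫ z, ∑' γ : GL (Fin 2) ℤ, h (act γ z) ∂nu
      = ∑' γ : GL (Fin 2) ℤ, ∫ z, h (act γ z) ∂nu := by
    rw [integral_tsum]
    · intro γ
      exact (hh.comp (measurable_act γ)).aestronglyMeasurable
    · rw [← lintegral_tsum]
      · rw [← hu]; exact hfin
      · intro γ
        exact (hh.comp (measurable_act γ)).enorm.aemeasurable
  have r2 : ∀ γ : GL (Fin 2) ℤ, ∫ z, h (act γ z) ∂nu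
      = ∫ z, (rho (act γ⁻¹ z)).toReal • h z := by
    intro γ
    unfold nu
    rw [integral_withDensity_eq_integral_toReal_smul measurable_rho]
    · have := (measurePreserving_act γ).integral_comp (measurableEmbedding_act γ)
        (fun z => (rho (act γ⁻¹ z)).toReal • h z)
      simp only [act_inv_act] at this
      exact this
    · refine Filter.Eventually.of_forall fun z => ?_
      unfold rho
      by_cases hz : z ∈ 𝒟
      · rw [Set.indicator_of_mem hz]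
        exact ENNReal.inv_lt_top.mpr (lt_of_lt_of_le zero_lt_one (one_le_nn z))
      · rw [Set.indicator_of_notMem hz]; simp
  have hrt : ∀ z, rho z ≠ ∞ := by
    intro z
    unfold rho
    by_cases hz : z ∈ 𝒟
    · rw [Set.indicator_of_mem hz]
      exact (ENNReal.inv_lt_top.mpr (lt_of_lt_of_le zero_lt_one (one_le_nn z))).ne
    · rw [Set.indicator_of_notMem hz]; simp
  rw [r1]
  simp_rw [r2]
  have he := (Equiv.inv (GL (Fin 2) ℤ)).tsum_eq (fun γ => ∫ z, (rho (act γ z)).toReal • h z)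
  simp only [Equiv.inv_apply] at he
  rw [he]
  rw [← integral_tsum]
  · congr 1
    ext z
    have hs : ∑' γ : GL (Fin 2) ℤ, (rho (act γ z)).toReal = 1 := by
      rw [← ENNReal.tsum_toReal_eq (fun γ => hrt _), tsum_rho]; simp
    have hsum : Summable fun γ : GL (Fin 2) ℤ => (rho (act γ z)).toReal := by
      by_contra hns
      rw [tsum_eq_zero_of_not_summable hns] at hs
      exact zero_ne_one hs
    rw [hsum.tsum_smul_const, hs, one_smul]
  · intro γ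
    exact (((measurable_rho.comp (measurable_act γ)).ennreal_toReal).smul hh).aestronglyMeasurable
  · rw [← lintegral_tsum]
    · have : ∀ z, ∑' γ : GL (Fin 2) ℤ, ‖(rho (act γ z)).toReal • h z‖ₑ = ‖h z‖ₑ := by
        intro z
        have e : ∀ γ : GL (Fin 2) ℤ, ‖(rho (act γ z)).toReal • h z‖ₑ = rho (act γ z) * ‖h z‖ₑ := by
          intro γ
          rw [enorm_smul, Real.enorm_eq_ofReal ENNReal.toReal_nonneg, ENNReal.ofReal_toReal (hrt _)]
        simp_rw [e]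
        rw [ENNReal.tsum_mul_right, tsum_rho, one_mul]
      simp_rw [this]
      exact hfin
    · intro γ
      exact (((measurable_rho.comp (measurable_act γ)).ennreal_toReal).smul hh).enorm.aemeasurable

end

end Pool.Agent.V1143.Maass
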