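import Pool.Agent.V1143.Maass.Smooth

/-! Hecke operators. -/

namespace Pool.Agent.V1143.Maass

open MeasureTheory Filter Topology UpperHalfPlane
open scoped ENNReal MatrixGroups Modular

noncomputable section

/-- extension to the complex plane -/
def eC (F : ℍ → ℂ) (z : ℂ) : ℂ := F (ofComplex z)

lemma eC_coe (F : ℍ → ℂ) (z : ℍ) : eC F z = F z := by
  unfold eC; rw [ofComplex_apply]

lemma eC_of_pos (F : ℍ → ℂ) {z : ℂ} (hz : 0 < z.im) : eC F z = F ⟨z, hz⟩ := by
  unfold eC; rw [ofComplex_apply_of_im_pos hz]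

/-- generators suffice -/
lemma odd_of_gens {F : ℍ → ℂ} (hT : ∀ z : ℍ, F (ModularGroup.T • z) = F z)
    (hS : ∀ z : ℍ, F (ModularGroup.S • z) = F z) (hJ : ∀ z : ℍ, F (act JJ z) = -F z)
    (γ : GL (Fin 2) ℤ) (z : ℍ) : F (act γ z) = (dt γ : ℂ) * F z := by
  have hsl : ∀ g : SL(2, ℤ), ∀ z : ℍ, F (g • z) = F z := by
    intro g
    have hg : g ∈ Subgroup.closure {ModularGroup.S, ModularGroup.T} := by
      rw [SpecialLinearGroup.SL2Z_generators]; exact Subgroup.mem_top g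
    induction hg using Subgroup.closure_induction with
    | mem x hx =>
      rcases hx with rfl | rfl
      · exact hS
      · exact hT
    | one => intro z; rw [one_smul]
    | mul x y _ _ hx hy => intro z; rw [mul_smul, hx, hy]
    | inv x _ hx => intro z; rw [← hx (x⁻¹ • z), smul_inv_smul]
  rcases dt_cases γ with h | h
  · obtain ⟨g, rfl⟩ := exists_slgl h
    rw [act_slgl, hsl, h]; simp
  · have hd : dt (γ * JJ) = 1 := by rw [dt_mul, h, dt_JJ]; norm_num
    obtain ⟨g, hg⟩ := exists_slgl hd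
    have hJ2 : act JJ (act JJ z) = z := by
      have : JJ * JJ = 1 := by
        ext i j
        fin_cases i <;> fin_cases j <;> simp [JJ, ut, Matrix.mul_apply, Fin.sum_univ_two]
      rw [← act_mul, this, act_one]
    have e : act γ z = g • (act JJ z) := by
      rw [← act_slgl, hg, act_mul, hJ2]
    rw [e, hsl, hJ, h]; simp

lemma OddF.sl {F : ℍ → ℂ} (hF : OddF F) (g : SL(2, ℤ)) (z : ℍ) : F (g • z) = F z := by
  have := hF.act (slgl g) z
  rw [act_slgl, dt_slgl] at this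
  simpa using this

lemma OddF.slc {F : ℍ → ℂ} (hF : OddF F) {a b c d : ℤ} (h : a * d - b * c = 1) {z : ℂ}
    (hz : 0 < z.im) : eC F ((a * z + b) / (c * z + d)) = eC F z := by
  let g : SL(2, ℤ) := ⟨!![a, b; c, d], by rw [Matrix.det_fin_two_of]; exact h⟩
  have e : ((g • (⟨z, hz⟩ : ℍ) : ℍ) : ℂ) = (a * z + b) / (c * z + d) := by
    rw [UpperHalfPlane.coe_specialLinearGroup_apply]
    simp [g]
  rw [← e, eC_coe, hF.sl, eC_of_pos F hz]

lemma OddF.per {F : ℍ → ℂ} (hF : OddF F) (n : ℤ) {z : ℂ} (hz : 0 < z.im) :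
    eC F (z + n) = eC F z := by
  have := hF.slc (a := 1) (b := n) (c := 0) (d := 1) (by ring) hz
  simpa using this

lemma OddF.inv {F : ℍ → ℂ} (hF : OddF F) {z : ℂ} (hz : 0 < z.im) :
    eC F (-1 / z) = eC F z := by
  have := hF.slc (a := 0) (b := -1) (c := 1) (d := 0) (by ring) hz
  simpa using this

lemma OddF.neg {F : ℍ → ℂ} (hF : OddF F) {z : ℂ} (hz : 0 < z.im) :
    eC F (-(starRingEnd ℂ) z) = -eC F z := by
  have hz' : 0 < (-(starRingEnd ℂ) z).im := by simpa using hz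
  rw [eC_of_pos F hz, eC_of_pos F hz']
  have h := hF.act JJ ⟨z, hz⟩
  rw [dt_JJ] at h
  have e : Maass.act JJ (⟨z, hz⟩ : ℍ) = ⟨-(starRingEnd ℂ) z, hz'⟩ := by
    refine UpperHalfPlane.ext ?_
    refine Complex.ext ?_ ?_
    · change (Maass.act JJ (⟨z, hz⟩ : ℍ)).re = _
      rw [re_act_JJ]; simp
    · change (Maass.act JJ (⟨z, hz⟩ : ℍ)).im = _
      rw [im_act_JJ]; simp
  rw [e] at h
  rw [h]; simp

/-- generators in complex coordinates suffice -/
lemma odd_of_gens' {F : ℍ → ℂ} (hT : ∀ z : ℂ, 0 < z.im → eC F (z + 1) = eC F z)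
    (hS : ∀ z : ℂ, 0 < z.im → eC F (-1 / z) = eC F z)
    (hJ : ∀ z : ℂ, 0 < z.im → eC F (-(starRingEnd ℂ) z) = -eC F z)
    (γ : GL (Fin 2) ℤ) (z : ℍ) : F (act γ z) = (dt γ : ℂ) * F z := by
  refine odd_of_gens ?_ ?_ ?_ γ z
  · intro z
    rw [← eC_coe F z, ← hT z z.im_pos, ← eC_coe F]
    congr 1
    have := ModularGroup.coe_T_zpow_smul_eq z (n := 1)
    simpa using this
  · intro z
    rw [← eC_coe F z, ← hS z z.im_pos, ← eC_coe F]
    congr 1
    rw [UpperHalfPlane.coe_specialLinearGroup_apply]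
    simp [ModularGroup.S]
  · intro z
    rw [← eC_coe F z, ← hJ z z.im_pos, ← eC_coe F]
    congr 1
    refine Complex.ext ?_ ?_
    · change (act JJ z).re = _
      rw [re_act_JJ]; simp
    · change (act JJ z).im = _
      rw [im_act_JJ]; simp

/-- the Hecke operator -/
def TH (p : ℕ) (F : ℍ → ℂ) (z : ℍ) : ℂ :=
  eC F (p * z) + ∑ b ∈ Finset.range p, eC F (((z : ℂ) + b) / p)

lemma eC_TH (p : ℕ) (F : ℍ → ℂ) {z : ℂ} (hz : 0 < z.im) :
    eC (TH p F) z = eC F (p * z) + ∑ b ∈ Finset.range p, eC F ((z + b) / p) := by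
  rw [eC_of_pos _ hz]; rfl

/-- periodic sums -/
lemma sum_shift {g : ℤ → ℂ} {p : ℕ} (hg : ∀ k, g (k + p) = g k) :
    ∑ b ∈ Finset.range p, g (b + 1) = ∑ b ∈ Finset.range p, g b := by
  have h1 := Finset.sum_range_succ (fun b : ℕ => g b) p
  have h2 := Finset.sum_range_succ' (fun b : ℕ => g b) p
  have h3 : g p = g 0 := by simpa using hg 0
  push_cast at h1 h2
  rw [h1, h3] at h2
  exact (add_right_cancel h2).symm

lemma per_mod {g : ℤ → ℂ} {p : ℕ} (hg : ∀ k, g (k + p) = g k) (n : ℤ) : g (n % p) = g n := by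
  have h : ∀ m : ℕ, ∀ k, g (k + m * p) = g k := by
    intro m
    induction m with
    | zero => intro k; simp
    | succ m ih => intro k; push_cast; rw [show k + (m + 1) * (p:ℤ) = (k + m * p) + p by ring, hg, ih]
  have h' : ∀ m : ℤ, ∀ k, g (k + m * p) = g k := by
    intro m k
    rcases m.natAbs_eq with hm | hm
    · rw [hm]; exact h _ k
    · have := h m.natAbs (k + m * p)
      have e : k + m * (p:ℤ) + m.natAbs * p = k := by
        have : (m.natAbs : ℤ) = -m := by linarith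
        rw [this]; ring
      rw [e] at this
      exact this.symm
  have := h' (n / p) (n % p)
  rw [← this]
  congr 1
  have := Int.emod_add_mul_ediv n p
  linarith

lemma sum_coprime {g : ℤ → ℂ} {p q : ℕ} (hg : ∀ k, g (k + q) = g k) (hpq : Nat.Coprime q p) :
    ∑ b ∈ Finset.range q, g (p * b) = ∑ b ∈ Finset.range q, g b := by
  rcases Nat.eq_zero_or_pos q with rfl | hq
  · simp
  have e1 : ∀ b : ℕ, g (p * b) = g (((p * b) % q : ℕ) : ℤ) := by
    intro b
    rw [Int.natCast_mod, per_mod hg]; push_cast; rfl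
  have hinj : Set.InjOn (fun b => (p * b) % q) (Finset.range q : Set ℕ) := by
    intro a ha b hb h
    simp only at h
    have h2 : (p * a) ≡ (p * b) [MOD q] := h
    have h3 := Nat.ModEq.cancel_left_of_coprime hpq h2
    rw [Finset.coe_range, Set.mem_Iio] at ha hb
    exact Nat.ModEq.eq_of_lt_of_lt h3 ha hb
  have himg : (Finset.range q).image (fun b => (p * b) % q) = Finset.range q := by
    refine Finset.eq_of_subset_of_card_le ?_ ?_
    · intro x hx
      rw [Finset.mem_image] at hx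
      obtain ⟨b, _, rfl⟩ := hx
      exact Finset.mem_range.mpr (Nat.mod_lt _ hq)
    · rw [Finset.card_image_of_injOn hinj]
  calc ∑ b ∈ Finset.range q, g (p * b) = ∑ b ∈ Finset.range q, g (((p * b) % q : ℕ) : ℤ) :=
        Finset.sum_congr rfl fun b _ => e1 b
    _ = ∑ x ∈ (Finset.range q).image (fun b => (p * b) % q), g (x : ℤ) :=
        (Finset.sum_image (f := fun x : ℕ => g (x : ℤ)) hinj).symm
    _ = _ := by rw [himg]

lemma sum_two (g : ℕ → ℂ) (p q : ℕ) :
    ∑ b ∈ Finset.range p, ∑ c ∈ Finset.range q, g (c + q * b) = ∑ k ∈ Finset.range (q * p), g k := by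
  induction p with
  | zero => simp
  | succ p ih =>
    rw [Finset.sum_range_succ, ih, Nat.mul_succ, Finset.sum_range_add]
    congr 1
    refine Finset.sum_congr rfl fun c _ => ?_
    rw [add_comm]

lemma im_add_div {z : ℂ} (hz : 0 < z.im) {p : ℕ} (hp : 0 < p) (b : ℤ) :
    0 < ((z + b) / p).im := by
  have hp' : (0:ℝ) < p := by exact_mod_cast hp
  have e : (z + b) / (p : ℂ) = (z + b) * (((p : ℝ)⁻¹ : ℝ) : ℂ) := by
    push_cast; rw [div_eq_mul_inv]
  rw [e, Complex.im_mul_ofReal]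
  have : (z + (b:ℂ)).im = z.im := by simp
  rw [this]; positivity

lemma im_nat_mul {z : ℂ} (hz : 0 < z.im) {p : ℕ} (hp : 0 < p) : 0 < ((p : ℂ) * z).im := by
  have hp' : (0:ℝ) < p := by exact_mod_cast hp
  have e : ((p : ℂ) * z).im = p * z.im := by
    have := Complex.re_ofReal_mul (p : ℝ) z
    have h2 := Complex.im_ofReal_mul (p : ℝ) z
    simpa using h2
  rw [e]; positivity

lemma im_div_nat {z : ℂ} (hz : 0 < z.im) {p : ℕ} (hp : 0 < p) : 0 < (z / (p : ℂ)).im := by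
  simpa using im_add_div hz hp 0

/-- the periodic function k ↦ F((z+k)/p) -/
lemma per_g {F : ℍ → ℂ} (hF : OddF F) {z : ℂ} (hz : 0 < z.im) {p : ℕ} (hp : 0 < p) (k : ℤ) :
    eC F ((z + ((k + p : ℤ) : ℂ)) / p) = eC F ((z + k) / p) := by
  have hp' : (p : ℂ) ≠ 0 := by exact_mod_cast hp.ne'
  have e : (z + ((k + p : ℤ) : ℂ)) / (p : ℂ) = (z + k) / p + (1 : ℤ) := by
    push_cast
    field_simp
    ring
  rw [e, hF.per 1 (im_add_div hz hp k)]

lemma TH_T {F : ℍ → ℂ} (hF : OddF F) {p : ℕ} (hp : 0 < p) {z : ℂ} (hz : 0 < z.im) :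
    eC (TH p F) (z + 1) = eC (TH p F) z := by
  have hz1 : 0 < (z + 1).im := by simpa using hz
  rw [eC_TH p F hz1, eC_TH p F hz]
  congr 1
  · have := hF.per p (im_nat_mul hz hp)
    rw [← this]
    congr 1
    push_cast
    ring
  · have := sum_shift (g := fun k : ℤ => eC F ((z + k) / p)) (p := p) (fun k => per_g hF hz hp k)
    calc _ = ∑ b ∈ Finset.range p, eC F ((z + (((b : ℤ) + 1 : ℤ) : ℂ)) / p) := by
          refine Finset.sum_congr rfl fun b _ => ?_
          congr 2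
          push_cast
          ring
      _ = _ := this
      _ = _ := by
          refine Finset.sum_congr rfl fun b _ => ?_
          push_cast
          rfl

lemma TH_J {F : ℍ → ℂ} (hF : OddF F) {p : ℕ} (hp : 0 < p) {z : ℂ} (hz : 0 < z.im) :
    eC (TH p F) (-(starRingEnd ℂ) z) = -eC (TH p F) z := by
  have hz1 : 0 < (-(starRingEnd ℂ) z).im := by simpa using hz
  rw [eC_TH p F hz1, eC_TH p F hz, neg_add]
  congr 1
  · rw [← hF.neg (im_nat_mul hz hp)]
    congr 1
    simp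
  · set g : ℤ → ℂ := fun k : ℤ => eC F ((z + k) / p) with hg
    have hgp : ∀ k, g (k + p) = g k := fun k => per_g hF hz hp k
    have h1 : ∀ b : ℕ, eC F ((-(starRingEnd ℂ) z + b) / p) = -g (-b) := by
      intro b
      rw [hg]
      simp only
      rw [← hF.neg (im_add_div hz hp (-b))]
      congr 1
      simp
      ring
    have h2 := sum_shift hgp
    have h3 : ∑ b ∈ Finset.range p, g (-(b : ℤ)) = ∑ b ∈ Finset.range p, g (b + 1) := by
      rw [← Finset.sum_range_reflect]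
      refine Finset.sum_congr rfl fun b hb => ?_
      rw [Finset.mem_range] at hb
      rw [← hgp]
      congr 1
      have : ((p - 1 - b : ℕ) : ℤ) = (p : ℤ) - 1 - b := by omega
      rw [this]; ring
    calc _ = ∑ b ∈ Finset.range p, -g (-b) := Finset.sum_congr rfl fun b _ => h1 b
      _ = -∑ b ∈ Finset.range p, g (-(b : ℤ)) := by rw [Finset.sum_neg_distrib]
      _ = -∑ b ∈ Finset.range p, g b := by rw [h3, h2]
      _ = _ := by
        rw [hg]
        congr 1

lemma TH_S {F : ℍ → ℂ} (hF : OddF F) {p : ℕ} (hp : p.Prime) {z : ℂ} (hz : 0 < z.im) :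
    eC (TH p F) (-1 / z) = eC (TH p F) z := by
  have hp0 := hp.pos
  have hpF : Fact p.Prime := ⟨hp⟩
  have hpc : (p : ℂ) ≠ 0 := by exact_mod_cast hp0.ne'
  have hz0 : z ≠ 0 := by rintro rfl; simp at hz
  have hz1 : 0 < (-1 / z).im := by
    rw [show (-1 / z) = (-z)⁻¹ by rw [neg_div, one_div, inv_neg]]
    exact UpperHalfPlane.im_inv_neg_coe_pos ⟨z, hz⟩
  rw [eC_TH p F hz1, eC_TH p F hz]
  obtain ⟨m, rfl⟩ : ∃ m, p = m + 1 := ⟨p - 1, by omega⟩
  rw [Finset.sum_range_succ', Finset.sum_range_succ']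
  set p := m + 1 with hpm
  have a1 : eC F ((p : ℂ) * (-1 / z)) = eC F ((z + ((0 : ℕ) : ℂ)) / p) := by
    have := hF.inv (im_div_nat hz hp0)
    rw [Nat.cast_zero, add_zero, ← this]
    congr 1
    field_simp
  have a2 : eC F ((-1 / z + ((0 : ℕ) : ℂ)) / p) = eC F (p * z) := by
    rw [← hF.inv (im_nat_mul hz hp0)]
    congr 1
    rw [Nat.cast_zero, add_zero]
    field_simp
  have a3 : ∑ k ∈ Finset.range m, eC F ((-1 / z + ((k + 1 : ℕ) : ℂ)) / p)
      = ∑ k ∈ Finset.range m, eC F ((z + ((k + 1 : ℕ) : ℂ)) / p) := by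
    -- involution
    let i : ℕ → ℕ := fun k => (-((k + 1 : ℕ) : ZMod p)⁻¹).val - 1
    have hne : ∀ k, k ∈ Finset.range m → (((k + 1 : ℕ) : ZMod p)) ≠ 0 := by
      intro k hk h0
      rw [Finset.mem_range] at hk
      rw [ZMod.natCast_eq_zero_iff] at h0
      have := Nat.le_of_dvd (by omega) h0
      omega
    have hval : ∀ k, k ∈ Finset.range m → 0 < (-((k + 1 : ℕ) : ZMod p)⁻¹).val := by
      intro k hk
      rw [ZMod.val_pos]
      exact neg_ne_zero.mpr (inv_ne_zero (hne k hk))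
    have hi1 : ∀ k, k ∈ Finset.range m → ((i k + 1 : ℕ) : ZMod p) = -((k + 1 : ℕ) : ZMod p)⁻¹ := by
      intro k hk
      have h1 := hval k hk
      have h2 : i k + 1 = (-((k + 1 : ℕ) : ZMod p)⁻¹).val := by
        simp only [i]; omega
      rw [h2, ZMod.natCast_val, ZMod.cast_id]
    have hmem : ∀ k, k ∈ Finset.range m → i k ∈ Finset.range m := by
      intro k hk
      rw [Finset.mem_range]
      have h1 := hval k hk
      have h2 := ZMod.val_lt (-((k + 1 : ℕ) : ZMod p)⁻¹)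
      simp only [i]; omega
    have hinv : ∀ k, k ∈ Finset.range m → i (i k) = k := by
      intro k hk
      have h1 := hi1 (i k) (hmem k hk)
      rw [hi1 k hk, inv_neg, neg_neg, inv_inv] at h1
      have h2 : i (i k) + 1 < p := by
        have := hmem _ (hmem k hk)
        rw [Finset.mem_range] at this; omega
      have h3 : k + 1 < p := by
        rw [Finset.mem_range] at hk; omega
      have h4 := congrArg ZMod.val h1
      rw [ZMod.val_cast_of_lt h2, ZMod.val_cast_of_lt h3] at h4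
      omega
    refine Finset.sum_nbij' i i hmem hmem hinv hinv ?_
    intro k hk
    have h1 := hi1 k hk
    have h2 : (((k + 1) * (i k + 1) + 1 : ℕ) : ZMod p) = 0 := by
      rw [Nat.cast_add, Nat.cast_mul, h1, Nat.cast_one, mul_neg, mul_inv_cancel₀ (hne k hk)]
      ring
    rw [ZMod.natCast_eq_zero_iff] at h2
    obtain ⟨t, ht⟩ := h2
    have ht' : ((k:ℤ) + 1) * (i k + 1) + 1 = p * t := by exact_mod_cast ht
    have h3 := hF.slc (a := (k : ℤ) + 1) (b := -t) (c := p) (d := -((i k : ℤ) + 1))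
      (by linear_combination -ht') (im_add_div hz hp0 ((i k : ℤ) + 1))
    have h4 : (((i k : ℤ) + 1 : ℤ) : ℂ) = ((i k + 1 : ℕ) : ℂ) := by push_cast; ring
    rw [h4] at h3
    rw [← h3]
    congr 1
    have ht'' : ((k:ℂ) + 1) * (i k + 1) + 1 = p * t := by exact_mod_cast ht'
    have hden : ((p : ℤ) : ℂ) * ((z + ((i k + 1 : ℕ) : ℂ)) / p) + ((-((i k : ℤ) + 1) : ℤ) : ℂ)
        = z := by
      push_cast
      field_simp
      ring
    rw [hden]
    push_cast
    field_simp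
    linear_combination (-1 : ℂ) * ht''
  rw [a1, a2, a3]
  ring

/-- upper triangular real matrices -/
def ug (a b d : ℝ) (h : a * d ≠ 0) : GL (Fin 2) ℝ :=
  Matrix.GeneralLinearGroup.mkOfDetNeZero !![a, b; 0, d] (by
    rw [Matrix.det_fin_two_of]; simpa using h)

lemma coe_ug {a b d : ℝ} (ha : 0 < a) (hd : 0 < d) (z : ℍ) :
    ((ug a b d (mul_pos ha hd).ne' • z : ℍ) : ℂ) = (a * z + b) / d := by
  have hdet : 0 < (ug a b d (mul_pos ha hd).ne').det.val := by
    change 0 < Matrix.det !![a, b; 0, d]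
    rw [Matrix.det_fin_two_of]
    have := mul_pos ha hd
    linarith
  rw [coe_smul_of_det_pos hdet]
  unfold num denom
  have e00 : (ug a b d (mul_pos ha hd).ne') 0 0 = a := rfl
  have e01 : (ug a b d (mul_pos ha hd).ne') 0 1 = b := rfl
  have e10 : (ug a b d (mul_pos ha hd).ne') 1 0 = 0 := rfl
  have e11 : (ug a b d (mul_pos ha hd).ne') 1 1 = d := rfl
  rw [e00, e01, e10, e11]
  simp

lemma TH_eq {p : ℕ} (hp : 0 < p) : ∃ (g0 : GL (Fin 2) ℝ) (g : ℕ → GL (Fin 2) ℝ),
    ∀ F z, TH p F z = F (g0 • z) + ∑ b ∈ Finset.range p, F (g b • z) := by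
  have hp' : (0:ℝ) < p := by exact_mod_cast hp
  refine ⟨ug p 0 1 (mul_pos hp' one_pos).ne', fun b => ug 1 b p (mul_pos one_pos hp').ne', ?_⟩
  intro F z
  unfold TH
  congr 1
  · rw [← eC_coe F, coe_ug hp' one_pos]
    congr 1
    simp
  · refine Finset.sum_congr rfl fun b _ => ?_
    rw [← eC_coe F, coe_ug one_pos hp']
    congr 1
    simp

lemma measurable_comp_gl {F : ℍ → ℂ} (hF : Measurable F) (g : GL (Fin 2) ℝ) :
    Measurable (fun z : ℍ => F (g • z)) := hF.comp (mp_gl g).measurable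

lemma TH_meas {p : ℕ} (hp : 0 < p) {F : ℍ → ℂ} (hF : Measurable F) : Measurable (TH p F) := by
  obtain ⟨g0, g, h⟩ := TH_eq hp
  have e : TH p F = fun z => F (g0 • z) + ∑ b ∈ Finset.range p, F (g b • z) := by
    ext z; exact h F z
  rw [e]
  exact (measurable_comp_gl hF g0).add
    (Finset.measurable_sum _ fun b _ => measurable_comp_gl hF (g b))

lemma TH_bdd (p : ℕ) {F : ℍ → ℂ} (hF : ∃ M : ℝ, ∀ z, ‖F z‖ ≤ M) :
    ∃ M : ℝ, ∀ z, ‖TH p F z‖ ≤ M := by
  obtain ⟨M, hM⟩ := hF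
  refine ⟨M + p * M, fun z => ?_⟩
  unfold TH
  refine (norm_add_le _ _).trans (add_le_add (hM _) ?_)
  refine (norm_sum_le _ _).trans ?_
  refine (Finset.sum_le_sum fun b _ => hM _).trans ?_
  simp

lemma OddF.hecke {F : ℍ → ℂ} (hF : OddF F) {p : ℕ} (hp : p.Prime) : OddF (TH p F) :=
  ⟨TH_meas hp.pos hF.meas, TH_bdd p hF.bdd, odd_of_gens' (fun _ hz => TH_T hF hp.pos hz)
    (fun _ hz => TH_S hF hp hz) (fun _ hz => TH_J hF hp.pos hz)⟩

lemma Top_TH {r : ℝ} (hr : 0 ≤ r) (φ : Prof r) {p : ℕ} (hp : 0 < p) {F : ℍ → ℂ}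
    (hF : Measurable F) (hFb : ∃ M : ℝ, ∀ z, ‖F z‖ ≤ M) :
    Top φ.ψ (TH p F) = TH p (Top φ.ψ F) := by
  obtain ⟨M, hM⟩ := hFb
  obtain ⟨g0, g, h⟩ := TH_eq hp
  ext z
  rw [h (Top φ.ψ F) z]
  have hi : ∀ g : GL (Fin 2) ℝ, Integrable (fun w => (φ.ψ (sg z w) : ℂ) * F (g • w)) := fun g =>
    integrable_Top hr φ (measurable_comp_gl hF g) (fun w => hM _) z
  have e1 : Top φ.ψ (TH p F) z = ∫ w, ((φ.ψ (sg z w) : ℂ) * F (g0 • w)
      + ∑ b ∈ Finset.range p, (φ.ψ (sg z w) : ℂ) * F (g b • w)) := by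
    unfold Top
    congr 1
    ext w
    rw [h F w, mul_add, Finset.mul_sum]
  rw [e1, integral_add (hi g0) (integrable_finsetSum _ fun b _ => hi (g b)),
    integral_finsetSum _ fun b _ => hi (g b)]
  congr 1
  · exact Top_gl φ.ψ F g0 z
  · exact Finset.sum_congr rfl fun b _ => Top_gl φ.ψ F (g b) z

lemma TH_smul (p : ℕ) (c : ℂ) (F : ℍ → ℂ) : TH p (c • F) = c • TH p F := by
  ext z
  unfold TH eC
  simp only [Pi.smul_apply, smul_eq_mul]
  rw [mul_add, Finset.mul_sum]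

lemma TH_add (p : ℕ) (F G : ℍ → ℂ) : TH p (F + G) = TH p F + TH p G := by
  ext z
  unfold TH eC
  simp only [Pi.add_apply]
  rw [Finset.sum_add_distrib]
  ring

lemma TH_mem_VV {r : ℝ} {hr : 0 ≤ r} {φ : Prof r} {lam : ℂ} {F : ℍ → ℂ} (hF : F ∈ VV hr φ lam)
    {p : ℕ} (hp : p.Prime) : TH p F ∈ VV hr φ lam := by
  refine ⟨hF.1.hecke hp, fun z => ?_⟩
  rw [Top_TH hr φ hp.pos hF.1.meas hF.1.bdd]
  have e : Top φ.ψ F = lam • F := by
    ext w; exact hF.2 w
  rw [e, TH_smul]; rfl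

/-- expansion of a product of Hecke operators -/
lemma TH_TH {F : ℍ → ℂ} (hF : OddF F) {p q : ℕ} (hp : 0 < p) (hq : 0 < q) (hpq : Nat.Coprime p q)
    {z : ℂ} (hz : 0 < z.im) :
    eC (TH q (TH p F)) z = eC F (((q * p : ℕ) : ℂ) * z)
      + ∑ b ∈ Finset.range p, eC F ((q * z + b) / p)
      + ∑ c ∈ Finset.range q, eC F ((p * z + c) / q)
      + ∑ k ∈ Finset.range (q * p), eC F ((z + k) / ((q * p : ℕ) : ℂ)) := by
  have hpc : (p : ℂ) ≠ 0 := by exact_mod_cast hp.ne'
  have hqc : (q : ℂ) ≠ 0 := by exact_mod_cast hq.ne'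
  rw [eC_TH q _ hz, eC_TH p F (im_nat_mul hz hq)]
  have e1 : ∀ c : ℕ, eC (TH p F) ((z + c) / q) = eC F ((p * z + ((p * c : ℤ) : ℂ)) / q)
      + ∑ b ∈ Finset.range p, eC F ((z + ((c + q * b : ℕ) : ℂ)) / ((q * p : ℕ) : ℂ)) := by
    intro c
    have := im_add_div hz hq (c : ℤ)
    rw [Int.cast_natCast] at this
    rw [eC_TH p F this]
    congr 1
    · congr 1
      push_cast
      ring
    · refine Finset.sum_congr rfl fun b _ => ?_
      congr 1
      push_cast
      field_simp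
      ring
  have e2 : ∑ c ∈ Finset.range q, eC F ((p * z + ((p * c : ℤ) : ℂ)) / q)
      = ∑ c ∈ Finset.range q, eC F ((p * z + c) / q) := by
    have := sum_coprime (g := fun k : ℤ => eC F ((p * z + k) / q)) (p := p) (q := q)
      (fun k => per_g hF (im_nat_mul hz hp) hq k) hpq.symm
    simpa using this
  rw [Finset.sum_congr rfl fun c _ => e1 c, Finset.sum_add_distrib, e2, Finset.sum_comm,
    sum_two (fun k : ℕ => eC F ((z + k) / ((q * p : ℕ) : ℂ))) p q]
  have e3 : (p : ℂ) * (q * z) = ((q * p : ℕ) : ℂ) * z := by push_cast; ring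
  rw [e3]
  ring

lemma TH_comm {F : ℍ → ℂ} (hF : OddF F) {p q : ℕ} (hp : p.Prime) (hq : q.Prime) :
    TH q (TH p F) = TH p (TH q F) := by
  rcases eq_or_ne p q with rfl | hne
  · rfl
  have hc : Nat.Coprime p q := (Nat.coprime_primes hp hq).mpr hne
  ext z
  rw [← eC_coe (TH q (TH p F)), ← eC_coe (TH p (TH q F)),
    TH_TH hF hp.pos hq.pos hc z.im_pos, TH_TH hF hq.pos hp.pos hc.symm z.im_pos,
    Nat.mul_comm q p]
  ring

end

end Pool.Agent.V1143.Maass
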