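import Pool.Agent.V1143.Maass.Group

/-! The odd automorphic kernel is bounded. -/

namespace Pool.Agent.V1143.Maass

open UpperHalfPlane MeasureTheory Matrix Modular
open scoped MatrixGroups ENNReal

noncomputable section

/-! ### one dimensional comparison -/

lemma tsum_subsingleton_le {A : Set ℤ} (hA : A.Subsingleton) (M : ℝ≥0∞) :
    ∑' n : ℤ, Set.indicator A (fun _ => M) n ≤ M := by
  classical
  rcases hA.eq_empty_or_singleton with h | ⟨a, h⟩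
  · rw [h]; simp
  · rw [h, tsum_eq_single a]
    · simp
    · intro b hb
      exact Set.indicator_of_notMem (by simpa using hb) _

lemma unimodal_aux (h : ℝ → ℝ≥0∞) (hmono : ∀ s t : ℝ, |s| ≤ |t| → h t ≤ h s) (M : ℝ≥0∞)
    (hM : ∀ t, h t ≤ M) (s0 θ : ℝ) (h0 : 0 ≤ θ) (h1 : θ < 1) :
    ∑' n : ℤ, h (s0 + θ + n) ≤ (∑' n : ℤ, h (s0 + n)) + (M + M) := by
  classical
  set A : Set ℤ := {n : ℤ | 0 ≤ s0 + n} with hA
  set B : Set ℤ := {n : ℤ | s0 + n ≤ 0} with hB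
  set D : Set ℤ := {n : ℤ | -1 < s0 + n ∧ s0 + n < 0} with hD
  set E : Set ℤ := {n : ℤ | s0 + n = 0} with hE
  have step1 : ∀ n : ℤ, h (s0 + θ + n) ≤ Set.indicator A (fun n : ℤ => h (s0 + n)) n
      + Set.indicator B (fun n : ℤ => h (s0 + n)) (n + 1) + Set.indicator D (fun _ => M) n := by
    intro n
    by_cases hn : 0 ≤ s0 + n
    · have : n ∈ A := hn
      rw [Set.indicator_of_mem this]
      refine le_add_right (le_add_right ?_)
      apply hmono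
      rw [abs_of_nonneg hn, abs_of_nonneg (by linarith)]
      linarith
    · push Not at hn
      by_cases hn2 : s0 + n ≤ -1
      · have : n + 1 ∈ B := by
          change s0 + ((n + 1 : ℤ) : ℝ) ≤ 0
          push_cast; linarith
        rw [Set.indicator_of_mem this]
        refine le_add_right (le_add_left ?_)
        apply hmono
        push_cast
        rw [abs_of_nonpos (by linarith), abs_of_nonpos (by linarith)]
        linarith
      · push Not at hn2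
        have : n ∈ D := ⟨hn2, hn⟩
        rw [Set.indicator_of_mem this]
        exact le_add_left (hM _)
  have step2 : ∀ n : ℤ, Set.indicator A (fun n : ℤ => h (s0 + n)) n
      + Set.indicator B (fun n : ℤ => h (s0 + n)) n
      ≤ h (s0 + n) + Set.indicator E (fun _ => M) n := by
    intro n
    by_cases hn : 0 ≤ s0 + n
    · by_cases hn2 : s0 + n ≤ 0
      · have e : n ∈ E := le_antisymm hn2 hn
        rw [Set.indicator_of_mem (show n ∈ A from hn), Set.indicator_of_mem (show n ∈ B from hn2),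
          Set.indicator_of_mem e]
        gcongr
        exact hM _
      · rw [Set.indicator_of_mem (show n ∈ A from hn), Set.indicator_of_notMem (show n ∉ B from hn2)]
        rw [add_zero]
        exact le_add_right le_rfl
    · rw [Set.indicator_of_notMem (show n ∉ A from hn), zero_add]
      refine le_add_right ?_
      exact Set.indicator_le_self' (fun _ _ => by simp) _
  calc ∑' n : ℤ, h (s0 + θ + n)
      ≤ ∑' n : ℤ, (Set.indicator A (fun n : ℤ => h (s0 + n)) n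
      + Set.indicator B (fun n : ℤ => h (s0 + n)) (n + 1) + Set.indicator D (fun _ => M) n) :=
        ENNReal.tsum_le_tsum step1
    _ = ∑' n : ℤ, Set.indicator A (fun n : ℤ => h (s0 + n)) n
      + ∑' n : ℤ, Set.indicator B (fun n : ℤ => h (s0 + n)) (n + 1)
      + ∑' n : ℤ, Set.indicator D (fun _ => M) n := by
        rw [ENNReal.tsum_add, ENNReal.tsum_add]
    _ = ∑' n : ℤ, Set.indicator A (fun n : ℤ => h (s0 + n)) n
      + ∑' n : ℤ, Set.indicator B (fun n : ℤ => h (s0 + n)) n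
      + ∑' n : ℤ, Set.indicator D (fun _ => M) n := by
        congr 2
        exact (Equiv.addRight (1 : ℤ)).tsum_eq (Set.indicator B (fun n : ℤ => h (s0 + n)))
    _ = ∑' n : ℤ, (Set.indicator A (fun n : ℤ => h (s0 + n)) n
      + Set.indicator B (fun n : ℤ => h (s0 + n)) n)
      + ∑' n : ℤ, Set.indicator D (fun _ => M) n := by
        rw [ENNReal.tsum_add]
    _ ≤ ∑' n : ℤ, (h (s0 + n) + Set.indicator E (fun _ => M) n) + M := by
        refine add_le_add (ENNReal.tsum_le_tsum step2) (tsum_subsingleton_le ?_ M)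
        intro a ha b hb
        have h1 : (a : ℝ) - b < 1 := by have := ha.2; have := hb.1; linarith
        have h2 : (b : ℝ) - a < 1 := by have := hb.2; have := ha.1; linarith
        have h3 : a - b < 1 := by exact_mod_cast h1
        have h4 : b - a < 1 := by exact_mod_cast h2
        omega
    _ ≤ ∑' n : ℤ, h (s0 + n) + M + M := by
        rw [ENNReal.tsum_add]
        gcongr
        refine tsum_subsingleton_le ?_ M
        intro a ha b hb
        have h1 : (a : ℝ) = b := by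
          have e1 : s0 + (a : ℝ) = 0 := ha
          have e2 : s0 + (b : ℝ) = 0 := hb
          linarith
        exact_mod_cast h1
    _ = _ := by rw [add_assoc]

lemma unimodal (h : ℝ → ℝ≥0∞) (hmono : ∀ s t : ℝ, |s| ≤ |t| → h t ≤ h s) (M : ℝ≥0∞)
    (hM : ∀ t, h t ≤ M) (s0 t0 : ℝ) :
    ∑' n : ℤ, h (t0 + n) ≤ (∑' n : ℤ, h (s0 + n)) + (M + M) := by
  have h1 := unimodal_aux h hmono M hM s0 (Int.fract (t0 - s0)) (Int.fract_nonneg _)
    (Int.fract_lt_one _)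
  have e : ∑' n : ℤ, h (s0 + Int.fract (t0 - s0) + n) = ∑' n : ℤ, h (t0 + n) := by
    rw [← (Equiv.addRight (⌊t0 - s0⌋)).tsum_eq (fun n : ℤ => h (s0 + Int.fract (t0 - s0) + n))]
    congr 1
    ext n
    congr 1
    simp only [Equiv.coe_addRight]
    push_cast
    have := Int.floor_add_fract (t0 - s0)
    linarith
  rwa [e] at h1

/-! ### compactness -/

lemma exists_box {Q : Set ℍ} (hQ : IsCompact Q) : ∃ X Y : ℝ, 0 < Y ∧ Q ⊆ Box X Y := by
  rcases Q.eq_empty_or_nonempty with h | hne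
  · exact ⟨1, 1, one_pos, by rw [h]; exact Set.empty_subset _⟩
  obtain ⟨a, _, ha⟩ := hQ.exists_isMaxOn hne
    (show ContinuousOn (fun z : ℍ => |z.re|) Q from (continuous_re.abs).continuousOn)
  obtain ⟨b, _, hb⟩ := hQ.exists_isMaxOn hne
    (show ContinuousOn (fun z : ℍ => z.im) Q from continuous_im.continuousOn)
  obtain ⟨c, _, hc⟩ := hQ.exists_isMinOn hne
    (show ContinuousOn (fun z : ℍ => z.im) Q from continuous_im.continuousOn)
  have hbp := b.im_pos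
  have hcp := c.im_pos
  have hci := inv_pos.mpr hcp
  refine ⟨|a.re|, b.im + c.im⁻¹, by positivity, fun z hz => ⟨ha hz, ?_, ?_⟩⟩
  · have h1 : c.im ≤ z.im := hc hz
    refine le_trans ?_ h1
    refine inv_le_of_inv_le₀ hcp ?_
    linarith
  · have h1 : z.im ≤ b.im := hb hz
    linarith

lemma finite_ball (p : ℍ) (R : ℝ) :
    ∃ S : Finset (GL (Fin 2) ℤ), ∀ γ, ∀ w ∈ Metric.closedBall p R,
      act γ w ∈ Metric.closedBall p R → γ ∈ S := by
  obtain ⟨X, Y, hY, hsub⟩ := exists_box (isCompact_closedBall p R)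
  obtain ⟨S, hS⟩ := finite_box X Y hY
  exact ⟨S, fun γ w hw hγ => hS γ w (hsub hw) (hsub hγ)⟩

/-- properties of profile functions -/
structure Prof (r : ℝ) where
  ψ : ℝ → ℝ
  cont : Continuous ψ
  supp : ∀ s, s ≤ cr r → ψ s = 0

/-- nice profile -/
structure NProf (r : ℝ) extends Prof r where
  nonneg : ∀ s, 0 ≤ ψ s
  le_one : ∀ s, ψ s ≤ 1
  mono : Monotone ψ
  pos : ∀ s, cr r < s → 0 < ψ s

lemma Prof.dist_lt {r : ℝ} (hr : 0 ≤ r) (φ : Prof r) {z w : ℍ} (h : φ.ψ (sg z w) ≠ 0) :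
    dist z w < r := by
  refine dist_lt_of_sg hr ?_
  by_contra hc
  exact h (φ.supp _ (not_lt.mp hc))

/-- finite support uniformly on balls -/
lemma finite_supp {r : ℝ} (hr : 0 ≤ r) (p : ℍ) (R : ℝ) :
    ∃ S : Finset (GL (Fin 2) ℤ), ∀ φ : Prof r, ∀ γ, ∀ z ∈ Metric.closedBall p R,
      ∀ w ∈ Metric.closedBall p R, φ.ψ (sg z (act γ w)) ≠ 0 → γ ∈ S := by
  obtain ⟨S, hS⟩ := finite_ball p (R + r)
  refine ⟨S, fun φ γ z hz w hw h => hS γ w ?_ ?_⟩
  · rw [Metric.mem_closedBall] at hw ⊢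
    linarith
  · have h1 := φ.dist_lt hr h
    rw [Metric.mem_closedBall] at hz ⊢
    have h2 := dist_triangle (act γ w) z p
    rw [dist_comm (act γ w) z] at h2
    linarith

lemma finite_supp' {r : ℝ} (hr : 0 ≤ r) (z w : ℍ) :
    ∃ S : Finset (GL (Fin 2) ℤ), ∀ φ : Prof r, ∀ γ, φ.ψ (sg z (act γ w)) ≠ 0 → γ ∈ S := by
  obtain ⟨S, hS⟩ := finite_supp hr z (dist w z)
  exact ⟨S, fun φ γ h => hS φ γ z (by simp) w (by simp) h⟩

/-- the odd kernel -/
def Kodd (ψ : ℝ → ℝ) (z w : ℍ) : ℝ := ∑' γ : GL (Fin 2) ℤ, dt γ * ψ (sg z (act γ w))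

/-- partial sums by sign -/
def GG (ψ : ℝ → ℝ) (ε : ℝ) (z w : ℍ) : ℝ≥0∞ :=
  ∑' γ : GL (Fin 2) ℤ, Set.indicator {γ | dt γ = ε} (fun γ => ENNReal.ofReal (ψ (sg z (act γ w)))) γ

lemma Kodd_symm (ψ : ℝ → ℝ) (z w : ℍ) : Kodd ψ z w = Kodd ψ w z := by
  unfold Kodd
  rw [← (Equiv.inv (GL (Fin 2) ℤ)).tsum_eq (fun γ => dt γ * ψ (sg z (act γ w)))]
  congr 1
  ext γ
  simp only [Equiv.inv_apply]
  rw [dt_inv, sg_comm]
  congr 2
  rw [← sg_act γ (act γ⁻¹ w) z, act_act_inv]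

lemma Kodd_act (ψ : ℝ → ℝ) (δ : GL (Fin 2) ℤ) (z w : ℍ) :
    Kodd ψ (act δ z) w = dt δ * Kodd ψ z w := by
  unfold Kodd
  rw [← tsum_mul_left]
  rw [← (Equiv.mulLeft δ).tsum_eq (fun γ => dt γ * ψ (sg (act δ z) (act γ w)))]
  congr 1
  ext γ
  simp only [Equiv.coe_mulLeft]
  rw [dt_mul, act_mul, sg_act]
  ring

lemma Kodd_act_right (ψ : ℝ → ℝ) (δ : GL (Fin 2) ℤ) (z w : ℍ) :
    Kodd ψ z (act δ w) = dt δ * Kodd ψ z w := by
  rw [Kodd_symm, Kodd_act, Kodd_symm]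

lemma GG_ne_top {r : ℝ} (hr : 0 ≤ r) (φ : Prof r) (ε : ℝ) (z w : ℍ) : GG φ.ψ ε z w ≠ ∞ := by
  obtain ⟨S, hS⟩ := finite_supp' hr z w
  unfold GG
  rw [tsum_eq_sum (s := S)]
  · refine (ENNReal.sum_lt_top.mpr fun γ _ => ?_).ne
    refine lt_of_le_of_lt (Set.indicator_le_self' (fun _ _ => by simp) _) (by simp)
  · intro γ hγ
    have : φ.ψ (sg z (act γ w)) = 0 := by
      by_contra hc
      exact hγ (hS φ γ hc)
    by_cases h : γ ∈ {γ | dt γ = ε}
    · rw [Set.indicator_of_mem h, this]; simp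
    · rw [Set.indicator_of_notMem h]

lemma Kodd_eq {r : ℝ} (hr : 0 ≤ r) (φ : NProf r) (z w : ℍ) :
    Kodd φ.ψ z w = (GG φ.ψ 1 z w).toReal - (GG φ.ψ (-1) z w).toReal := by
  obtain ⟨S, hS⟩ := finite_supp' hr z w
  have hz : ∀ γ ∉ S, φ.ψ (sg z (act γ w)) = 0 := by
    intro γ hγ
    by_contra hc
    exact hγ (hS φ.toProf γ hc)
  unfold Kodd GG
  rw [tsum_eq_sum (s := S), tsum_eq_sum (s := S), tsum_eq_sum (s := S),
    ENNReal.toReal_sum, ENNReal.toReal_sum, ← Finset.sum_sub_distrib]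
  · refine Finset.sum_congr rfl fun γ _ => ?_
    rcases dt_cases γ with h | h
    · rw [Set.indicator_of_mem (show γ ∈ {γ | dt γ = 1} from h),
        Set.indicator_of_notMem (show γ ∉ {γ | dt γ = -1} by
          simp only [Set.mem_ofPred_eq]; rw [h]; norm_num)]
      rw [ENNReal.toReal_ofReal (φ.nonneg _), h]; simp
    · rw [Set.indicator_of_notMem (show γ ∉ {γ | dt γ = 1} by
          simp only [Set.mem_ofPred_eq]; rw [h]; norm_num),
        Set.indicator_of_mem (show γ ∈ {γ | dt γ = -1} from h)]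
      rw [ENNReal.toReal_ofReal (φ.nonneg _), h]; simp
  · intro γ _
    exact (lt_of_le_of_lt (Set.indicator_le_self'
      (f := fun γ => ENNReal.ofReal (φ.ψ (sg z (act γ w)))) (fun _ _ => by simp) γ)
      ENNReal.ofReal_lt_top).ne
  · intro γ _
    exact (lt_of_le_of_lt (Set.indicator_le_self'
      (f := fun γ => ENNReal.ofReal (φ.ψ (sg z (act γ w)))) (fun _ _ => by simp) γ)
      ENNReal.ofReal_lt_top).ne
  · intro γ hγ
    by_cases h : γ ∈ {γ | dt γ = -1}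
    · rw [Set.indicator_of_mem h, hz γ hγ]; simp
    · rw [Set.indicator_of_notMem h]
  · intro γ hγ
    by_cases h : γ ∈ {γ | dt γ = 1}
    · rw [Set.indicator_of_mem h, hz γ hγ]; simp
    · rw [Set.indicator_of_notMem h]
  · intro γ hγ
    rw [hz γ hγ, mul_zero]

lemma measurable_GG {r : ℝ} (φ : Prof r) (ε : ℝ) :
    Measurable (fun p : ℍ × ℍ => GG φ.ψ ε p.1 p.2) := by
  classical
  unfold GG
  refine Measurable.ennreal_tsum fun γ => ?_
  by_cases h : γ ∈ {γ | dt γ = ε}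
  · simp only [Set.indicator_of_mem h]
    refine ENNReal.measurable_ofReal.comp (φ.cont.measurable.comp ?_)
    have : Continuous (fun p : ℍ × ℍ => sg p.1 (act γ p.2)) :=
      continuous_sg.comp (continuous_fst.prodMk ((continuous_act γ).comp continuous_snd))
    exact this.measurable
  · simp only [Set.indicator_of_notMem h]
    exact measurable_const

lemma measurable_Kodd {r : ℝ} (hr : 0 ≤ r) (φ : NProf r) :
    Measurable (Function.uncurry (Kodd φ.ψ)) := by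
  have : Function.uncurry (Kodd φ.ψ) = fun p : ℍ × ℍ =>
      (GG φ.ψ 1 p.1 p.2).toReal - (GG φ.ψ (-1) p.1 p.2).toReal := by
    ext p
    exact Kodd_eq hr φ p.1 p.2
  rw [this]
  exact (measurable_GG φ.toProf 1).ennreal_toReal.sub (measurable_GG φ.toProf (-1)).ennreal_toReal

/-! ### the elements with `c = 0` -/

/-- upper triangular elements -/
def ut (δ : ℤˣ) (q : ℤ × ℤˣ) : GL (Fin 2) ℤ :=
  Matrix.GeneralLinearGroup.mk'' !![(δ : ℤ) * q.2, q.2 * q.1; 0, q.2] (by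
    rw [Matrix.det_fin_two_of, mul_zero, sub_zero]
    exact ((δ.isUnit.mul q.2.isUnit).mul q.2.isUnit))

lemma ut_00 (δ : ℤˣ) (q : ℤ × ℤˣ) : (ut δ q 0 0 : ℤ) = δ * q.2 := rfl
lemma ut_01 (δ : ℤˣ) (q : ℤ × ℤˣ) : (ut δ q 0 1 : ℤ) = q.2 * q.1 := rfl
lemma ut_10 (δ : ℤˣ) (q : ℤ × ℤˣ) : (ut δ q 1 0 : ℤ) = 0 := rfl
lemma ut_11 (δ : ℤˣ) (q : ℤ × ℤˣ) : (ut δ q 1 1 : ℤ) = q.2 := rfl

lemma unit_sq (e : ℤˣ) : (e : ℤ) * e = 1 := by
  rcases Int.units_eq_one_or e with h | h <;> rw [h] <;> norm_num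

lemma dt_ut (δ : ℤˣ) (q : ℤ × ℤˣ) : dt (ut δ q) = ((δ : ℤ) : ℝ) := by
  unfold dt
  rw [← det_val_eq, ut_00, ut_01, ut_10, ut_11, mul_zero, sub_zero, mul_assoc, unit_sq, mul_one]

lemma ut_injective (δ : ℤˣ) : Function.Injective (ut δ) := by
  intro p q h
  have h1 : (ut δ p 1 1 : ℤ) = ut δ q 1 1 := by rw [h]
  have h2 : (ut δ p 0 1 : ℤ) = ut δ q 0 1 := by rw [h]
  rw [ut_11, ut_11] at h1
  rw [ut_01, ut_01, h1] at h2
  have h3 : p.2 = q.2 := Units.ext h1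
  have h4 : p.1 = q.1 := by
    have := congrArg (fun t => (q.2 : ℤ) * t) h2
    simp only [← mul_assoc, unit_sq, one_mul] at this
    exact this
  exact Prod.ext h4 h3

lemma exists_ut {γ : GL (Fin 2) ℤ} (hc : (γ 1 0 : ℤ) = 0) (δ : ℤˣ) (hd : dt γ = ((δ : ℤ) : ℝ)) :
    ∃ q, ut δ q = γ := by
  obtain ⟨_, h2⟩ := c_zero_entries hc
  have hdet := det_val_eq γ
  have hd' : (γ.det.val : ℤ) = δ := by
    have : ((γ.det.val : ℤ) : ℝ) = ((δ : ℤ) : ℝ) := hd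
    exact_mod_cast this
  rw [hc, mul_zero, sub_zero, hd'] at hdet
  obtain ⟨e, he⟩ : ∃ e : ℤˣ, (e : ℤ) = γ 1 1 := by
    rcases h2 with h | h
    · exact ⟨1, by rw [h]; rfl⟩
    · exact ⟨-1, by rw [h]; rfl⟩
  refine ⟨((e : ℤ) * γ 0 1, e), ?_⟩
  ext i j
  fin_cases i <;> fin_cases j
  · change (ut δ _ 0 0 : ℤ) = γ 0 0
    rw [ut_00, ← hdet, he, mul_assoc, ← he, unit_sq, mul_one]
  · change (ut δ _ 0 1 : ℤ) = γ 0 1
    rw [ut_01, ← mul_assoc, unit_sq, one_mul]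
  · change (ut δ _ 1 0 : ℤ) = γ 1 0
    rw [ut_10, hc]
  · change (ut δ _ 1 1 : ℤ) = γ 1 1
    rw [ut_11, he]

lemma coe_act_ut (δ : ℤˣ) (q : ℤ × ℤˣ) (w : ℍ) :
    (act (ut δ q) w).re = (δ : ℤ) * w.re + q.1 ∧ (act (ut δ q) w).im = w.im := by
  have him : (act (ut δ q) w).im = w.im := im_act_c_zero (ut_10 δ q) w
  refine ⟨?_, him⟩
  unfold act
  rw [re_smul, num_eq, denom_eq, ut_00, ut_01, ut_10, ut_11]
  have he : ((q.2 : ℤ) : ℝ) * ((q.2 : ℤ) : ℝ) = 1 := by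
    have := unit_sq q.2
    exact_mod_cast this
  have hne : (((q.2 : ℤ) : ℝ) : ℂ) ≠ 0 := by
    intro h
    have h2 : ((q.2 : ℤ) : ℝ) = 0 := by exact_mod_cast h
    rw [h2] at he; norm_num at he
  have e : ((((((δ : ℤ) * (q.2 : ℤ) : ℤ) : ℝ) : ℂ)) * (w : ℂ) + ((((q.2 : ℤ) * q.1 : ℤ) : ℝ) : ℂ)) /
      ((((0 : ℤ) : ℝ) : ℂ) * (w : ℂ) + (((q.2 : ℤ) : ℝ) : ℂ))
      = (((δ : ℤ) : ℝ) : ℂ) * w + ((q.1 : ℝ) : ℂ) := by
    push_cast at hne ⊢
    rw [zero_mul, zero_add]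
    field_simp
  rw [e]
  simp

/-- one variable profile -/
def hf (ψ : ℝ → ℝ) (y v t : ℝ) : ℝ≥0∞ := ENNReal.ofReal (ψ (4 * y * v / (4 * y * v + (t ^ 2 + (y - v) ^ 2))))

lemma hf_mono {r : ℝ} (φ : NProf r) {y v : ℝ} (hy : 0 < y) (hv : 0 < v) (s t : ℝ) (h : |s| ≤ |t|) :
    hf φ.ψ y v t ≤ hf φ.ψ y v s := by
  unfold hf
  refine ENNReal.ofReal_le_ofReal (φ.mono ?_)
  have : s ^ 2 ≤ t ^ 2 := sq_le_sq.mpr h
  have hyv := mul_pos hy hv
  refine div_le_div_of_nonneg_left (by positivity) (by positivity) (by linarith)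

lemma hf_le_one {r : ℝ} (φ : NProf r) (y v t : ℝ) : hf φ.ψ y v t ≤ 1 := by
  unfold hf
  exact ENNReal.ofReal_le_one.mpr (φ.le_one _)

lemma dist_coe_sq (z w : ℍ) : dist (z : ℂ) w ^ 2 = (w.re - z.re) ^ 2 + (z.im - w.im) ^ 2 := by
  rw [Complex.dist_eq, ← Complex.normSq_eq_norm_sq, Complex.normSq_apply]
  simp only [Complex.sub_re, Complex.sub_im, coe_re, coe_im]
  ring

lemma sg_ut (ψ : ℝ → ℝ) (δ : ℤˣ) (q : ℤ × ℤˣ) (z w : ℍ) :
    ENNReal.ofReal (ψ (sg z (act (ut δ q) w)))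
      = hf ψ z.im w.im (((δ : ℤ) * w.re - z.re) + q.1) := by
  unfold hf sg
  rw [dist_coe_sq, (coe_act_ut δ q w).1, (coe_act_ut δ q w).2]
  congr 4
  ring

lemma GG_split (ψ : ℝ → ℝ) (δ : ℤˣ) (z w : ℍ) :
    GG ψ ((δ : ℤ) : ℝ) z w = (∑' q : ℤ × ℤˣ, hf ψ z.im w.im (((δ : ℤ) * w.re - z.re) + q.1))
      + ∑' γ : GL (Fin 2) ℤ, Set.indicator {γ | dt γ = ((δ : ℤ) : ℝ) ∧ (γ 1 0 : ℤ) ≠ 0}
        (fun γ => ENNReal.ofReal (ψ (sg z (act γ w)))) γ := by
  classical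
  have e1 : (∑' q : ℤ × ℤˣ, hf ψ z.im w.im (((δ : ℤ) * w.re - z.re) + q.1))
      = ∑' γ : GL (Fin 2) ℤ, Set.indicator {γ | dt γ = ((δ : ℤ) : ℝ) ∧ (γ 1 0 : ℤ) = 0}
        (fun γ => ENNReal.ofReal (ψ (sg z (act γ w)))) γ := by
    rw [← (ut_injective δ).tsum_eq]
    · congr 1
      ext q
      rw [Set.indicator_of_mem (show ut δ q ∈ {γ | dt γ = ((δ : ℤ) : ℝ) ∧ (γ 1 0 : ℤ) = 0} from
        ⟨dt_ut δ q, ut_10 δ q⟩), sg_ut]
    · intro γ hγ
      rw [Function.mem_support] at hγ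
      have : γ ∈ {γ | dt γ = ((δ : ℤ) : ℝ) ∧ (γ 1 0 : ℤ) = 0} := by
        by_contra hc
        exact hγ (Set.indicator_of_notMem hc _)
      obtain ⟨q, hq⟩ := exists_ut this.2 δ this.1
      exact ⟨q, hq⟩
  rw [e1, ← ENNReal.tsum_add]
  unfold GG
  congr 1
  ext γ
  by_cases h1 : dt γ = ((δ : ℤ) : ℝ)
  · by_cases h2 : (γ 1 0 : ℤ) = 0
    · rw [Set.indicator_of_mem (show γ ∈ {γ | dt γ = ((δ : ℤ) : ℝ)} from h1),
        Set.indicator_of_mem (show γ ∈ {γ | dt γ = ((δ : ℤ) : ℝ) ∧ (γ 1 0 : ℤ) = 0} from ⟨h1, h2⟩),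
        Set.indicator_of_notMem
          (show γ ∉ {γ | dt γ = ((δ : ℤ) : ℝ) ∧ (γ 1 0 : ℤ) ≠ 0} from fun h => h.2 h2), add_zero]
    · rw [Set.indicator_of_mem (show γ ∈ {γ | dt γ = ((δ : ℤ) : ℝ)} from h1),
        Set.indicator_of_notMem
          (show γ ∉ {γ | dt γ = ((δ : ℤ) : ℝ) ∧ (γ 1 0 : ℤ) = 0} from fun h => h2 h.2),
        Set.indicator_of_mem
          (show γ ∈ {γ | dt γ = ((δ : ℤ) : ℝ) ∧ (γ 1 0 : ℤ) ≠ 0} from ⟨h1, h2⟩), zero_add]
  · rw [Set.indicator_of_notMem (show γ ∉ {γ | dt γ = ((δ : ℤ) : ℝ)} from h1),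
        Set.indicator_of_notMem
          (show γ ∉ {γ | dt γ = ((δ : ℤ) : ℝ) ∧ (γ 1 0 : ℤ) = 0} from fun h => h1 h.1),
        Set.indicator_of_notMem
          (show γ ∉ {γ | dt γ = ((δ : ℤ) : ℝ) ∧ (γ 1 0 : ℤ) ≠ 0} from fun h => h1 h.1), add_zero]

/-- small radius: `exp r ≤ 2` -/
lemma part_c_ne {r : ℝ} (hr : 0 ≤ r) (hr2 : Real.exp r ≤ 2) :
    ∃ S : Finset (GL (Fin 2) ℤ), ∀ φ : NProf r, ∀ z ∈ 𝒟, ∀ w ∈ 𝒟, ∀ δ : ℤˣ,
      ∑' γ : GL (Fin 2) ℤ, Set.indicator {γ | dt γ = ((δ : ℤ) : ℝ) ∧ (γ 1 0 : ℤ) ≠ 0}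
        (fun γ => ENNReal.ofReal (φ.ψ (sg z (act γ w)))) γ ≤ S.card := by
  classical
  obtain ⟨S, hS⟩ := finite_box 10 10 (by norm_num)
  refine ⟨S, fun φ z hz w hw δ => ?_⟩
  have key : ∀ γ : GL (Fin 2) ℤ, (γ 1 0 : ℤ) ≠ 0 → φ.ψ (sg z (act γ w)) ≠ 0 → γ ∈ S := by
    intro γ hc hne
    have hd := φ.toProf.dist_lt hr hne
    have he : Real.exp (dist z (act γ w)) ≤ 2 := (Real.exp_le_exp.mpr hd.le).trans hr2
    have i1 := im_le_im_mul_exp_dist z (act γ w)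
    have i2 := im_le_im_mul_exp_dist (act γ w) z
    rw [dist_comm (act γ w) z] at i2
    have i3 := im_act_c_ne hc w
    have i4 := dist_coe_le z (act γ w)
    have z1 := im_fd hz
    have w1 := im_fd hw
    have z2 := re_fd hz
    have w2 := re_fd hw
    set g := act γ w with hg
    have gp := g.im_pos
    have j1 : z.im ≤ 2 * g.im := by nlinarith
    have j2 : g.im ≤ 2 * z.im := by nlinarith [z.im_pos]
    have j3 : g.im ≤ 2 := by nlinarith
    have j4 : z.im ≤ 4 := by linarith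
    have j5 : w.im ≤ 4 := by nlinarith
    have j6 : dist (z : ℂ) g ≤ g.im := by nlinarith
    have j7 : |g.re| ≤ 10 := by
      have h1 := Complex.abs_re_le_norm ((z : ℂ) - g)
      rw [← Complex.dist_eq] at h1
      simp only [Complex.sub_re, coe_re] at h1
      have h2 : |g.re| ≤ |z.re| + |z.re - g.re| := by
        have := abs_sub_abs_le_abs_sub g.re z.re
        rw [abs_sub_comm g.re z.re] at this
        linarith
      linarith
    refine hS γ w ⟨by linarith, by linarith, by linarith⟩ ⟨j7, ?_, by linarith⟩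
    have : (1 : ℝ) / 4 ≤ g.im := by linarith
    linarith
  rw [tsum_eq_sum (s := S)]
  · have hb : ∀ γ ∈ S, Set.indicator {γ | dt γ = ((δ : ℤ) : ℝ) ∧ (γ 1 0 : ℤ) ≠ 0}
        (fun γ => ENNReal.ofReal (φ.ψ (sg z (act γ w)))) γ ≤ (1 : ℝ≥0∞) := by
      intro γ _
      refine (Set.indicator_le_self' (f := fun γ => ENNReal.ofReal (φ.ψ (sg z (act γ w))))
        (fun _ _ => by simp) γ).trans ?_
      exact ENNReal.ofReal_le_one.mpr (φ.le_one _)
    refine (Finset.sum_le_sum hb).trans ?_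
    simp
  · intro γ hγ
    by_cases h : γ ∈ {γ | dt γ = ((δ : ℤ) : ℝ) ∧ (γ 1 0 : ℤ) ≠ 0}
    · rw [Set.indicator_of_mem h]
      have : φ.ψ (sg z (act γ w)) = 0 := by
        by_contra hc
        exact hγ (key γ h.2 hc)
      rw [this]; simp
    · rw [Set.indicator_of_notMem h]

lemma GG_le {r : ℝ} (hr : 0 ≤ r) (hr2 : Real.exp r ≤ 2) :
    ∃ N : ℕ, ∀ φ : NProf r, ∀ z ∈ 𝒟, ∀ w ∈ 𝒟, ∀ δ δ' : ℤˣ,
      GG φ.ψ ((δ : ℤ) : ℝ) z w ≤ GG φ.ψ ((δ' : ℤ) : ℝ) z w + N := by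
  obtain ⟨S, hS⟩ := part_c_ne hr hr2
  refine ⟨4 + S.card, fun φ z hz w hw δ δ' => ?_⟩
  rw [GG_split, GG_split φ.ψ δ']
  have h1 := hS φ z hz w hw δ
  have h2 : (∑' q : ℤ × ℤˣ, hf φ.ψ z.im w.im (((δ : ℤ) * w.re - z.re) + q.1))
      ≤ (∑' q : ℤ × ℤˣ, hf φ.ψ z.im w.im (((δ' : ℤ) * w.re - z.re) + q.1)) + 4 := by
    have hx : ∀ t : ℝ, (∑' q : ℤ × ℤˣ, hf φ.ψ z.im w.im (t + q.1))
        = 2 * ∑' n : ℤ, hf φ.ψ z.im w.im (t + n) := by
      intro t
      rw [ENNReal.tsum_prod']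
      simp only [tsum_fintype, Finset.sum_const, Finset.card_univ, Fintype.card_units_int]
      rw [← ENNReal.tsum_mul_left]
      congr 1
      ext n
      simp [two_mul]
    rw [hx, hx]
    have := unimodal (hf φ.ψ z.im w.im) (hf_mono φ z.im_pos w.im_pos) 1 (hf_le_one φ z.im w.im)
      ((δ' : ℤ) * w.re - z.re) ((δ : ℤ) * w.re - z.re)
    calc 2 * ∑' n : ℤ, hf φ.ψ z.im w.im (((δ : ℤ) * w.re - z.re) + n)
        ≤ 2 * ((∑' n : ℤ, hf φ.ψ z.im w.im (((δ' : ℤ) * w.re - z.re) + n)) + (1 + 1)) := by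
          gcongr
      _ = _ := by
        rw [mul_add]
        norm_num
  calc _ ≤ ((∑' q : ℤ × ℤˣ, hf φ.ψ z.im w.im (((δ' : ℤ) * w.re - z.re) + q.1)) + 4) + S.card :=
        add_le_add h2 h1
    _ ≤ _ := by
        push_cast
        rw [add_assoc]
        gcongr
        exact le_add_right le_rfl

lemma exists_act_fd (z : ℍ) : ∃ γ : GL (Fin 2) ℤ, act γ z ∈ 𝒟 := by
  obtain ⟨g, hg⟩ := ModularGroup.exists_smul_mem_fd z
  exact ⟨slgl g, by rw [act_slgl]; exact hg⟩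

lemma Kodd_bounded {r : ℝ} (hr : 0 ≤ r) (hr2 : Real.exp r ≤ 2) :
    ∃ N : ℕ, ∀ φ : NProf r, ∀ z w, |Kodd φ.ψ z w| ≤ N := by
  obtain ⟨N, hN⟩ := GG_le hr hr2
  refine ⟨N, fun φ => ?_⟩
  have h1 : ∀ z ∈ 𝒟, ∀ w ∈ 𝒟, |Kodd φ.ψ z w| ≤ N := by
    intro z hz w hw
    rw [Kodd_eq hr φ z w]
    have e1 := hN φ z hz w hw 1 (-1)
    have e2 := hN φ z hz w hw (-1) 1
    simp only [Units.val_one, Int.cast_one, Units.val_neg, Int.reduceNeg, Int.cast_neg] at e1 e2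
    have f1 := GG_ne_top hr φ.toProf 1 z w
    have f2 := GG_ne_top hr φ.toProf (-1) z w
    have g1 := ENNReal.toReal_mono (by simp [f2]) e1
    have g2 := ENNReal.toReal_mono (by simp [f1]) e2
    rw [ENNReal.toReal_add f2 (by simp)] at g1
    rw [ENNReal.toReal_add f1 (by simp)] at g2
    simp only [ENNReal.toReal_natCast] at g1 g2
    rw [abs_le]
    constructor <;> linarith
  intro z w
  obtain ⟨γ, hγ⟩ := exists_act_fd z
  obtain ⟨δ, hδ⟩ := exists_act_fd w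
  have := h1 _ hγ _ hδ
  rw [Kodd_act, Kodd_act_right, abs_mul, abs_mul, abs_dt, abs_dt, one_mul, one_mul] at this
  exact this

end

end Pool.Agent.V1143.Maass
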