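import Mathlib

/-! Point-pair invariants on the upper half-plane. -/

namespace Pool.Agent.V1143.Maass

open UpperHalfPlane MeasureTheory Matrix

noncomputable section

/-- The point-pair invariant `4 y y' / (4 y y' + |z - w|^2)`. -/
def sg (z w : ℍ) : ℝ := 4 * z.im * w.im / (4 * z.im * w.im + dist (z : ℂ) w ^ 2)

lemma dist_smul_coe (g : GL (Fin 2) ℝ) (z w : ℍ) :
    dist ((g • z : ℍ) : ℂ) ((g • w : ℍ) : ℂ)
      = |g.det.val| * dist (z : ℂ) w / (‖denom g z‖ * ‖denom g w‖) := by
  rw [coe_smul, coe_smul, dist_eq_norm, ← map_sub, norm_σ, dist_eq_norm]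
  have h1 := denom_ne_zero g z
  have h2 := denom_ne_zero g w
  rw [div_sub_div _ _ h1 h2]
  rw [norm_div, norm_mul]
  congr 1
  have : num g ↑z * denom g ↑w - denom g ↑z * num g ↑w = (g.det.val : ℂ) * ((z : ℂ) - w) := by
    rw [Matrix.GeneralLinearGroup.val_det_apply, Matrix.det_fin_two]
    simp only [num, denom]
    push_cast
    ring
  rw [this, norm_mul, Complex.norm_real, Real.norm_eq_abs]

lemma sg_smul (g : GL (Fin 2) ℝ) (z w : ℍ) : sg (g • z) (g • w) = sg z w := by
  unfold sg
  rw [dist_smul_coe, im_smul_eq_div_normSq, im_smul_eq_div_normSq]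
  have h1 : 0 < ‖denom g z‖ := norm_pos_iff.mpr (denom_ne_zero g z)
  have h2 : 0 < ‖denom g w‖ := norm_pos_iff.mpr (denom_ne_zero g w)
  have h3 : 0 < |g.det.val| := abs_pos.mpr g.det.ne_zero
  have hz := z.im_pos
  have hw := w.im_pos
  rw [Complex.normSq_eq_norm_sq, Complex.normSq_eq_norm_sq]
  have e1 : (0:ℝ) < 4 * z.im * w.im + dist (z : ℂ) w ^ 2 := by positivity
  have key : 4 * (|g.det.val| * z.im / ‖denom g z‖ ^ 2) * (|g.det.val| * w.im / ‖denom g w‖ ^ 2) +
      (|g.det.val| * dist (z : ℂ) w / (‖denom g z‖ * ‖denom g w‖)) ^ 2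
      = |g.det.val| ^ 2 / (‖denom g z‖ ^ 2 * ‖denom g w‖ ^ 2) *
        (4 * z.im * w.im + dist (z : ℂ) w ^ 2) := by
    field_simp
  rw [key]
  have key2 : 4 * (|g.det.val| * z.im / ‖denom g z‖ ^ 2) * (|g.det.val| * w.im / ‖denom g w‖ ^ 2)
      = |g.det.val| ^ 2 / (‖denom g z‖ ^ 2 * ‖denom g w‖ ^ 2) * (4 * z.im * w.im) := by
    field_simp
  rw [key2]
  rw [mul_div_mul_left]
  positivity

lemma sg_comm (z w : ℍ) : sg z w = sg w z := by
  unfold sg
  rw [dist_comm]
  congr 1 <;> ring

lemma sg_pos (z w : ℍ) : 0 < sg z w := by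
  unfold sg
  have hz := z.im_pos
  have hw := w.im_pos
  positivity

lemma sg_le_one (z w : ℍ) : sg z w ≤ 1 := by
  unfold sg
  have hz := z.im_pos
  have hw := w.im_pos
  rw [div_le_one (by positivity)]
  have : 0 ≤ dist (z : ℂ) w ^ 2 := by positivity
  linarith

lemma sg_self (z : ℍ) : sg z z = 1 := by
  unfold sg
  have hz := z.im_pos
  rw [dist_self]
  field_simp
  ring

lemma sg_eq (z w : ℍ) : sg z w = 2 / (1 + Real.cosh (dist z w)) := by
  rw [cosh_dist]
  unfold sg
  have hz := z.im_pos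
  have hw := w.im_pos
  have : (0:ℝ) ≤ dist (z : ℂ) w ^ 2 := by positivity
  field_simp
  ring

/-- cutoff value for radius `r` -/
def cr (r : ℝ) : ℝ := 2 / (1 + Real.cosh r)

lemma cr_pos (r : ℝ) : 0 < cr r := by
  unfold cr
  have := Real.one_le_cosh r
  positivity

lemma dist_lt_of_sg {r : ℝ} (hr : 0 ≤ r) {z w : ℍ} (h : cr r < sg z w) : dist z w < r := by
  rw [sg_eq, cr, div_lt_div_iff₀ (by have := Real.one_le_cosh r; positivity)
    (by have := Real.one_le_cosh (dist z w); positivity)] at h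
  have : Real.cosh (dist z w) < Real.cosh r := by linarith
  rw [Real.cosh_lt_cosh, abs_of_nonneg dist_nonneg, abs_of_nonneg hr] at this
  exact this

lemma sg_of_dist_lt {r : ℝ} {z w : ℍ} (h : dist z w < r) : cr r < sg z w := by
  have hr : 0 ≤ r := le_trans dist_nonneg h.le
  rw [sg_eq, cr, div_lt_div_iff₀ (by have := Real.one_le_cosh r; positivity)
    (by have := Real.one_le_cosh (dist z w); positivity)]
  have : Real.cosh (dist z w) < Real.cosh r := by
    rw [Real.cosh_lt_cosh, abs_of_nonneg dist_nonneg, abs_of_nonneg hr]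
    exact h
  linarith

lemma continuous_sg : Continuous (fun p : ℍ × ℍ => sg p.1 p.2) := by
  unfold sg
  refine Continuous.div ?_ ?_ ?_
  · fun_prop
  · fun_prop
  · rintro ⟨z, w⟩
    have hz := z.im_pos
    have hw := w.im_pos
    positivity

lemma dist_smul_gl (g : GL (Fin 2) ℝ) (z w : ℍ) : dist (g • z) (g • w) = dist z w := by
  have h := sg_smul g z w
  rw [sg_eq, sg_eq] at h
  have h1 := Real.one_le_cosh (dist z w)
  have h2 := Real.one_le_cosh (dist (g • z) (g • w))
  rw [div_eq_div_iff (by positivity) (by positivity)] at h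
  have h3 : Real.cosh (dist (g • z) (g • w)) = Real.cosh (dist z w) := by linarith
  have a := abs_of_nonneg (dist_nonneg (x := z) (y := w))
  have b := abs_of_nonneg (dist_nonneg (x := g • z) (y := g • w))
  have e1 := Real.cosh_le_cosh.mp h3.le
  have e2 := Real.cosh_le_cosh.mp h3.ge
  rw [a, b] at e1
  rw [a, b] at e2
  exact le_antisymm e1 e2

/-- The swapping matrix. -/
lemma exists_swap (z v : ℍ) : ∃ g : GL (Fin 2) ℝ, g • z = v ∧ g • v = z := by
  have hz := z.im_pos
  have hv := v.im_pos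
  set a : ℝ := z.re * v.im + z.im * v.re with ha
  set c : ℝ := z.im + v.im with hc
  set b : ℝ := c * (z.re * v.re - z.im * v.im) - a * (z.re + v.re) with hb
  have hdet : a * (-a) - b * c = z.im * v.im * ((z.re - v.re) ^ 2 + (z.im + v.im) ^ 2) := by
    rw [hb, ha, hc]; ring
  have hdpos : 0 < a * (-a) - b * c := by
    rw [hdet]; positivity
  set m : Matrix (Fin 2) (Fin 2) ℝ := !![a, b; c, -a] with hm
  have hmd : m.det = a * (-a) - b * c := by
    rw [hm, Matrix.det_fin_two_of]
  have key : ∀ p q : ℍ, a = p.re * q.im + p.im * q.re → c = p.im + q.im →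
      b = c * (p.re * q.re - p.im * q.im) - a * (p.re + q.re) →
      (GeneralLinearGroup.mkOfDetNeZero m (by rw [hmd]; exact hdpos.ne')) • p = q := by
    intro p q h1 h2 h3
    set g := GeneralLinearGroup.mkOfDetNeZero m (by rw [hmd]; exact hdpos.ne') with hg
    have hgd : 0 < g.det.val := by
      rw [Matrix.GeneralLinearGroup.val_det_apply]
      change 0 < m.det
      rw [hmd]; exact hdpos
    ext
    rw [coe_smul_of_det_pos hgd]
    have hd := denom_ne_zero g p
    rw [div_eq_iff hd]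
    have e1 : num g (p:ℂ) = (a:ℂ) * p + b := by
      simp [num, hg, hm]
    have e2 : denom g (p:ℂ) = (c:ℂ) * p + ((-a : ℝ):ℂ) := by
      simp [denom, hg, hm]
    rw [e1, e2]
    apply Complex.ext
    · simp
      rw [h3, h1, h2]
      ring
    · simp
      rw [h1, h2]
      ring
  refine ⟨GeneralLinearGroup.mkOfDetNeZero m (by rw [hmd]; exact hdpos.ne'), ?_, ?_⟩
  · exact key z v ha hc hb
  · exact key v z (by rw [ha]; ring) (by rw [hc]; ring) (by rw [hb]; ring)

end

end Pool.Agent.V1143.Maass
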