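import Pool.Agent.V1143.Maass.Ops

/-! The hyperbolic Laplacian of a convolution. -/

namespace Pool.Agent.V1143.Maass

open MeasureTheory Filter Topology UpperHalfPlane
open scoped ENNReal MatrixGroups Modular

noncomputable section

/-- shift of a point -/
lemma oc_shift {z : ℍ} {e : ℂ} {t : ℝ} (h : 0 < ((z : ℂ) + t * e).im) :
    ((ofComplex ((z : ℂ) + t * e) : ℍ) : ℂ) = (z : ℂ) + t * e := by
  rw [ofComplex_apply_of_im_pos h]

lemma continuousAt_shift (z : ℍ) (e : ℂ) :
    ContinuousAt (fun t : ℝ => ofComplex ((z : ℂ) + t * e)) 0 := by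
  have h1 : ContinuousAt (fun t : ℝ => (z : ℂ) + t * e) 0 := by fun_prop
  have h2 : ContinuousAt (ofComplex : ℂ → ℍ) ((z : ℂ) + (0 : ℝ) * e) := by
    simp only [Complex.ofReal_zero, zero_mul, add_zero]
    exact (mdifferentiableAt_ofComplex z.im_pos).continuousAt
  exact ContinuousAt.comp (f := fun t : ℝ => (z : ℂ) + t * e) h2 h1

lemma nhds_shift (z : ℍ) (e : ℂ) :
    {t : ℝ | dist (ofComplex ((z : ℂ) + t * e)) z < 1 ∧ 0 < ((z : ℂ) + t * e).im} ∈ 𝓝 (0 : ℝ) := by
  have h1 : Tendsto (fun t : ℝ => dist (ofComplex ((z : ℂ) + t * e)) z) (𝓝 0) (𝓝 0) := by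
    have := (continuousAt_shift z e).dist (continuousAt_const (y := z))
    have h2 : dist (ofComplex ((z : ℂ) + (0:ℝ) * e)) z = 0 := by
      simp [ofComplex_apply]
    have h5 : Tendsto (fun t : ℝ => dist (ofComplex ((z : ℂ) + t * e)) z) (𝓝 0)
      (𝓝 (dist (ofComplex ((z : ℂ) + (0:ℝ) * e)) z)) := this
    rw [h2] at h5
    exact h5
  have h3 : ContinuousAt (fun t : ℝ => ((z : ℂ) + t * e).im) 0 := by fun_prop
  have h4 : 0 < ((z : ℂ) + (0:ℝ) * e).im := by simpa using z.im_pos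
  exact (h1.eventually_lt_const zero_lt_one).and (h3.eventually_const_lt h4)

lemma param_deriv (P P' : ℍ → ℍ → ℝ) (hP : Continuous (Function.uncurry P))
    (hP' : Continuous (Function.uncurry P')) (r : ℝ)
    (hs : ∀ z w, P z w ≠ 0 → dist z w < r) (hs' : ∀ z w, P' z w ≠ 0 → dist z w < r) (e : ℂ)
    (hd : ∀ z w : ℍ, HasDerivAt (fun t : ℝ => P (ofComplex ((z : ℂ) + t * e)) w) (P' z w) 0)
    {F : ℍ → ℂ} (hF : Measurable F) (hFb : ∃ M : ℝ, ∀ z, ‖F z‖ ≤ M) (z : ℍ) :
    HasDerivAt (fun t : ℝ => ∫ w, (P (ofComplex ((z : ℂ) + t * e)) w : ℂ) * F w)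
      (∫ w, (P' z w : ℂ) * F w) 0 := by
  obtain ⟨M, hM⟩ := hFb
  have hM0 : 0 ≤ M := (norm_nonneg _).trans (hM z)
  set K := Metric.closedBall z (r + 1) with hK
  have hKc : IsCompact (Metric.closedBall z 1 ×ˢ K) :=
    (isCompact_closedBall z 1).prod (isCompact_closedBall z (r + 1))
  obtain ⟨C, hC⟩ := hKc.exists_bound_of_continuousOn hP'.continuousOn
  have hPm : ∀ z' : ℍ, Measurable (fun w => (P z' w : ℂ) * F w) := fun z' =>
    (Complex.measurable_ofReal.comp (hP.measurable.comp (measurable_prodMk_left (x := z')))).mul hF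
  have hPm' : ∀ z' : ℍ, Measurable (fun w => (P' z' w : ℂ) * F w) := fun z' =>
    (Complex.measurable_ofReal.comp (hP'.measurable.comp (measurable_prodMk_left (x := z')))).mul hF
  have e0 : ofComplex ((z : ℂ) + (0:ℝ) * e) = z := by simp [ofComplex_apply]
  have key := hasDerivAt_integral_of_dominated_loc_of_deriv_le (μ := (volume : Measure ℍ))
    (F := fun (t : ℝ) w => (P (ofComplex ((z : ℂ) + t * e)) w : ℂ) * F w)
    (F' := fun (t : ℝ) w => (P' (ofComplex ((z : ℂ) + t * e)) w : ℂ) * F w)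
    (x₀ := (0 : ℝ)) (bound := K.indicator (fun _ => C * M)) (nhds_shift z e) ?_ ?_ ?_ ?_ ?_ ?_
  · have h2 := key.2
    simp only [e0] at h2
    exact h2
  · exact Filter.Eventually.of_forall fun t => (hPm _).aestronglyMeasurable
  · rw [e0]
    obtain ⟨C1, hC1⟩ := ((isCompact_singleton (x := z)).prod
      (isCompact_closedBall z r)).exists_bound_of_continuousOn hP.continuousOn
    refine integrable_of_ball (hPm z).aestronglyMeasurable z r (C1 * M) ?_ ?_
    · intro w hw
      rw [norm_mul, Complex.norm_real]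
      have := hC1 (z, w) ⟨rfl, hw⟩
      have h0 : 0 ≤ C1 := (norm_nonneg _).trans this
      exact mul_le_mul this (hM w) (norm_nonneg _) h0
    · intro w hw
      have : P z w = 0 := by
        by_contra hc
        have := hs z w hc
        rw [Metric.mem_closedBall, dist_comm] at hw
        exact hw this.le
      rw [this]; simp
  · exact (hPm' _).aestronglyMeasurable
  · refine Filter.Eventually.of_forall fun w t ht => ?_
    obtain ⟨ht1, ht2⟩ := ht
    by_cases hw : w ∈ K
    · rw [Set.indicator_of_mem hw, norm_mul, Complex.norm_real]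
      have := hC (ofComplex ((z : ℂ) + t * e), w) ⟨Metric.mem_closedBall.mpr ht1.le, hw⟩
      have h0 : 0 ≤ C := (norm_nonneg _).trans this
      exact mul_le_mul this (hM w) (norm_nonneg _) h0
    · rw [Set.indicator_of_notMem hw]
      have : P' (ofComplex ((z : ℂ) + t * e)) w = 0 := by
        by_contra hc
        have h1 := hs' _ w hc
        apply hw
        rw [hK, Metric.mem_closedBall]
        have h2 := dist_triangle_left w z (ofComplex ((z : ℂ) + t * e))
        linarith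
      rw [this]; simp
  · exact (integrable_indicator_iff measurableSet_closedBall).mpr
      (integrableOn_const (volume_closedBall_lt_top z (r + 1)).ne)
  · refine Filter.Eventually.of_forall fun w t ht => ?_
    obtain ⟨ht1, ht2⟩ := ht
    have h1 := hd (ofComplex ((z : ℂ) + t * e)) w
    have h2 : HasDerivAt (fun s : ℝ => P (ofComplex (((ofComplex ((z : ℂ) + t * e) : ℍ) : ℂ)
        + ((s - t : ℝ) : ℂ) * e)) w) (P' (ofComplex ((z : ℂ) + t * e)) w) t := by
      have h3 : HasDerivAt (fun s : ℝ => s - t) 1 t := (hasDerivAt_id t).sub_const t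
      have h4 := HasDerivAt.scomp (h := fun s : ℝ => s - t) (x := t)
        (g₁ := fun τ : ℝ => P (ofComplex (((ofComplex ((z : ℂ) + t * e) : ℍ) : ℂ) + (τ : ℂ) * e)) w)
        (g₁' := P' (ofComplex ((z : ℂ) + t * e)) w) (h' := 1)
        (by simpa using h1) h3
      rw [one_smul] at h4
      exact h4
    have h5 : (fun s : ℝ => P (ofComplex (((ofComplex ((z : ℂ) + t * e) : ℍ) : ℂ)
        + ((s - t : ℝ) : ℂ) * e)) w) = fun s : ℝ => P (ofComplex ((z : ℂ) + s * e)) w := by
      ext s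
      rw [oc_shift ht2]
      congr 2
      push_cast
      ring
    rw [h5] at h2
    exact (h2.ofReal_comp).mul_const (F w)

/-- smooth profiles -/
structure SProf (r : ℝ) extends Prof r where
  smooth : ContDiff ℝ (⊤ : ℕ∞) ψ

/-- derivative of a profile -/
def SProf.der {r : ℝ} (φ : SProf r) : SProf r where
  ψ := deriv φ.ψ
  cont := φ.smooth.continuous_deriv (by exact_mod_cast le_top)
  supp := by
    have hc : Continuous (deriv φ.ψ) := φ.smooth.continuous_deriv (by exact_mod_cast le_top)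
    have h1 : ∀ s, s < cr r → deriv φ.ψ s = 0 := by
      intro s hs
      have : φ.ψ =ᶠ[𝓝 s] fun _ => 0 := by
        filter_upwards [eventually_lt_nhds hs] with t ht
        exact φ.supp t ht.le
      rw [this.deriv_eq, deriv_const]
    intro s hs
    rcases hs.lt_or_eq with h | h
    · exact h1 s h
    · rw [h]
      have h2 : Tendsto (deriv φ.ψ) (𝓝[<] (cr r)) (𝓝 (deriv φ.ψ (cr r))) :=
        hc.continuousAt.mono_left nhdsWithin_le_nhds
      have h3 : Tendsto (deriv φ.ψ) (𝓝[<] (cr r)) (𝓝 0) := by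
        refine tendsto_const_nhds.congr' ?_
        filter_upwards [self_mem_nhdsWithin] with t ht
        exact (h1 t ht).symm
      exact tendsto_nhds_unique h2 h3
  smooth := by
    have := φ.smooth
    rw [show ((⊤ : ℕ∞) : WithTop ℕ∞) = (⊤ : ℕ∞) + 1 from rfl] at this
    exact (contDiff_succ_iff_deriv.mp this).2.2

/-- multiplication of a profile -/
def SProf.mul {r : ℝ} (g : ℝ → ℝ) (hg : ContDiff ℝ (⊤ : ℕ∞) g) (φ : SProf r) : SProf r where
  ψ s := g s * φ.ψ s
  cont := hg.continuous.mul φ.cont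
  supp s hs := by rw [φ.supp s hs, mul_zero]
  smooth := hg.mul φ.smooth

/-- sum of profiles -/
def SProf.add {r : ℝ} (φ χ : SProf r) : SProf r where
  ψ s := φ.ψ s + χ.ψ s
  cont := φ.cont.add χ.cont
  supp s hs := by rw [φ.supp s hs, χ.supp s hs, add_zero]
  smooth := φ.smooth.add χ.smooth

/-- the operator A1: -s² ψ' -/
def SProf.a1 {r : ℝ} (φ : SProf r) : SProf r :=
  SProf.mul (fun s => -s ^ 2) (by fun_prop) φ.der

/-- the Laplacian of a profile -/
def SProf.lap {r : ℝ} (φ : SProf r) : SProf r :=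
  SProf.add (SProf.mul (fun s => s ^ 2 * (1 - s)) (by fun_prop) φ.der.der)
    (SProf.mul (fun s => -s ^ 2) (by fun_prop) φ.der)

lemma SProf.lap_apply {r : ℝ} (φ : SProf r) (s : ℝ) :
    φ.lap.ψ s = s ^ 2 * ((1 - s) * deriv (deriv φ.ψ) s - deriv φ.ψ s) := by
  change s ^ 2 * (1 - s) * deriv (deriv φ.ψ) s + (-s ^ 2) * deriv φ.ψ s = _
  ring

lemma SProf.a1_apply {r : ℝ} (φ : SProf r) (s : ℝ) : φ.a1.ψ s = -s ^ 2 * deriv φ.ψ s := rfl

lemma SProf.hasDerivAt {r : ℝ} (φ : SProf r) (s : ℝ) : HasDerivAt φ.ψ (deriv φ.ψ s) s :=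
  ((φ.smooth.differentiable (by simp)) s).hasDerivAt

/-- reciprocal of sg as a function of real coordinates -/
def rr (x y u v : ℝ) : ℝ := ((x - u) ^ 2 + (y + v) ^ 2) / (4 * y * v)

lemma sg_rr (z w : ℍ) : sg z w = (rr z.re z.im w.re w.im)⁻¹ := by
  unfold sg rr
  rw [dist_coe_sq, inv_div]
  have h1 := z.im_pos
  have h2 := w.im_pos
  congr 1
  ring

lemma rr_pos {x y u v : ℝ} (hy : 0 < y) (hv : 0 < v) : 0 < rr x y u v := by
  unfold rr
  have : 0 < (y + v) ^ 2 := by positivity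
  positivity

/-- derivative coefficient in x -/
def mx (z w : ℍ) : ℝ := (z.re - w.re) / (2 * z.im * w.im)

/-- derivative coefficient in y -/
def my (z w : ℍ) : ℝ := (z.im ^ 2 - w.im ^ 2 - (z.re - w.re) ^ 2) / (4 * z.im ^ 2 * w.im)

/-- second derivative coefficient in x -/
def mxx (z w : ℍ) : ℝ := 1 / (2 * z.im * w.im)

/-- second derivative coefficient in y -/
def myy (z w : ℍ) : ℝ := (w.im ^ 2 + (z.re - w.re) ^ 2) / (2 * z.im ^ 3 * w.im)

lemma re_shift_x (z : ℍ) (t : ℝ) : (ofComplex ((z : ℂ) + t * 1)).re = z.re + t ∧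
    (ofComplex ((z : ℂ) + t * 1)).im = z.im := by
  have h : 0 < ((z : ℂ) + t * 1).im := by simpa using z.im_pos
  rw [ofComplex_apply_of_im_pos h]
  constructor
  · change ((z : ℂ) + t * 1).re = _
    simp
  · change ((z : ℂ) + t * 1).im = _
    simp

lemma re_shift_y (z : ℍ) {t : ℝ} (ht : 0 < z.im + t) :
    (ofComplex ((z : ℂ) + t * Complex.I)).re = z.re ∧
    (ofComplex ((z : ℂ) + t * Complex.I)).im = z.im + t := by
  have h : 0 < ((z : ℂ) + t * Complex.I).im := by simpa using ht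
  rw [ofComplex_apply_of_im_pos h]
  constructor
  · change ((z : ℂ) + t * Complex.I).re = _
    simp
  · change ((z : ℂ) + t * Complex.I).im = _
    simp

lemma eventually_im (z : ℍ) : ∀ᶠ t : ℝ in 𝓝 0, 0 < z.im + t := by
  have h : ContinuousAt (fun t : ℝ => z.im + t) 0 := by fun_prop
  exact h.eventually_const_lt (by simpa using z.im_pos)

lemma hasDerivAt_rr_x {x y u v : ℝ} (hy : 0 < y) (hv : 0 < v) :
    HasDerivAt (fun t => rr (x + t) y u v) ((x - u) / (2 * y * v)) 0 := by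
  unfold rr
  have h1 : HasDerivAt (fun t : ℝ => x + t - u) 1 0 :=
    ((hasDerivAt_id (0:ℝ)).const_add x).sub_const u
  have h2 := ((h1.pow 2).add_const ((y + v) ^ 2)).div_const (4 * y * v)
  refine h2.congr_deriv ?_
  field_simp
  ring

lemma hasDerivAt_rr_y {x y u v : ℝ} (hy : 0 < y) (hv : 0 < v) :
    HasDerivAt (fun t => rr x (y + t) u v) ((y ^ 2 - v ^ 2 - (x - u) ^ 2) / (4 * y ^ 2 * v)) 0 := by
  unfold rr
  have h1 : HasDerivAt (fun t : ℝ => y + t + v) 1 0 :=
    ((hasDerivAt_id (0:ℝ)).const_add y).add_const v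
  have h3 : HasDerivAt (fun t : ℝ => 4 * (y + t) * v) (4 * 1 * v) 0 :=
    (((hasDerivAt_id (0:ℝ)).const_add y).const_mul 4).mul_const v
  have h2 := ((h1.pow 2).const_add ((x - u) ^ 2)).div h3 (by
    have : (0:ℝ) < 4 * (y + 0) * v := by positivity
    exact this.ne')
  refine h2.congr_deriv ?_
  simp only [add_zero, Pi.pow_apply]
  field_simp
  ring

lemma hasDerivAt_sg_x (z w : ℍ) :
    HasDerivAt (fun t : ℝ => sg (ofComplex ((z : ℂ) + t * 1)) w) (-(sg z w) ^ 2 * mx z w) 0 := by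
  have e : (fun t : ℝ => sg (ofComplex ((z : ℂ) + t * 1)) w)
      = fun t : ℝ => (rr (z.re + t) z.im w.re w.im)⁻¹ := by
    ext t
    rw [sg_rr, (re_shift_x z t).1, (re_shift_x z t).2]
  rw [e]
  have hp : 0 < rr z.re z.im w.re w.im := rr_pos z.im_pos w.im_pos
  have h := (hasDerivAt_rr_x (x := z.re) (u := w.re) z.im_pos w.im_pos).inv
    (by rw [add_zero]; exact hp.ne')
  refine h.congr_deriv ?_
  rw [add_zero, sg_rr]
  unfold mx
  rw [inv_pow]
  ring

lemma hasDerivAt_sg_y (z w : ℍ) :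
    HasDerivAt (fun t : ℝ => sg (ofComplex ((z : ℂ) + t * Complex.I)) w)
      (-(sg z w) ^ 2 * my z w) 0 := by
  have e : (fun t : ℝ => sg (ofComplex ((z : ℂ) + t * Complex.I)) w)
      =ᶠ[𝓝 0] fun t : ℝ => (rr z.re (z.im + t) w.re w.im)⁻¹ := by
    filter_upwards [eventually_im z] with t ht
    rw [sg_rr, (re_shift_y z ht).1, (re_shift_y z ht).2]
  refine HasDerivAt.congr_of_eventuallyEq ?_ e
  have hp : 0 < rr z.re z.im w.re w.im := rr_pos z.im_pos w.im_pos
  have h := (hasDerivAt_rr_y (x := z.re) (u := w.re) z.im_pos w.im_pos).inv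
    (by rw [add_zero]; exact hp.ne')
  refine h.congr_deriv ?_
  rw [add_zero, sg_rr]
  unfold my
  rw [inv_pow]
  ring

lemma hasDerivAt_mx (z w : ℍ) :
    HasDerivAt (fun t : ℝ => mx (ofComplex ((z : ℂ) + t * 1)) w) (mxx z w) 0 := by
  have e : (fun t : ℝ => mx (ofComplex ((z : ℂ) + t * 1)) w)
      = fun t : ℝ => (z.re + t - w.re) / (2 * z.im * w.im) := by
    ext t
    unfold mx
    rw [(re_shift_x z t).1, (re_shift_x z t).2]
  rw [e]
  have h1 : HasDerivAt (fun t : ℝ => z.re + t - w.re) 1 0 :=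
    ((hasDerivAt_id (0:ℝ)).const_add z.re).sub_const w.re
  exact h1.div_const _

lemma hasDerivAt_my (z w : ℍ) :
    HasDerivAt (fun t : ℝ => my (ofComplex ((z : ℂ) + t * Complex.I)) w) (myy z w) 0 := by
  have e : (fun t : ℝ => my (ofComplex ((z : ℂ) + t * Complex.I)) w)
      =ᶠ[𝓝 0] fun t : ℝ => ((z.im + t) ^ 2 - w.im ^ 2 - (z.re - w.re) ^ 2) /
        (4 * (z.im + t) ^ 2 * w.im) := by
    filter_upwards [eventually_im z] with t ht
    unfold my
    rw [(re_shift_y z ht).1, (re_shift_y z ht).2]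
  refine HasDerivAt.congr_of_eventuallyEq ?_ e
  have hz := z.im_pos
  have hw := w.im_pos
  have h1 : HasDerivAt (fun t : ℝ => z.im + t) 1 0 := (hasDerivAt_id (0:ℝ)).const_add z.im
  have h2 : HasDerivAt (fun t : ℝ => (z.im + t) ^ 2 - w.im ^ 2 - (z.re - w.re) ^ 2)
      (2 * (z.im + 0) ^ 1 * 1) 0 := ((h1.pow 2).sub_const _).sub_const _
  have h3 : HasDerivAt (fun t : ℝ => 4 * (z.im + t) ^ 2 * w.im)
      (4 * (2 * (z.im + 0) ^ 1 * 1) * w.im) 0 := ((h1.pow 2).const_mul 4).mul_const w.im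
  have h4 := h2.div h3 (by
    have : (0:ℝ) < 4 * (z.im + 0) ^ 2 * w.im := by rw [add_zero]; positivity
    exact this.ne')
  refine h4.congr_deriv ?_
  unfold myy
  simp only [add_zero]
  field_simp
  ring

/-- first derivative kernels -/
def P1 {r : ℝ} (φ : SProf r) (m : ℍ → ℍ → ℝ) (z w : ℍ) : ℝ := φ.a1.ψ (sg z w) * m z w

/-- second derivative kernels -/
def P2 {r : ℝ} (φ : SProf r) (m mm : ℍ → ℍ → ℝ) (z w : ℍ) : ℝ :=
  φ.a1.a1.ψ (sg z w) * m z w ^ 2 + φ.a1.ψ (sg z w) * mm z w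

lemma P0_deriv {r : ℝ} (φ : SProf r) (m : ℍ → ℍ → ℝ) (e : ℂ) (z w : ℍ)
    (h : HasDerivAt (fun t : ℝ => sg (ofComplex ((z : ℂ) + t * e)) w) (-(sg z w) ^ 2 * m z w) 0) :
    HasDerivAt (fun t : ℝ => φ.ψ (sg (ofComplex ((z : ℂ) + t * e)) w)) (P1 φ m z w) 0 := by
  have e0 : ofComplex ((z : ℂ) + (0:ℝ) * e) = z := by simp [ofComplex_apply]
  have h1 := φ.hasDerivAt (sg (ofComplex ((z : ℂ) + (0:ℝ) * e)) w)
  have h2 := HasDerivAt.comp (0:ℝ) h1 h
  refine h2.congr_deriv ?_
  rw [e0]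
  unfold P1
  rw [SProf.a1_apply]
  ring

lemma P1_deriv {r : ℝ} (φ : SProf r) (m mm : ℍ → ℍ → ℝ) (e : ℂ) (z w : ℍ)
    (h : HasDerivAt (fun t : ℝ => sg (ofComplex ((z : ℂ) + t * e)) w) (-(sg z w) ^ 2 * m z w) 0)
    (h' : HasDerivAt (fun t : ℝ => m (ofComplex ((z : ℂ) + t * e)) w) (mm z w) 0) :
    HasDerivAt (fun t : ℝ => P1 φ m (ofComplex ((z : ℂ) + t * e)) w) (P2 φ m mm z w) 0 := by
  have e0 : ofComplex ((z : ℂ) + (0:ℝ) * e) = z := by simp [ofComplex_apply]
  have h1 := (P0_deriv φ.a1 m e z w h).mul h'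
  refine h1.congr_deriv ?_
  rw [e0]
  unfold P2 P1
  ring

lemma continuous_mx : Continuous (Function.uncurry mx) := by
  unfold mx Function.uncurry
  refine Continuous.div ?_ ?_ ?_
  · exact (continuous_re.comp continuous_fst).sub (continuous_re.comp continuous_snd)
  · exact (continuous_const.mul (continuous_im.comp continuous_fst)).mul
      (continuous_im.comp continuous_snd)
  · intro p
    have h1 := p.1.im_pos
    have h2 := p.2.im_pos
    positivity

lemma continuous_my : Continuous (Function.uncurry my) := by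
  unfold my Function.uncurry
  refine Continuous.div ?_ ?_ ?_
  · exact (((continuous_im.comp continuous_fst).pow 2).sub
      ((continuous_im.comp continuous_snd).pow 2)).sub
      (((continuous_re.comp continuous_fst).sub (continuous_re.comp continuous_snd)).pow 2)
  · exact (continuous_const.mul ((continuous_im.comp continuous_fst).pow 2)).mul
      (continuous_im.comp continuous_snd)
  · intro p
    have h1 := p.1.im_pos
    have h2 := p.2.im_pos
    positivity

lemma continuous_mxx : Continuous (Function.uncurry mxx) := by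
  unfold mxx Function.uncurry
  refine Continuous.div continuous_const ?_ ?_
  · exact (continuous_const.mul (continuous_im.comp continuous_fst)).mul
      (continuous_im.comp continuous_snd)
  · intro p
    have h1 := p.1.im_pos
    have h2 := p.2.im_pos
    positivity

lemma continuous_myy : Continuous (Function.uncurry myy) := by
  unfold myy Function.uncurry
  refine Continuous.div ?_ ?_ ?_
  · exact ((continuous_im.comp continuous_snd).pow 2).add
      (((continuous_re.comp continuous_fst).sub (continuous_re.comp continuous_snd)).pow 2)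
  · exact (continuous_const.mul ((continuous_im.comp continuous_fst).pow 3)).mul
      (continuous_im.comp continuous_snd)
  · intro p
    have h1 := p.1.im_pos
    have h2 := p.2.im_pos
    positivity

lemma continuous_P0 {r : ℝ} (φ : Prof r) :
    Continuous (Function.uncurry fun z w : ℍ => φ.ψ (sg z w)) := φ.cont.comp continuous_sg

lemma continuous_P1 {r : ℝ} (φ : SProf r) {m : ℍ → ℍ → ℝ} (hm : Continuous (Function.uncurry m)) :
    Continuous (Function.uncurry (P1 φ m)) := (continuous_P0 φ.a1.toProf).mul hm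

lemma continuous_P2 {r : ℝ} (φ : SProf r) {m mm : ℍ → ℍ → ℝ}
    (hm : Continuous (Function.uncurry m)) (hmm : Continuous (Function.uncurry mm)) :
    Continuous (Function.uncurry (P2 φ m mm)) :=
  ((continuous_P0 φ.a1.a1.toProf).mul (hm.pow 2)).add ((continuous_P0 φ.a1.toProf).mul hmm)

lemma supp_P1 {r : ℝ} (hr : 0 ≤ r) (φ : SProf r) (m : ℍ → ℍ → ℝ) (z w : ℍ)
    (h : P1 φ m z w ≠ 0) : dist z w < r :=
  φ.a1.toProf.dist_lt hr (left_ne_zero_of_mul h)

lemma supp_P2 {r : ℝ} (hr : 0 ≤ r) (φ : SProf r) (m mm : ℍ → ℍ → ℝ) (z w : ℍ)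
    (h : P2 φ m mm z w ≠ 0) : dist z w < r := by
  by_contra hc
  apply h
  have h1 : φ.a1.a1.ψ (sg z w) = 0 := by
    by_contra h2
    exact hc (φ.a1.a1.toProf.dist_lt hr h2)
  have h2 : φ.a1.ψ (sg z w) = 0 := by
    by_contra h2
    exact hc (φ.a1.toProf.dist_lt hr h2)
  unfold P2
  rw [h1, h2]; ring

/-- second derivative in a direction -/
lemma second_deriv {r : ℝ} (hr : 0 ≤ r) (φ : SProf r) (m mm : ℍ → ℍ → ℝ) (e : ℂ)
    (hm : Continuous (Function.uncurry m)) (hmm : Continuous (Function.uncurry mm))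
    (h : ∀ z w : ℍ, HasDerivAt (fun t : ℝ => sg (ofComplex ((z : ℂ) + t * e)) w)
      (-(sg z w) ^ 2 * m z w) 0)
    (h' : ∀ z w : ℍ, HasDerivAt (fun t : ℝ => m (ofComplex ((z : ℂ) + t * e)) w) (mm z w) 0)
    {F : ℍ → ℂ} (hF : Measurable F) (hFb : ∃ M : ℝ, ∀ z, ‖F z‖ ≤ M) (z : ℍ) :
    deriv (deriv (fun t : ℝ => Top φ.ψ F (ofComplex ((z : ℂ) + t * e)))) 0
      = ∫ w, (P2 φ m mm z w : ℂ) * F w := by
  have d1 : ∀ z : ℍ, HasDerivAt (fun t : ℝ => Top φ.ψ F (ofComplex ((z : ℂ) + t * e)))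
      (∫ w, (P1 φ m z w : ℂ) * F w) 0 := fun z =>
    param_deriv (fun z w => φ.ψ (sg z w)) (P1 φ m) (continuous_P0 φ.toProf) (continuous_P1 φ hm) r
      (fun z w h => φ.toProf.dist_lt hr h) (supp_P1 hr φ m) e
      (fun z w => P0_deriv φ m e z w (h z w)) hF hFb z
  have d2 : ∀ z : ℍ, HasDerivAt (fun t : ℝ => ∫ w, (P1 φ m (ofComplex ((z : ℂ) + t * e)) w : ℂ) * F w)
      (∫ w, (P2 φ m mm z w : ℂ) * F w) 0 := fun z =>
    param_deriv (P1 φ m) (P2 φ m mm) (continuous_P1 φ hm) (continuous_P2 φ hm hmm) r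
      (supp_P1 hr φ m) (supp_P2 hr φ m mm) e
      (fun z w => P1_deriv φ m mm e z w (h z w) (h' z w)) hF hFb z
  have e1 : deriv (fun t : ℝ => Top φ.ψ F (ofComplex ((z : ℂ) + t * e)))
      =ᶠ[𝓝 0] fun t : ℝ => ∫ w, (P1 φ m (ofComplex ((z : ℂ) + t * e)) w : ℂ) * F w := by
    filter_upwards [nhds_shift z e] with t ht
    have h1 := d1 (ofComplex ((z : ℂ) + t * e))
    have h3 : HasDerivAt (fun s : ℝ => s - t) 1 t := (hasDerivAt_id t).sub_const t
    have h4 := HasDerivAt.scomp (h := fun s : ℝ => s - t) (x := t)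
      (g₁ := fun τ : ℝ => Top φ.ψ F (ofComplex (((ofComplex ((z : ℂ) + t * e) : ℍ) : ℂ)
        + (τ : ℂ) * e)))
      (g₁' := ∫ w, (P1 φ m (ofComplex ((z : ℂ) + t * e)) w : ℂ) * F w) (h' := 1)
      (by simpa using h1) h3
    rw [one_smul] at h4
    have h5 : ((fun τ : ℝ => Top φ.ψ F (ofComplex (((ofComplex ((z : ℂ) + t * e) : ℍ) : ℂ)
        + (τ : ℂ) * e))) ∘ fun s : ℝ => s - t) = fun s : ℝ => Top φ.ψ F (ofComplex ((z : ℂ) + s * e)) := by
      ext s
      simp only [Function.comp]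
      rw [oc_shift ht.2]
      congr 2
      push_cast
      ring
    rw [h5] at h4
    exact h4.deriv
  rw [e1.deriv_eq]
  exact (d2 z).deriv

lemma lap_identity {r : ℝ} (φ : SProf r) (z w : ℍ) :
    z.im ^ 2 * (P2 φ mx mxx z w + P2 φ my myy z w) = φ.lap.ψ (sg z w) := by
  have hy := z.im_pos
  have hv := w.im_pos
  have hρ : 0 < rr z.re z.im w.re w.im := rr_pos hy hv
  have hs : sg z w = (rr z.re z.im w.re w.im)⁻¹ := sg_rr z w
  have i1 : z.im ^ 2 * (mx z w ^ 2 + my z w ^ 2)
      = rr z.re z.im w.re w.im ^ 2 - rr z.re z.im w.re w.im := by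
    unfold mx my rr
    field_simp
    ring
  have i2 : z.im ^ 2 * (mxx z w + myy z w) = 2 * rr z.re z.im w.re w.im - 1 := by
    unfold mxx myy rr
    field_simp
    ring
  have e1 : z.im ^ 2 * (P2 φ mx mxx z w + P2 φ my myy z w)
      = φ.a1.a1.ψ (sg z w) * (z.im ^ 2 * (mx z w ^ 2 + my z w ^ 2))
        + φ.a1.ψ (sg z w) * (z.im ^ 2 * (mxx z w + myy z w)) := by
    unfold P2; ring
  rw [e1, i1, i2]
  set ρ := rr z.re z.im w.re w.im with hρd
  have hd : deriv φ.a1.ψ (sg z w)
      = -(2 * sg z w) * deriv φ.ψ (sg z w) - sg z w ^ 2 * deriv (deriv φ.ψ) (sg z w) := by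
    have h1 : HasDerivAt (fun s : ℝ => -s ^ 2) (-(2 * sg z w)) (sg z w) := by
      have := ((hasDerivAt_id (sg z w)).pow 2).neg
      refine this.congr_deriv ?_
      simp
    have h2 := h1.mul (φ.der.hasDerivAt (sg z w))
    have h3 : deriv φ.a1.ψ (sg z w) = _ := h2.deriv
    rw [h3]
    change _ * deriv φ.ψ (sg z w) + _ * deriv (deriv φ.ψ) (sg z w) = _
    ring
  rw [SProf.lap_apply, SProf.a1_apply φ.a1, hd, SProf.a1_apply]
  have hr' : ρ = (sg z w)⁻¹ := by rw [hs, inv_inv]
  rw [hr']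
  have hsp := sg_pos z w
  field_simp
  ring

/-- the Laplacian of a convolution -/
theorem laplacian_Top {r : ℝ} (hr : 0 ≤ r) (φ : SProf r)
    {F : ℍ → ℂ} (hF : Measurable F) (hFb : ∃ M : ℝ, ∀ z, ‖F z‖ ≤ M) (z : ℍ) :
    ((z.im : ℂ)) ^ 2 * (deriv (deriv (fun t : ℝ => Top φ.ψ F (ofComplex ((z : ℂ) + t * 1)))) 0
      + deriv (deriv (fun t : ℝ => Top φ.ψ F (ofComplex ((z : ℂ) + t * Complex.I)))) 0)
      = Top φ.lap.ψ F z := by
  rw [second_deriv hr φ mx mxx 1 continuous_mx continuous_mxx hasDerivAt_sg_x hasDerivAt_mx hF hFb,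
    second_deriv hr φ my myy Complex.I continuous_my continuous_myy hasDerivAt_sg_y hasDerivAt_my
      hF hFb]
  have hint : ∀ (m mm : ℍ → ℍ → ℝ), Continuous (Function.uncurry m) →
      Continuous (Function.uncurry mm) → Integrable (fun w => (P2 φ m mm z w : ℂ) * F w) := by
    intro m mm hm hmm
    obtain ⟨M, hM⟩ := hFb
    obtain ⟨C1, hC1⟩ := ((isCompact_singleton (x := z)).prod
      (isCompact_closedBall z r)).exists_bound_of_continuousOn
      (continuous_P2 φ hm hmm).continuousOn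
    refine integrable_of_ball ?_ z r (C1 * M) ?_ ?_
    · exact ((Complex.measurable_ofReal.comp ((continuous_P2 φ hm hmm).measurable.comp
        (measurable_prodMk_left (x := z)))).mul hF).aestronglyMeasurable
    · intro w hw
      rw [norm_mul, Complex.norm_real]
      have := hC1 (z, w) ⟨rfl, hw⟩
      have h0 : 0 ≤ C1 := (norm_nonneg _).trans this
      exact mul_le_mul this (hM w) (norm_nonneg _) h0
    · intro w hw
      have : P2 φ m mm z w = 0 := by
        by_contra hc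
        have := supp_P2 hr φ m mm z w hc
        rw [Metric.mem_closedBall, dist_comm] at hw
        exact hw this.le
      rw [this]; simp
  rw [← integral_add (hint mx mxx continuous_mx continuous_mxx)
    (hint my myy continuous_my continuous_myy), ← integral_const_mul]
  unfold Top
  congr 1
  ext w
  rw [← lap_identity]
  push_cast
  ring

end

end Pool.Agent.V1143.Maass
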