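import Pool.Agent.V1143.Maass.Series

/-! Multiplicativity of Fourier coefficients. -/

namespace Pool.Agent.V1143.Maass

open MeasureTheory Filter Topology Set

noncomputable section

lemma ex_neg_int_mul (n b : ℤ) (x : ℝ) : ex (-n * (x + b)) = ex (-n * x) := by
  have : (-(n:ℝ) * (x + b)) = ((-(n * b) : ℤ) : ℝ) + (-n * x) := by push_cast; ring
  rw [this, ex_add, ex_int, one_mul]

lemma sum_div {h : ℝ → ℂ} (hc : Continuous h) {p : ℕ} (hp : 0 < p) (n : ℤ) :
    ∑ b ∈ Finset.range p, ∫ x in (0:ℝ)..1, h ((x + b) / p) * ex (-n * x)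
      = p * ∫ t in (0:ℝ)..1, h t * ex (-((p * n : ℤ) : ℝ) * t) := by
  have hp' : (p : ℝ) ≠ 0 := by exact_mod_cast hp.ne'
  set k : ℝ → ℂ := fun x => h (x / p) * ex (-n * x) with hk
  have hkc : Continuous k := (hc.comp (continuous_id.div_const _)).mul (by fun_prop)
  have e1 : ∀ b : ℕ, ∫ x in (0:ℝ)..1, h ((x + b) / p) * ex (-n * x)
      = ∫ x in (b:ℝ)..((b + 1 : ℕ) : ℝ), k x := by
    intro b
    have := intervalIntegral.integral_comp_add_right (a := 0) (b := 1) k (b : ℝ)
    rw [zero_add, add_comm (1:ℝ)] at this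
    push_cast
    rw [← this]
    congr 1
    ext x
    rw [hk]
    simp only
    have := ex_neg_int_mul n b x
    push_cast at this
    rw [this]
  rw [Finset.sum_congr rfl fun b _ => e1 b]
  rw [intervalIntegral.sum_integral_adjacent_intervals (a := fun b : ℕ => (b : ℝ))
    (fun b _ => hkc.intervalIntegrable _ _)]
  have e2 := intervalIntegral.integral_comp_div (a := 0) (b := p) (c := (p:ℝ))
    (fun t => h t * ex (-((p * n : ℤ) : ℝ) * t)) hp'
  rw [zero_div, div_self hp'] at e2
  rw [Nat.cast_zero]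
  calc ∫ x in (0:ℝ)..(p:ℝ), k x = ∫ x in (0:ℝ)..(p:ℝ), h (x / p) * ex (-((p * n : ℤ) : ℝ) * (x / p)) := by
        congr 1
        ext x
        rw [hk]
        simp only
        congr 2
        push_cast
        field_simp
    _ = _ := by rw [e2, Complex.real_smul]; push_cast; rfl

lemma comp_mul_dvd {h : ℝ → ℂ} (hc : Continuous h) (hper : ∀ x, h (x + 1) = h x) {p : ℕ}
    (hp : 0 < p) (k : ℤ) :
    ∫ x in (0:ℝ)..1, h (p * x) * ex (-((p * k : ℤ) : ℝ) * x) = ∫ t in (0:ℝ)..1, h t * ex (-k * t) := by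
  have hp' : (p : ℝ) ≠ 0 := by exact_mod_cast hp.ne'
  set u : ℝ → ℂ := fun t => h t * ex (-k * t) with hu
  have huc : Continuous u := hc.mul (by fun_prop)
  have hup : Function.Periodic u 1 := by
    intro x
    rw [hu]
    simp only
    have := ex_neg_int_mul k 1 x
    push_cast at this
    rw [hper, this]
  have e1 := intervalIntegral.integral_comp_mul_left (a := 0) (b := 1) (c := (p:ℝ)) u hp'
  rw [mul_zero, mul_one] at e1
  have e2 := hup.intervalIntegral_add_zsmul_eq (p : ℤ) 0 (fun _ _ => huc.intervalIntegrable _ _)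
  rw [zero_add, zero_add] at e2
  have e3 : ((p : ℤ) • (1:ℝ)) = (p:ℝ) := by simp
  rw [e3] at e2
  calc _ = ∫ x in (0:ℝ)..1, u (p * x) := by
        congr 1
        ext x
        rw [hu]
        simp only
        congr 2
        push_cast
        ring
    _ = ∫ t in (0:ℝ)..1, u t := by
        rw [e1, e2]
        rw [zsmul_eq_mul, Complex.real_smul]
        push_cast
        have : (p : ℂ) ≠ 0 := by exact_mod_cast hp.ne'
        field_simp

lemma comp_mul_not_dvd {h : ℝ → ℂ} (hper : ∀ x, h (x + 1) = h x) {p : ℕ}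
    (hp : 0 < p) {n : ℤ} (hn : ¬ (p : ℤ) ∣ n) :
    ∫ x in (0:ℝ)..1, h (p * x) * ex (-n * x) = 0 := by
  have hp' : (p : ℝ) ≠ 0 := by exact_mod_cast hp.ne'
  set v : ℝ → ℂ := fun x => h (p * x) * ex (-n * x) with hv
  have hpn : ∀ (k : ℕ) x, h (x + k) = h x := by
    intro k
    induction k with
    | zero => intro x; simp
    | succ k ih => intro x; push_cast; rw [← add_assoc, hper, ih]
  have hvp : Function.Periodic v 1 := by
    intro x
    rw [hv]
    simp only
    have := ex_neg_int_mul n 1 x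
    push_cast at this
    rw [this, mul_add, mul_one, hpn]
  have e1 := hvp.intervalIntegral_add_eq (1 / p) 0
  rw [zero_add] at e1
  have e2 := intervalIntegral.integral_comp_add_right (a := 0) (b := 1) v (1 / p : ℝ)
  rw [zero_add, add_comm (1:ℝ)] at e2
  have e3 : ∫ x in (0:ℝ)..1, v (x + 1 / p) = ex (-n / p) * ∫ x in (0:ℝ)..1, v x := by
    rw [← intervalIntegral.integral_const_mul]
    congr 1
    ext x
    rw [hv]
    simp only
    have a1 : (p:ℝ) * (x + 1 / p) = p * x + 1 := by field_simp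
    have a2 : (-(n:ℝ) * (x + 1 / p)) = (-n / p) + (-n * x) := by ring
    rw [a1, hper, a2, ex_add]
    ring
  rw [e2, e1] at e3
  have hne : ex (-n / p) ≠ 1 := by
    intro h1
    unfold ex at h1
    rw [Complex.exp_eq_one_iff] at h1
    obtain ⟨k, hk⟩ := h1
    have h2 : (2 * (Real.pi : ℂ) * Complex.I) ≠ 0 := Complex.two_pi_I_ne_zero
    have h3 : ((-n / p : ℝ) : ℂ) = k := by
      apply mul_left_cancel₀ h2
      rw [hk]; ring
    have h4 : (-n / p : ℝ) = k := by exact_mod_cast h3
    have h5 : (-n : ℝ) = k * p := by field_simp at h4; linarith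
    have h6 : -n = k * p := by exact_mod_cast h5
    apply hn
    exact ⟨-k, by linarith⟩
  have h7 : (1 - ex (-n / p)) * ∫ x in (0:ℝ)..1, v x = 0 := by linear_combination e3
  exact (mul_eq_zero.mp h7).resolve_left (sub_ne_zero.mpr (Ne.symm hne))

namespace MF

variable (m : MF)

lemma line_cont {y : ℝ} (hy : 0 < y) : Continuous (fun x : ℝ => m.f (pt x y)) :=
  cont_line m.smooth.contOn hy

lemma line_per {y : ℝ} (hy : 0 < y) (x : ℝ) : m.f (pt (x + 1) y) = m.f (pt x y) := by
  rw [pt_add_one, m.per _ (pt_mem hy)]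

/-- the Hecke relation on Fourier coefficients -/
lemma hecke_c {p : ℕ} (hp : p.Prime) (n : ℤ) {y : ℝ} (hy : 0 < y) :
    (∫ x in (0:ℝ)..1, m.f (pt (p * x) (p * y)) * ex (-n * x)) + p * m.c (p * n) (y / p)
      = m.mu p * m.c n y := by
  have hp0 : (0:ℝ) < p := by exact_mod_cast hp.pos
  have hpc : (p:ℂ) ≠ 0 := by exact_mod_cast hp0.ne'
  have h1 : ∀ x : ℝ, m.f (pt (p * x) (p * y)) * ex (-n * x)
      + ∑ b ∈ Finset.range p, m.f (pt ((x + b) / p) (y / p)) * ex (-n * x)
      = m.mu p * (m.f (pt x y) * ex (-n * x)) := by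
    intro x
    have h := m.hecke p hp (pt x y) (pt_mem hy)
    have e1 : (p : ℂ) * pt x y = pt (p * x) (p * y) := by unfold pt; push_cast; ring
    have e2 : ∀ b : ℕ, (pt x y + b) / p = pt ((x + b) / p) (y / p) := by
      intro b; unfold pt; push_cast; field_simp; ring
    rw [e1, Finset.sum_congr rfl fun b _ => by rw [e2 b]] at h
    rw [← Finset.sum_mul]
    linear_combination ex (-n * x) * h
  have c0 : Continuous (fun x : ℝ => m.f (pt (p * x) (p * y)) * ex (-n * x)) :=
    ((m.line_cont (mul_pos hp0 hy)).comp (continuous_const.mul continuous_id)).mul (by fun_prop)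
  have c1 : ∀ b : ℕ, Continuous (fun x : ℝ => m.f (pt ((x + b) / p) (y / p)) * ex (-n * x)) :=
    fun b => ((m.line_cont (div_pos hy hp0)).comp (by fun_prop :
      Continuous fun x : ℝ => (x + b) / p)).mul (by fun_prop)
  have h2 : ∫ x in (0:ℝ)..1, (m.f (pt (p * x) (p * y)) * ex (-n * x)
      + ∑ b ∈ Finset.range p, m.f (pt ((x + b) / p) (y / p)) * ex (-n * x))
      = m.mu p * m.c n y := by
    unfold c cg
    rw [← intervalIntegral.integral_const_mul]
    congr 1
    ext x
    exact h1 x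
  rw [intervalIntegral.integral_add (c0.intervalIntegrable _ _)
    ((continuous_finsetSum _ fun b _ => c1 b).intervalIntegrable _ _),
    intervalIntegral.integral_finsetSum fun b _ => (c1 b).intervalIntegrable _ _,
    sum_div (m.line_cont (div_pos hy hp0)) hp.pos n] at h2
  rw [← h2]
  rfl

/-- the Hecke relation, second form -/
lemma hecke_c' {p : ℕ} (hp : p.Prime) (k : ℤ) {y : ℝ} (hy : 0 < y) :
    p * m.c (p * k) y = m.mu p * m.c k (p * y)
      - (if (p : ℤ) ∣ k then m.c (k / p) (p ^ 2 * y) else 0) := by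
  have hp0 : (0:ℝ) < p := by exact_mod_cast hp.pos
  have hpy : 0 < p * y := mul_pos hp0 hy
  have h := m.hecke_c hp k hpy
  rw [mul_div_cancel_left₀ y hp0.ne'] at h
  have e : (∫ x in (0:ℝ)..1, m.f (pt (p * x) (p * (p * y))) * ex (-k * x))
      = if (p : ℤ) ∣ k then m.c (k / p) (p ^ 2 * y) else 0 := by
    have hppy : 0 < (p:ℝ) * (p * y) := mul_pos hp0 hpy
    split_ifs with hd
    · obtain ⟨k', rfl⟩ := hd
      have hpz : (p : ℤ) ≠ 0 := by exact_mod_cast hp.pos.ne'
      rw [Int.mul_ediv_cancel_left k' hpz]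
      have := comp_mul_dvd (m.line_cont hppy) (fun x => m.line_per hppy x) hp.pos k'
      rw [this, show (p:ℝ) ^ 2 * y = p * (p * y) by ring]
      rfl
    · exact comp_mul_not_dvd (h := fun x => m.f (pt x (p * (p * y))))
        (fun x => m.line_per hppy x) hp.pos hd
  rw [e] at h
  linear_combination h

/-- natural number version -/
lemma hecke_nat {p : ℕ} (hp : p.Prime) (k : ℕ) {y : ℝ} (hy : 0 < y) :
    m.c ((p * k : ℕ) : ℤ) y = (p : ℂ)⁻¹ * (m.mu p * m.c k (p * y)
      - (if p ∣ k then m.c ((k / p : ℕ) : ℤ) (p ^ 2 * y) else 0)) := by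
  have hpc : (p:ℂ) ≠ 0 := by exact_mod_cast hp.pos.ne'
  have h := m.hecke_c' hp k hy
  have e1 : ((p:ℤ) ∣ (k:ℤ)) ↔ p ∣ k := Int.natCast_dvd_natCast
  have e2 : ((k : ℤ) / (p : ℤ)) = ((k / p : ℕ) : ℤ) := (Int.natCast_div k p).symm
  rw [e2] at h
  simp only [e1] at h
  rw [← h]
  push_cast
  field_simp

lemma exists_beta (n : ℕ) (hn : 1 ≤ n) : ∃ β : ℂ, ∀ y : ℝ, 0 < y → m.c n y = β * m.c 1 (n * y) := by
  induction n using Nat.strong_induction_on with
  | _ n ih =>
    rcases Nat.eq_or_lt_of_le hn with h1 | h1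
    · subst h1
      exact ⟨1, fun y hy => by simp⟩
    · have hp := Nat.minFac_prime (n := n) (by omega)
      obtain ⟨k, hk⟩ := Nat.minFac_dvd n
      set p := n.minFac with hpd
      have hk0 : 1 ≤ k := by
        rcases Nat.eq_zero_or_pos k with h | h
        · rw [h] at hk; omega
        · exact h
      have hkn : k < n := by
        rw [hk]
        have := hp.two_le
        nlinarith
      obtain ⟨β, hβ⟩ := ih k hkn hk0
      have hp0 : (0:ℝ) < p := by exact_mod_cast hp.pos
      by_cases hd : p ∣ k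
      · obtain ⟨k', hk'⟩ := hd
        have hk'0 : 1 ≤ k' := by
          rcases Nat.eq_zero_or_pos k' with h | h
          · rw [h] at hk'; omega
          · exact h
        have hk'n : k' < n := by
          have : k' ≤ k := by rw [hk']; exact Nat.le_mul_of_pos_left k' hp.pos
          omega
        obtain ⟨β', hβ'⟩ := ih k' hk'n hk'0
        refine ⟨(p:ℂ)⁻¹ * (m.mu p * β - β'), fun y hy => ?_⟩
        have h := m.hecke_nat hp k hy
        rw [if_pos ⟨k', hk'⟩, ← hk] at h
        have e : k / p = k' := by rw [hk']; exact Nat.mul_div_cancel_left k' hp.pos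
        rw [e, hβ _ (mul_pos hp0 hy), hβ' _ (by positivity)] at h
        rw [h]
        have e1 : (k : ℝ) * (p * y) = n * y := by rw [hk]; push_cast; ring
        have e2 : (k' : ℝ) * (p ^ 2 * y) = n * y := by rw [hk, hk']; push_cast; ring
        rw [e1, e2]
        ring
      · refine ⟨(p:ℂ)⁻¹ * (m.mu p * β), fun y hy => ?_⟩
        have h := m.hecke_nat hp k hy
        rw [if_neg hd, ← hk] at h
        rw [hβ _ (mul_pos hp0 hy)] at h
        rw [h]
        have e1 : (k : ℝ) * (p * y) = n * y := by rw [hk]; push_cast; ring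
        rw [e1]
        ring

/-- the first coefficient is not identically zero -/
lemma exists_c_one_ne : ∃ y : ℝ, 0 < y ∧ m.c 1 y ≠ 0 := by
  by_contra hcon
  push Not at hcon
  have hall : ∀ n : ℤ, ∀ y : ℝ, 0 < y → m.c n y = 0 := by
    have hnat : ∀ n : ℕ, 1 ≤ n → ∀ y : ℝ, 0 < y → m.c n y = 0 := by
      intro n hn y hy
      obtain ⟨β, hβ⟩ := m.exists_beta n hn
      have hn0 : (0:ℝ) < n := by exact_mod_cast hn
      rw [hβ y hy, hcon _ (mul_pos hn0 hy), mul_zero]
    intro n y hy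
    rcases lt_trichotomy n 0 with h | h | h
    · obtain ⟨k, hk⟩ := Int.exists_eq_neg_ofNat h.le
      have hk1 : 1 ≤ k := by omega
      rw [hk, m.c_neg _ hy, hnat k hk1 y hy, neg_zero]
    · rw [h]; exact m.c_zero hy
    · obtain ⟨k, hk⟩ := Int.eq_ofNat_of_zero_le h.le
      have hk1 : 1 ≤ k := by omega
      rw [hk]; exact hnat k hk1 y hy
  obtain ⟨z, hz, hne⟩ := m.ne
  apply hne
  have hy : 0 < z.im := hz
  have hs : Summable fun n : ℤ => ∫ x in (0:ℝ)..1, m.f (pt x z.im) * ex (-n * x) := by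
    have : (fun n : ℤ => ∫ x in (0:ℝ)..1, m.f (pt x z.im) * ex (-n * x)) = fun _ => 0 := by
      ext n; exact hall n z.im hy
    rw [this]; exact summable_zero
  have h := hasSum_fourier (m.line_cont hy) (fun x => m.line_per hy x) hs z.re
  have h0 : (fun n : ℤ => (∫ x in (0:ℝ)..1, m.f (pt x z.im) * ex (-n * x)) * ex (n * z.re))
      = fun _ => 0 := by
    ext n
    have := hall n z.im hy
    unfold c cg at this
    rw [this, zero_mul]
  rw [h0] at h
  have := h.unique hasSum_zero
  rwa [pt_eta] at this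

/-- normalised coefficient -/
def b (n : ℕ) : ℂ := if h : 1 ≤ n then (m.exists_beta n h).choose else 0

lemma b_spec {n : ℕ} (hn : 1 ≤ n) {y : ℝ} (hy : 0 < y) : m.c n y = m.b n * m.c 1 (n * y) := by
  unfold b
  rw [dif_pos hn]
  exact (m.exists_beta n hn).choose_spec y hy

lemma b_one : m.b 1 = 1 := by
  obtain ⟨y, hy, hne⟩ := m.exists_c_one_ne
  have := m.b_spec le_rfl hy
  push_cast at this
  rw [one_mul] at this
  have h2 : (m.b 1 - 1) * m.c 1 y = 0 := by linear_combination -this
  exact sub_eq_zero.mp ((mul_eq_zero.mp h2).resolve_right hne)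

lemma b_zero : m.b 0 = 0 := by
  unfold b
  rw [dif_neg (by norm_num)]

lemma b_rec {p : ℕ} (hp : p.Prime) {k : ℕ} (hk : 1 ≤ k) :
    m.b (p * k) = (p : ℂ)⁻¹ * (m.mu p * m.b k - (if p ∣ k then m.b (k / p) else 0)) := by
  obtain ⟨y1, hy1, hne⟩ := m.exists_c_one_ne
  have hp0 : (0:ℝ) < p := by exact_mod_cast hp.pos
  have hk0 : (0:ℝ) < k := by exact_mod_cast hk
  set y := y1 / (p * k) with hyd
  have hy : 0 < y := by positivity
  have h := m.hecke_nat hp k hy
  have hpk : 1 ≤ p * k := Nat.mul_pos hp.pos hk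
  rw [m.b_spec hpk hy, m.b_spec hk (mul_pos hp0 hy)] at h
  have e1 : ((p * k : ℕ) : ℝ) * y = y1 := by rw [hyd]; push_cast; field_simp
  have e2 : (k : ℝ) * (p * y) = y1 := by rw [hyd]; field_simp
  rw [e1, e2] at h
  by_cases hd : p ∣ k
  · rw [if_pos hd] at h ⊢
    obtain ⟨k', hk'⟩ := hd
    have e : k / p = k' := by rw [hk']; exact Nat.mul_div_cancel_left k' hp.pos
    have hk'1 : 1 ≤ k' := by
      rcases Nat.eq_zero_or_pos k' with h | h
      · rw [h] at hk'; omega
      · exact h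
    rw [e] at h ⊢
    rw [m.b_spec hk'1 (by positivity)] at h
    have e3 : (k' : ℝ) * (p ^ 2 * y) = y1 := by
      have : (k : ℝ) = p * k' := by rw [hk']; push_cast; ring
      rw [hyd, this]
      have hk'0 : (0:ℝ) < k' := by exact_mod_cast hk'1
      field_simp
    rw [e3] at h
    apply mul_right_cancel₀ hne
    rw [h]; ring
  · rw [if_neg hd] at h ⊢
    apply mul_right_cancel₀ hne
    rw [h]; ring

lemma b_bound : ∃ B : ℝ, 0 ≤ B ∧ ∀ n, ‖m.b n‖ ≤ B := by
  obtain ⟨y1, hy1, hne⟩ := m.exists_c_one_ne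
  obtain ⟨M, hM0, hM⟩ := m.c_bound
  have hpos : 0 < ‖m.c 1 y1‖ := norm_pos_iff.mpr hne
  refine ⟨M / ‖m.c 1 y1‖, by positivity, fun n => ?_⟩
  rcases Nat.eq_zero_or_pos n with h | h
  · rw [h, b_zero, norm_zero]; positivity
  · have hn0 : (0:ℝ) < n := by exact_mod_cast h
    have hy : 0 < y1 / n := by positivity
    have h1 := m.b_spec h hy
    rw [mul_div_cancel₀ y1 hn0.ne'] at h1
    rw [le_div_iff₀ hpos, ← norm_mul, ← h1]
    exact hM n _ hy

/-- exponential decay of the first coefficient -/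
lemma c_one_decay : ∃ K : ℝ, 0 ≤ K ∧ ∀ y, 0 < y → ‖m.c 1 y‖ ≤ K * Real.exp (-y) := by
  obtain ⟨M, hM0, hM⟩ := m.c_bound
  obtain ⟨K, hK⟩ := wB_decay m.nu
  refine ⟨‖m.C‖ * |K| + M * Real.exp 1, by positivity, fun y hy => ?_⟩
  have hE := Real.exp_pos (-y)
  rcases le_or_gt 1 y with h | h
  · rw [m.c_one hy, norm_mul]
    have h1 := (hK y h).1
    have h2 : y * Real.exp (-(2 * Real.pi * y)) ≤ Real.exp (-y) := by
      have h3 : y ≤ Real.exp y := by have := Real.add_one_le_exp y; linarith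
      calc y * Real.exp (-(2 * Real.pi * y)) ≤ Real.exp y * Real.exp (-(2 * Real.pi * y)) :=
            mul_le_mul_of_nonneg_right h3 (Real.exp_pos _).le
        _ = Real.exp (y - 2 * Real.pi * y) := by rw [← Real.exp_add]; congr 1
        _ ≤ Real.exp (-y) := by
            refine Real.exp_le_exp.mpr ?_
            have := Real.pi_gt_three
            nlinarith
    calc ‖m.C‖ * ‖wB m.nu y‖ ≤ ‖m.C‖ * (|K| * Real.exp (-y)) := by
          refine mul_le_mul_of_nonneg_left ?_ (norm_nonneg _)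
          refine h1.trans ?_
          refine mul_le_mul (le_abs_self K) h2 ?_ (abs_nonneg K)
          have := Real.exp_pos (-(2 * Real.pi * y))
          positivity
      _ ≤ _ := by
          have : 0 ≤ M * Real.exp 1 * Real.exp (-y) := by positivity
          nlinarith
  · have h1 := hM 1 y hy
    have h2 : 1 ≤ Real.exp 1 * Real.exp (-y) := by
      rw [← Real.exp_add]
      exact Real.one_le_exp (by linarith)
    calc ‖m.c 1 y‖ ≤ M * 1 := by rw [mul_one]; exact h1
      _ ≤ M * (Real.exp 1 * Real.exp (-y)) := mul_le_mul_of_nonneg_left h2 hM0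
      _ ≤ _ := by
          have : 0 ≤ ‖m.C‖ * |K| * Real.exp (-y) := by positivity
          nlinarith

lemma C_ne : m.C ≠ 0 := by
  obtain ⟨y, hy, hne⟩ := m.exists_c_one_ne
  intro h
  rw [m.c_one hy, h, zero_mul] at hne
  exact hne rfl

end MF

end

end Pool.Agent.V1143.Maass
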