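import Pool.Agent.V1143.Maass.Exist

/-! Properties of the convolution operators. -/

namespace Pool.Agent.V1143.Maass

open MeasureTheory Filter Topology UpperHalfPlane
open scoped ENNReal MatrixGroups Modular

noncomputable section

lemma mp_gl (g : GL (Fin 2) ℝ) : MeasurePreserving (fun z : ℍ => g • z) volume volume :=
  measurePreserving_smul g volume

lemma me_gl (g : GL (Fin 2) ℝ) : MeasurableEmbedding (fun z : ℍ => g • z) :=
  measurableEmbedding_const_smul g

lemma Top_gl (ψ : ℝ → ℝ) (F : ℍ → ℂ) (g : GL (Fin 2) ℝ) (z : ℍ) :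
    Top ψ (fun w => F (g • w)) z = Top ψ F (g • z) := by
  unfold Top
  rw [← (mp_gl g).integral_comp (me_gl g) (fun w => (ψ (sg (g • z) w) : ℂ) * F w)]
  congr 1
  ext w
  rw [sg_smul]

lemma measurable_ksg {r : ℝ} (φ : Prof r) :
    Measurable (fun p : ℍ × ℍ => (φ.ψ (sg p.1 p.2) : ℂ)) :=
  Complex.measurable_ofReal.comp (φ.cont.comp continuous_sg).measurable

lemma measurable_Top {r : ℝ} (φ : Prof r) {F : ℍ → ℂ} (hF : Measurable F) :
    Measurable (Top φ.ψ F) := by
  have h1 : StronglyMeasurable (Function.uncurry fun z w : ℍ => (φ.ψ (sg z w) : ℂ) * F w) :=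
    ((measurable_ksg φ).mul (hF.comp measurable_snd)).stronglyMeasurable
  exact h1.integral_prod_right.measurable

lemma volume_closedBall_eq (z w : ℍ) (R : ℝ) :
    (volume : Measure ℍ) (Metric.closedBall z R) = volume (Metric.closedBall w R) := by
  obtain ⟨g, hg, hg2⟩ := exists_swap z w
  rw [← (mp_gl g).measure_preimage (measurableSet_closedBall.nullMeasurableSet)]
  congr 1
  ext v
  simp only [Set.mem_preimage, Metric.mem_closedBall]
  rw [← hg2, dist_smul_gl]

lemma Top_bdd {r : ℝ} (hr : 0 ≤ r) (φ : Prof r) {F : ℍ → ℂ}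
    (hFb : ∃ M : ℝ, ∀ z, ‖F z‖ ≤ M) : ∃ M : ℝ, ∀ z, ‖Top φ.ψ F z‖ ≤ M := by
  obtain ⟨M, hM⟩ := hFb
  obtain ⟨C, hC0, hC⟩ := φ.bound
  refine ⟨C * M * ((volume : Measure ℍ) (Metric.closedBall z0 r)).toReal, fun z => ?_⟩
  unfold Top
  have e : ∫ w, (φ.ψ (sg z w) : ℂ) * F w
      = ∫ w in Metric.closedBall z r, (φ.ψ (sg z w) : ℂ) * F w := by
    rw [setIntegral_eq_integral_of_forall_compl_eq_zero]
    intro w hw
    have : φ.ψ (sg z w) = 0 := by
      by_contra hc
      have := φ.dist_lt hr hc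
      rw [Metric.mem_closedBall, dist_comm] at hw
      exact hw this.le
    rw [this]; simp
  rw [e, volume_closedBall_eq z0 z]
  refine norm_setIntegral_le_of_norm_le_const (volume_closedBall_lt_top z r) ?_
  intro w _
  rw [norm_mul, Complex.norm_real]
  exact mul_le_mul (hC z w) (hM w) (norm_nonneg _) hC0

lemma OddF.top {r : ℝ} (hr : 0 ≤ r) (φ : Prof r) {F : ℍ → ℂ} (hF : OddF F) :
    OddF (Top φ.ψ F) := by
  refine ⟨measurable_Top φ hF.meas, Top_bdd hr φ hF.bdd, fun γ z => ?_⟩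
  have : Top φ.ψ F (Maass.act γ z) = Top φ.ψ (fun w => F (toR γ • w)) z := (Top_gl _ _ _ _).symm
  rw [this]
  have h2 : (fun w => F (toR γ • w)) = (dt γ : ℂ) • F := by
    ext w
    exact hF.act γ w
  rw [h2, Top_smul]

lemma integrable_prod_of_ball {h : ℍ × ℍ → ℂ}
    (hm : Measurable h) (z : ℍ) (R C : ℝ)
    (hb : ∀ p, ‖h p‖ ≤ C) (hs : ∀ p, h p ≠ 0 → p.1 ∈ Metric.closedBall z R ∧
      p.2 ∈ Metric.closedBall z R) :
    Integrable h (volume.prod volume) := by
  set S := Metric.closedBall z R ×ˢ Metric.closedBall z R with hS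
  have hSm : MeasurableSet S := measurableSet_closedBall.prod measurableSet_closedBall
  have h1 : IntegrableOn h S (volume.prod volume) := by
    refine IntegrableOn.of_bound ?_ hm.aestronglyMeasurable C ?_
    · rw [hS, Measure.prod_prod]
      exact ENNReal.mul_lt_top (volume_closedBall_lt_top z R) (volume_closedBall_lt_top z R)
    · exact Filter.Eventually.of_forall hb
  refine (integrableOn_iff_integrable_of_support_subset ?_).mp h1
  intro p hp
  exact hs p hp

lemma kk_comm (ψ φ : ℝ → ℝ) (z v : ℍ) :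
    ∫ w, ((ψ (sg z w) : ℂ) * (φ (sg w v) : ℂ)) = ∫ w, ((φ (sg z w) : ℂ) * (ψ (sg w v) : ℂ)) := by
  obtain ⟨g, hg1, hg2⟩ := exists_swap z v
  rw [← (mp_gl g).integral_comp (me_gl g) (fun w => (ψ (sg z w) : ℂ) * (φ (sg w v) : ℂ))]
  congr 1
  ext w
  have e1 : sg z (g • w) = sg w v := by
    have := sg_smul g v w
    rw [hg2] at this
    rw [this, sg_comm]
  have e2 : sg (g • w) v = sg z w := by
    have := sg_smul g w z
    rw [hg1] at this
    rw [this, sg_comm]
  rw [e1, e2, mul_comm]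

lemma Top_Top {r r' : ℝ} (hr : 0 ≤ r) (hr' : 0 ≤ r') (ψ : Prof r) (φ : Prof r') {F : ℍ → ℂ}
    (hF : Measurable F) (hFb : ∃ M : ℝ, ∀ z, ‖F z‖ ≤ M) (z : ℍ) :
    Top ψ.ψ (Top φ.ψ F) z = ∫ v, (∫ w, ((ψ.ψ (sg z w) : ℂ) * (φ.ψ (sg w v) : ℂ))) * F v := by
  obtain ⟨M, hM⟩ := hFb
  obtain ⟨C, hC0, hC⟩ := ψ.bound
  obtain ⟨C', hC0', hC'⟩ := φ.bound
  have e1 : Top ψ.ψ (Top φ.ψ F) z
      = ∫ w, ∫ v, ((ψ.ψ (sg z w) : ℂ) * (φ.ψ (sg w v) : ℂ)) * F v := by
    unfold Top
    congr 1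
    ext w
    rw [← integral_const_mul]
    congr 1
    ext v
    ring
  rw [e1, integral_integral_swap]
  · congr 1
    ext v
    rw [integral_mul_const]
  · refine integrable_prod_of_ball (z := z) (R := r + r') (C := C * C' * M) ?_ ?_ ?_
    · refine Measurable.mul (Measurable.mul ?_ (measurable_ksg φ)) (hF.comp measurable_snd)
      exact (measurable_ksg ψ).comp (measurable_const.prodMk measurable_fst)
    · rintro ⟨w, v⟩
      simp only [Function.uncurry, norm_mul, Complex.norm_real]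
      exact mul_le_mul (mul_le_mul (hC z w) (hC' w v) (norm_nonneg _) hC0) (hM v)
        (norm_nonneg _) (mul_nonneg hC0 hC0')
    · rintro ⟨w, v⟩ h
      simp only [Function.uncurry] at h
      have h1 : ψ.ψ (sg z w) ≠ 0 := by
        intro h0; rw [h0] at h; simp at h
      have h2 : φ.ψ (sg w v) ≠ 0 := by
        intro h0; rw [h0] at h; simp at h
      have d1 := ψ.dist_lt hr h1
      have d2 := φ.dist_lt hr' h2
      simp only [Metric.mem_closedBall]
      rw [dist_comm z w] at d1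
      constructor
      · linarith
      · have := dist_triangle v w z
        rw [dist_comm v w] at this
        linarith

lemma Top_comm {r r' : ℝ} (hr : 0 ≤ r) (hr' : 0 ≤ r') (ψ : Prof r) (φ : Prof r') {F : ℍ → ℂ}
    (hF : Measurable F) (hFb : ∃ M : ℝ, ∀ z, ‖F z‖ ≤ M) :
    Top ψ.ψ (Top φ.ψ F) = Top φ.ψ (Top ψ.ψ F) := by
  ext z
  rw [Top_Top hr hr' ψ φ hF hFb, Top_Top hr' hr φ ψ hF hFb]
  congr 1
  ext v
  rw [kk_comm]

/-- convolution operators preserve the eigenspace -/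
lemma Top_mem_VV {r r' : ℝ} (hr : 0 ≤ r) (hr' : 0 ≤ r') (ψ : Prof r) (φ : Prof r') {lam : ℂ}
    {F : ℍ → ℂ} (hF : F ∈ VV hr ψ lam) : Top φ.ψ F ∈ VV hr ψ lam := by
  refine ⟨hF.1.top hr' φ, fun z => ?_⟩
  rw [Top_comm hr hr' ψ φ hF.1.meas hF.1.bdd]
  have : Top ψ.ψ F = lam • F := by
    ext w
    exact hF.2 w
  rw [this, Top_smul]

end

end Pool.Agent.V1143.Maass
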