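import Pool.Agent.V1143.Maass.Coef

/-! Pointwise Fourier series. -/

namespace Pool.Agent.V1143.Maass

open MeasureTheory Filter Topology Set

noncomputable section

lemma fourier_eq_ex (n : ℤ) (x : ℝ) : (fourier n (x : AddCircle (1:ℝ)) : ℂ) = ex (n * x) := by
  rw [fourier_coe_apply]
  unfold ex
  congr 1
  push_cast
  ring

theorem hasSum_fourier {h : ℝ → ℂ} (hc : Continuous h) (hp : ∀ x, h (x + 1) = h x)
    (hs : Summable fun n : ℤ => ∫ x in (0:ℝ)..1, h x * ex (-n * x)) (x : ℝ) :
    HasSum (fun n : ℤ => (∫ x in (0:ℝ)..1, h x * ex (-n * x)) * ex (n * x)) (h x) := by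
  have hper : Function.Periodic h 1 := hp
  have hfact : Fact ((0:ℝ) < 1) := ⟨one_pos⟩
  let F : C(AddCircle (1:ℝ), ℂ) := ⟨hper.lift, by
    exact Continuous.quotient_liftOn' hc _⟩
  have hF : ∀ x : ℝ, F (x : AddCircle (1:ℝ)) = h x := fun x => hper.lift_coe x
  have hco : ∀ n : ℤ, fourierCoeff F n = ∫ x in (0:ℝ)..1, h x * ex (-n * x) := by
    intro n
    rw [fourierCoeff_eq_intervalIntegral F n 0]
    rw [div_one, one_smul, zero_add]
    congr 1
    ext x
    rw [fourier_eq_ex, hF, smul_eq_mul, mul_comm]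
    push_cast
    rfl
  have hsum : Summable (fourierCoeff F) := by
    have : fourierCoeff F = fun n : ℤ => ∫ x in (0:ℝ)..1, h x * ex (-n * x) := by
      ext n; exact hco n
    rw [this]; exact hs
  have key := has_pointwise_sum_fourier_series_of_summable hsum (x : AddCircle (1:ℝ))
  rw [hF] at key
  simp_rw [hco, fourier_eq_ex, smul_eq_mul] at key
  exact key

end

end Pool.Agent.V1143.Maass
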