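import Pool.Agent.V1143.Maass.Lap

/-! Smoothness of a convolution. -/

namespace Pool.Agent.V1143.Maass

open MeasureTheory Filter Topology UpperHalfPlane
open scoped ENNReal MatrixGroups Modular Convolution

noncomputable section

/-- integrals over the upper half-plane in coordinates -/
lemma integral_H (g : ℍ → ℂ) :
    ∫ w, g w = ∫ t in Set.range UpperHalfPlane.coe, ((t.im ^ 2)⁻¹ : ℝ) • g (ofComplex t) := by
  have hmp : MeasurePreserving UpperHalfPlane.coe ((volume : Measure ℂ).comap UpperHalfPlane.coe)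
      (volume.restrict (.range UpperHalfPlane.coe)) :=
    ⟨measurable_coe, by rw [measurableEmbedding_coe.map_comap]⟩
  rw [← hmp.integral_comp measurableEmbedding_coe]
  rw [volume_def, integral_withDensity_eq_integral_smul]
  · congr 1
    ext w
    rw [ofComplex_apply]
    have h := w.im_pos
    have e : ((1 / NNReal.mk w.im w.im_pos.le : NNReal) ^ 2 : NNReal) • g w
        = (((1 / NNReal.mk w.im w.im_pos.le : NNReal) ^ 2 : NNReal) : ℝ) • g w := rfl
    rw [e]
    congr 1
    push_cast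
    rw [one_div, inv_pow]; rfl
  · refine Measurable.pow_const ?_ 2
    refine Measurable.div measurable_const ?_
    exact (continuous_im.measurable).subtype_mk

/-- extension by zero -/
def f0 (F : ℍ → ℂ) : ℂ → ℂ := Function.extend UpperHalfPlane.coe F 0

lemma coe_inj : Function.Injective UpperHalfPlane.coe := measurableEmbedding_coe.injective

lemma f0_coe (F : ℍ → ℂ) (w : ℍ) : f0 F w = F w := coe_inj.extend_apply _ _ _

lemma f0_of_not {F : ℍ → ℂ} {t : ℂ} (h : t ∉ Set.range UpperHalfPlane.coe) : f0 F t = 0 := by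
  unfold f0
  rw [Function.extend_apply' _ _ _ h]; rfl

lemma measurable_f0 {F : ℍ → ℂ} (hF : Measurable F) : Measurable (f0 F) :=
  measurableEmbedding_coe.measurable_extend hF measurable_const

lemma norm_f0_le {F : ℍ → ℂ} {M : ℝ} (hM : ∀ z, ‖F z‖ ≤ M) (t : ℂ) : ‖f0 F t‖ ≤ M := by
  by_cases h : t ∈ Set.range UpperHalfPlane.coe
  · obtain ⟨w, rfl⟩ := h
    rw [f0_coe]; exact hM w
  · rw [f0_of_not h, norm_zero]
    exact (norm_nonneg _).trans (hM z0)

lemma locallyIntegrable_f0 {F : ℍ → ℂ} (hF : Measurable F) {M : ℝ} (hM : ∀ z, ‖F z‖ ≤ M) :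
    LocallyIntegrable (f0 F) := by
  rw [locallyIntegrable_iff]
  intro K hK
  refine IntegrableOn.of_bound hK.measure_lt_top (measurable_f0 hF).aestronglyMeasurable M ?_
  exact Filter.Eventually.of_forall (norm_f0_le hM)

/-- sg in complex coordinates -/
def sc (p t : ℂ) : ℝ := 4 * p.im * t.im / ((p.re - t.re) ^ 2 + (p.im + t.im) ^ 2)

lemma sc_coe (z w : ℍ) : sc z w = sg z w := by
  rw [sg_rr]
  unfold sc rr
  rw [inv_div]
  rfl

lemma sc_le_of_small {p t : ℂ} (hp : 0 < p.im) {c : ℝ} (hc : 0 < c) (h : t.im < p.im * c / 4) :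
    sc p t ≤ c := by
  unfold sc
  rcases le_or_gt t.im 0 with ht | ht
  · refine le_trans ?_ hc.le
    refine div_nonpos_of_nonpos_of_nonneg ?_ (by positivity)
    have : 0 ≤ 4 * p.im := by positivity
    exact mul_nonpos_of_nonneg_of_nonpos this ht
  · rw [div_le_iff₀ (by positivity)]
    have h1 : p.im ^ 2 ≤ (p.re - t.re) ^ 2 + (p.im + t.im) ^ 2 := by
      nlinarith [sq_nonneg (p.re - t.re), mul_pos hp ht]
    have h2 : 4 * p.im * t.im ≤ c * p.im ^ 2 := by nlinarith
    nlinarith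

/-- the kernel in complex coordinates -/
def Phi (ψ : ℝ → ℝ) (p t : ℂ) : ℝ := ψ (sc p t) * (t.im ^ 2)⁻¹

lemma Top_eq_Phi (ψ : ℝ → ℝ) (F : ℍ → ℂ) (z : ℍ) :
    Top ψ F z = ∫ t : ℂ, Phi ψ z t • f0 F t := by
  unfold Top
  rw [integral_H]
  have e : ∫ t : ℂ, Phi ψ z t • f0 F t
      = ∫ t in Set.range UpperHalfPlane.coe, Phi ψ z t • f0 F t := by
    rw [setIntegral_eq_integral_of_forall_compl_eq_zero]
    intro t ht
    rw [f0_of_not ht, smul_zero]
  rw [e]
  refine setIntegral_congr_fun measurableEmbedding_coe.measurableSet_range ?_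
  rintro _ ⟨w, rfl⟩
  simp only
  rw [ofComplex_apply, f0_coe]
  unfold Phi
  rw [sc_coe]
  rw [Complex.real_smul, Complex.real_smul]
  push_cast
  ring

lemma contDiffOn_Phi {r : ℝ} (φ : SProf r) {s : Set ℂ} (hs : s ⊆ {p : ℂ | 0 < p.im}) :
    ContDiffOn ℝ (⊤ : ℕ∞) (fun q : ℂ × ℂ => Phi φ.ψ q.1 (-q.2)) (s ×ˢ Set.univ) := by
  rintro ⟨p, x⟩ ⟨hp, -⟩
  refine ContDiffAt.contDiffWithinAt ?_
  have hp' : 0 < p.im := hs hp
  by_cases hx : 0 < (-x).im
  · unfold Phi sc
    have him : ContDiff ℝ (⊤ : ℕ∞) Complex.im := Complex.imCLM.contDiff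
    have hre : ContDiff ℝ (⊤ : ℕ∞) Complex.re := Complex.reCLM.contDiff
    refine ContDiffAt.mul ?_ ?_
    · refine φ.smooth.contDiffAt.comp (p, x) (ContDiffAt.div ?_ ?_ ?_)
      · fun_prop
      · fun_prop
      · change (p.re - (-x).re) ^ 2 + (p.im + (-x).im) ^ 2 ≠ 0
        positivity
    · refine ContDiffAt.inv ?_ ?_
      · fun_prop
      · change (-x).im ^ 2 ≠ 0
        positivity
  · have hU : {q : ℂ × ℂ | (-q.2).im < q.1.im * cr r / 4 ∧ 0 < q.1.im} ∈ 𝓝 (p, x) := by
      refine IsOpen.mem_nhds ?_ ?_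
      · have o1 : IsOpen {q : ℂ × ℂ | (-q.2).im < q.1.im * cr r / 4} :=
          isOpen_lt (by fun_prop) (by fun_prop)
        have o2 : IsOpen {q : ℂ × ℂ | 0 < q.1.im} := isOpen_lt (by fun_prop) (by fun_prop)
        exact o1.inter o2
      · refine ⟨?_, hp'⟩
        have := cr_pos r
        have h2 : 0 < p.im * cr r / 4 := by positivity
        push Not at hx
        exact lt_of_le_of_lt hx h2
    have he : (fun q : ℂ × ℂ => Phi φ.ψ q.1 (-q.2)) =ᶠ[𝓝 (p, x)] fun _ => 0 := by
      filter_upwards [hU] with q hq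
      unfold Phi
      rw [φ.supp _ (sc_le_of_small hq.2 (cr_pos r) hq.1), zero_mul]
    exact contDiffAt_const.congr_of_eventuallyEq he

/-- a convolution is smooth -/
theorem contDiffOn_Top {r : ℝ} (hr : 0 ≤ r) (φ : SProf r) {F : ℍ → ℂ} (hF : Measurable F)
    (hFb : ∃ M : ℝ, ∀ z, ‖F z‖ ≤ M) :
    ContDiffOn ℝ (⊤ : ℕ∞) (fun z : ℂ => Top φ.ψ F (ofComplex z)) {z : ℂ | 0 < z.im} := by
  obtain ⟨M, hM⟩ := hFb
  intro z hz
  refine ContDiffAt.contDiffWithinAt ?_
  set zz : ℍ := ⟨z, hz⟩ with hzz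
  set s : Set ℂ := UpperHalfPlane.coe '' (Metric.ball zz 1) with hs
  set K : Set ℂ := UpperHalfPlane.coe '' (Metric.closedBall zz (r + 1)) with hK
  have hso : IsOpen s := isOpenEmbedding_coe.isOpenMap _ Metric.isOpen_ball
  have hKc : IsCompact K := (isCompact_closedBall zz (r + 1)).image continuous_coe
  have hzs : z ∈ s := ⟨zz, Metric.mem_ball_self one_pos, rfl⟩
  have hsH : s ⊆ {p : ℂ | 0 < p.im} := by
    rintro _ ⟨w, -, rfl⟩
    exact w.im_pos
  let g : ℂ → ℂ → ℝ := fun p x => Phi φ.ψ p (-x)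
  have key := contDiffOn_convolution_right_with_param_comp (μ := (volume : Measure ℂ))
    (n := (⊤ : ℕ∞)) (ContinuousLinearMap.lsmul ℝ ℝ : ℝ →L[ℝ] ℂ →L[ℝ] ℂ).flip
    (s := s) (v := fun _ : ℂ => (0 : ℂ)) contDiffOn_const
    (f := f0 F) (g := g) (k := -K) hso hKc.neg ?_ (locallyIntegrable_f0 hF hM)
    (contDiffOn_Phi φ hsH)
  · refine (key.contDiffAt (hso.mem_nhds hzs)).congr_of_eventuallyEq ?_
    filter_upwards [hso.mem_nhds hzs] with p hp
    obtain ⟨w, hw, rfl⟩ := hp
    rw [ofComplex_apply, Top_eq_Phi, convolution_def]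
    congr 1
    ext t
    simp only [ContinuousLinearMap.flip_apply, ContinuousLinearMap.lsmul_apply, g]
    rw [zero_sub, neg_neg]
  · rintro p x hp hx
    obtain ⟨w, hw, rfl⟩ := hp
    change φ.ψ (sc w (-x)) * _ = 0
    by_cases hx0 : 0 < (-x).im
    · set v : ℍ := ⟨-x, hx0⟩ with hv
      have e : (-x : ℂ) = (v : ℂ) := rfl
      rw [e, sc_coe]
      have : φ.ψ (sg w v) = 0 := by
        by_contra hc
        have h1 := φ.toProf.dist_lt hr hc
        apply hx
        rw [Set.mem_neg, e]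
        refine ⟨v, ?_, rfl⟩
        rw [Metric.mem_ball] at hw
        rw [Metric.mem_closedBall]
        have h2 := dist_triangle_left v zz w
        linarith
      rw [this, zero_mul]
    · have hw' := w.im_pos
      have : sc w (-x) ≤ cr r := by
        refine sc_le_of_small hw' (cr_pos r) ?_
        have := cr_pos r
        have h2 : 0 < (w : ℂ).im * cr r / 4 := by
          have : 0 < (w : ℂ).im := w.im_pos
          positivity
        push Not at hx0
        exact lt_of_le_of_lt hx0 h2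
      rw [φ.supp _ this, zero_mul]

end

end Pool.Agent.V1143.Maass
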