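import Pool.Agent.V1143.Maass.Twist

/-! Vanishing of the central values of quadratic twists of odd Maass forms. -/

namespace Pool.Agent.V1143.Maass

open MeasureTheory Filter Topology Set

noncomputable section

namespace MF

variable (m : MF)

/-- bessel data attached to a form and a bounded sequence -/
def bd (e : ℕ → ℂ) (he : ∀ n, ‖e n‖ ≤ 1) (δ : ℕ) (hδ : δ ≤ 1) (q : ℝ) (hq : 0 < q) : BD where
  ν := m.nu
  C := m.C
  hC := m.C_ne
  c := m.c 1
  hc := fun _ hy => m.c_one hy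
  K := m.c_one_decay.choose
  hK0 := m.c_one_decay.choose_spec.1
  hK := m.c_one_decay.choose_spec.2
  δ := δ
  hδ := hδ
  d := fun n => e n * m.b n
  hd0 := by rw [m.b_zero, mul_zero]
  B := m.b_bound.choose
  hB := fun n => by
    have h1 := m.b_bound.choose_spec.2 n
    rw [norm_mul]
    calc ‖e n‖ * ‖m.b n‖ ≤ 1 * ‖m.b n‖ := mul_le_mul_of_nonneg_right (he n) (norm_nonneg _)
      _ ≤ _ := by rw [one_mul]; exact h1
  q := q
  hq := hq

lemma bd_term (e : ℕ → ℂ) (he : ∀ n, ‖e n‖ ≤ 1) (δ : ℕ) (hδ : δ ≤ 1) (q : ℝ) (hq : 0 < q) (n : ℕ)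
    {y : ℝ} (hy : 0 < y) :
    (m.bd e he δ hδ q hq).d n * (m.bd e he δ hδ q hq).φ (n * y)
      = e n * (((n : ℂ) * y) ^ δ * m.c n y) := by
  change e n * m.b n * ((((n * y : ℝ)) : ℂ) ^ δ * m.c 1 (n * y)) = _
  rcases Nat.eq_zero_or_pos n with h | h
  · rw [h, m.b_zero, Nat.cast_zero (R := ℤ), m.c_zero hy]; ring
  · rw [m.b_spec h hy]
    push_cast
    ring

lemma summable_nat (δ : ℕ) (hδ : δ ≤ 1) {y : ℝ} (hy : 0 < y) :
    Summable fun n : ℕ => ((n : ℂ) * y) ^ δ * m.c n y := by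
  have h := (m.bd (fun _ => 1) (fun _ => by simp) δ hδ 1 one_pos).summable_term hy
  have e : (fun n : ℕ => (m.bd (fun _ => 1) (fun _ => by simp) δ hδ 1 one_pos).d n *
      (m.bd (fun _ => 1) (fun _ => by simp) δ hδ 1 one_pos).φ (n * y))
      = fun n : ℕ => ((n : ℂ) * y) ^ δ * m.c n y := by
    funext n
    rw [m.bd_term _ _ _ _ _ _ n hy, one_mul]
  rw [e] at h
  exact h

lemma summable_c {y : ℝ} (hy : 0 < y) : Summable fun n : ℤ => cg m.f n y := by
  have h := m.summable_nat 0 (by norm_num) hy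
  simp only [pow_zero, one_mul] at h
  refine Summable.of_nat_of_neg h ?_
  have e : (fun n : ℕ => cg m.f (-(n : ℤ)) y) = fun n : ℕ => -m.c n y := by
    funext n; exact m.c_neg n hy
  rw [e]; exact h.neg

lemma cg_der (n : ℤ) {y : ℝ} (hy : 0 < y) :
    cg (Dd m.f 1) n y = 2 * Real.pi * Complex.I * n * m.c n y := cg_dx m.smooth m.per n hy

lemma summable_c' {y : ℝ} (hy : 0 < y) : Summable fun n : ℤ => cg (Dd m.f 1) n y := by
  have h := m.summable_nat 1 le_rfl hy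
  simp only [pow_one] at h
  have hyc : (y : ℂ) ≠ 0 := by exact_mod_cast hy.ne'
  have h2 : Summable fun n : ℕ => cg (Dd m.f 1) n y := by
    have h3 := h.mul_left (2 * Real.pi * Complex.I / y)
    refine h3.congr fun n => ?_
    rw [m.cg_der n hy]
    push_cast
    field_simp
  refine Summable.of_nat_of_neg h2 ?_
  refine h2.congr fun n => ?_
  rw [m.cg_der _ hy, m.cg_der _ hy, m.c_neg _ hy]
  push_cast
  ring

variable {q : ℕ} [NeZero q]

lemma q_pos : (0:ℝ) < q := by exact_mod_cast Nat.pos_of_ne_zero (NeZero.ne q)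

omit [NeZero q] in
lemma norm_chi (χ : DirichletCharacter ℂ q) (n : ℕ) : ‖χ (n : ZMod q)‖ ≤ 1 := χ.norm_le_one _

/-- bessel data of a twist -/
def tw (χ : DirichletCharacter ℂ q) (δ : ℕ) (hδ : δ ≤ 1) : BD :=
  m.bd (fun n => χ (n : ZMod q)) (norm_chi χ) δ hδ q q_pos

lemma S_odd {χ : DirichletCharacter ℂ q} (hp : χ.IsPrimitive) (hχ : χ⁻¹ = χ) (ho : χ (-1) = -1)
    {y : ℝ} (hy : 0 < y) :
    TW χ m.f y = 2 * gaussSum χ ZMod.stdAddChar * (m.tw χ 0 (by norm_num)).S y := by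
  have h := TW_series hp m.smooth.contOn m.per hy (m.summable_c hy)
  rw [hχ] at h
  have h1 := ((m.tw χ 0 (by norm_num)).summable_term hy).hasSum
  have h2 := h1.mul_left (gaussSum χ ZMod.stdAddChar)
  have e1 : (fun n : ℕ => gaussSum χ ZMod.stdAddChar * ((m.tw χ 0 (by norm_num)).d n *
      (m.tw χ 0 (by norm_num)).φ (n * y)))
      = fun n : ℕ => gaussSum χ ZMod.stdAddChar * (χ ((n : ℤ) : ZMod q) * cg m.f n y) := by
    funext n
    unfold tw
    rw [m.bd_term _ _ _ _ _ _ n hy, pow_zero, one_mul, Int.cast_natCast]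
    rfl
  rw [e1] at h2
  have h3 : HasSum (fun n : ℕ => gaussSum χ ZMod.stdAddChar *
      (χ ((-(n : ℤ) : ℤ) : ZMod q) * cg m.f (-(n:ℤ)) y))
      (gaussSum χ ZMod.stdAddChar * ∑' n : ℕ, (m.tw χ 0 (by norm_num)).d n *
      (m.tw χ 0 (by norm_num)).φ (n * y)) := by
    have e2 : (fun n : ℕ => gaussSum χ ZMod.stdAddChar *
      (χ ((-(n : ℤ) : ℤ) : ZMod q) * cg m.f (-(n:ℤ)) y))
      = fun n : ℕ => gaussSum χ ZMod.stdAddChar * (χ ((n : ℤ) : ZMod q) * cg m.f n y) := by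
      funext n
      have a1 : χ ((-(n : ℤ) : ℤ) : ZMod q) = -χ ((n : ℤ) : ZMod q) := by
        have : ((-(n : ℤ) : ℤ) : ZMod q) = (-1) * ((n : ℤ) : ZMod q) := by push_cast; ring
        rw [this, map_mul, ho]; ring
      have a2 : cg m.f (-(n:ℤ)) y = -cg m.f n y := m.c_neg n hy
      rw [a1, a2]; ring
    rw [e2]; exact h2
  have h4 := h2.of_nat_of_neg (f := fun n : ℤ => gaussSum χ ZMod.stdAddChar *
    (χ (n : ZMod q) * cg m.f n y)) h3
  have h5 := h.unique h4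
  have a3 : cg m.f 0 y = 0 := m.c_zero hy
  simp only [a3, mul_zero, sub_zero] at h5
  rw [h5]
  unfold BD.S
  ring

lemma S_even {χ : DirichletCharacter ℂ q} (hp : χ.IsPrimitive) (hχ : χ⁻¹ = χ) (ho : χ (-1) = 1)
    {y : ℝ} (hy : 0 < y) :
    (y : ℂ) * TW χ (Dd m.f 1) y
      = 4 * Real.pi * Complex.I * gaussSum χ ZMod.stdAddChar * (m.tw χ 1 le_rfl).S y := by
  have h := TW_series hp (m.smooth.dd 1).contOn (dd_per m.per 1) hy (m.summable_c' hy)
  rw [hχ] at h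
  replace h := h.mul_left (y : ℂ)
  have h1 := ((m.tw χ 1 le_rfl).summable_term hy).hasSum
  have h2 := h1.mul_left (2 * Real.pi * Complex.I * gaussSum χ ZMod.stdAddChar)
  have e1 : (fun n : ℕ => 2 * Real.pi * Complex.I * gaussSum χ ZMod.stdAddChar *
      ((m.tw χ 1 le_rfl).d n * (m.tw χ 1 le_rfl).φ (n * y)))
      = fun n : ℕ => (y : ℂ) * (gaussSum χ ZMod.stdAddChar *
        (χ ((n : ℤ) : ZMod q) * cg (Dd m.f 1) n y)) := by
    funext n
    unfold tw
    rw [m.bd_term _ _ _ _ _ _ n hy, pow_one, Int.cast_natCast, m.cg_der _ hy]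
    push_cast
    ring
  rw [e1] at h2
  have h3 : HasSum (fun n : ℕ => (y : ℂ) * (gaussSum χ ZMod.stdAddChar *
      (χ ((-(n : ℤ) : ℤ) : ZMod q) * cg (Dd m.f 1) (-(n:ℤ)) y)))
      (2 * Real.pi * Complex.I * gaussSum χ ZMod.stdAddChar * ∑' n : ℕ, (m.tw χ 1 le_rfl).d n *
      (m.tw χ 1 le_rfl).φ (n * y)) := by
    have e2 : (fun n : ℕ => (y : ℂ) * (gaussSum χ ZMod.stdAddChar *
      (χ ((-(n : ℤ) : ℤ) : ZMod q) * cg (Dd m.f 1) (-(n:ℤ)) y)))
      = fun n : ℕ => (y : ℂ) * (gaussSum χ ZMod.stdAddChar *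
        (χ ((n : ℤ) : ZMod q) * cg (Dd m.f 1) n y)) := by
      funext n
      have a1 : χ ((-(n : ℤ) : ℤ) : ZMod q) = χ ((n : ℤ) : ZMod q) := by
        have : ((-(n : ℤ) : ℤ) : ZMod q) = (-1) * ((n : ℤ) : ZMod q) := by push_cast; ring
        rw [this, map_mul, ho, one_mul]
      rw [a1, m.cg_der _ hy, m.cg_der _ hy, m.c_neg _ hy]
      push_cast
      ring
    rw [e2]; exact h2
  have h4 := h2.of_nat_of_neg (f := fun n : ℤ => (y : ℂ) * (gaussSum χ ZMod.stdAddChar *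
    (χ (n : ZMod q) * cg (Dd m.f 1) n y))) h3
  have h5 := h.unique h4
  have a3 : cg (Dd m.f 1) 0 y = 0 := by rw [m.cg_der _ hy, m.c_zero hy, mul_zero]
  simp only [a3, mul_zero, sub_zero] at h5
  rw [h5]
  unfold BD.S
  ring

/-- normalised Hecke eigenvalues -/
def a (n : ℕ) : ℂ := ((Real.sqrt n : ℝ) : ℂ) * m.b n

/-- main vanishing theorem -/
theorem vanish {χ : DirichletCharacter ℂ q} (hp : χ.IsPrimitive) (hχ : χ⁻¹ = χ) :
    ∃ L : ℂ → ℂ, Differentiable ℂ L ∧ L (1 / 2) = 0 ∧ ∀ s : ℂ, 3 / 2 < s.re →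
      LSeriesSummable (fun n : ℕ => χ (n : ZMod q) * m.a n) s ∧
      L s = LSeries (fun n : ℕ => χ (n : ZMod q) * m.a n) s := by
  have hg := gauss_ne_zero hp
  have haa : ∀ δ hδ, (m.tw χ δ hδ).aa = fun n : ℕ => χ (n : ZMod q) * m.a n := by
    intro δ hδ
    funext n
    change χ (n : ZMod q) * m.b n * ((Real.sqrt n : ℝ) : ℂ) = _
    unfold a
    ring
  have hY : ∀ y : ℝ, 0 < y → 0 < 1 / ((q:ℝ) ^ 2 * y) := fun y hy => by
    have := q_pos (q := q)
    positivity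
  rcases χ.even_or_odd with he | ho
  · have hS : ∀ y : ℝ, 0 < y → (m.tw χ 1 le_rfl).S (1 / ((m.tw χ 1 le_rfl).q ^ 2 * y))
        = -(m.tw χ 1 le_rfl).S y := by
      intro y hy
      change (m.tw χ 1 le_rfl).S (1 / ((q:ℝ) ^ 2 * y)) = _
      have h1 := m.TW_der hχ hy
      rw [he, m.S_even hp hχ he hy, m.S_even hp hχ he (hY y hy)] at h1
      have hne : 4 * (Real.pi : ℂ) * Complex.I * gaussSum χ ZMod.stdAddChar ≠ 0 := by
        have := Complex.I_ne_zero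
        have hpi : (Real.pi : ℂ) ≠ 0 := by exact_mod_cast Real.pi_pos.ne'
        simp [hg, hpi]
      apply mul_left_cancel₀ hne
      linear_combination h1
    refine ⟨(m.tw χ 1 le_rfl).L hS, (m.tw χ 1 le_rfl).L_diff hS, (m.tw χ 1 le_rfl).L_half hS,
      fun s hs => ?_⟩
    rw [← haa 1 le_rfl]
    exact ⟨(m.tw χ 1 le_rfl).summable_L hs, (m.tw χ 1 le_rfl).L_eq hS hs⟩
  · have hS : ∀ y : ℝ, 0 < y → (m.tw χ 0 (by norm_num)).S (1 / ((m.tw χ 0 (by norm_num)).q ^ 2 * y))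
        = -(m.tw χ 0 (by norm_num)).S y := by
      intro y hy
      change (m.tw χ 0 (by norm_num)).S (1 / ((q:ℝ) ^ 2 * y)) = _
      have h1 := m.TW_val hχ hy
      rw [ho, m.S_odd hp hχ ho hy, m.S_odd hp hχ ho (hY y hy)] at h1
      have hne : 2 * gaussSum χ ZMod.stdAddChar ≠ 0 := mul_ne_zero two_ne_zero hg
      apply mul_left_cancel₀ hne
      linear_combination h1
    refine ⟨(m.tw χ 0 (by norm_num)).L hS, (m.tw χ 0 (by norm_num)).L_diff hS,
      (m.tw χ 0 (by norm_num)).L_half hS, fun s hs => ?_⟩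
    rw [← haa 0 (by norm_num)]
    exact ⟨(m.tw χ 0 (by norm_num)).summable_L hs, (m.tw χ 0 (by norm_num)).L_eq hS hs⟩

end MF

end

end Pool.Agent.V1143.Maass
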